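import Pool.Agent.Lib.MP_33b3f9_ag.MG.IDefs
import Pool.Agent.Lib.MP_33b3f9_ag.MG.MorA
import Pool.Agent.Lib.MP_33b3f9_ag.M8.W.AType

/-!
The Lie algebra of an `l`-adic representation; the blocks.
-/

set_option autoImplicit false

noncomputable section

namespace MG.W

open Matrix Polynomial M4 M4.CM M5 Pool.Agent.M4.Mx Pool.Agent.M4.Det

variable [Dim]

section loc

variable {Γ : Type} [Group Γ] {l : ℕ} [Fact l.Prime]

/-- The limits of the quotients of `ρ σ - 1` by `l ^ n`. -/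
def Lim (ρ : Γ →* GL ν ℤ_[l]) (U : Subgroup Γ) : Set (Matrix ν ν ℤ_[l]) :=
  {X | ∀ k : ℕ, ∃ n₀ : ℕ, ∀ n, n₀ ≤ n → ∃ σ ∈ U, ∃ Y : Matrix ν ν ℤ_[l],
    (ρ σ : Matrix ν ν ℤ_[l]) = 1 + (l : ℤ_[l]) ^ n • (X + (l : ℤ_[l]) ^ k • Y)}

/-- The Lie algebra. -/
def lie (ρ : Γ →* GL ν ℤ_[l]) (U : Subgroup Γ) : Submodule (CM.Om l) (Matrix ν ν (CM.Om l)) :=
  Submodule.span (CM.Om l) ((fun X => X.map (CM.toOm l)) '' Lim ρ U)

/-- The representation over the algebraic closure. -/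
def rO (ρ : Γ →* GL ν ℤ_[l]) : Γ →* Matrix ν ν (CM.Om l) :=
  ((CM.toOm l).mapMatrix.toMonoidHom.comp (Units.coeHom _)).comp ρ

/-- The kernel modulo `l ^ n`. -/
def kerM (ρ : Γ →* GL ν ℤ_[l]) (n : ℕ) : Subgroup Γ :=
  ((Matrix.GeneralLinearGroup.map (PadicInt.toZModPow n)).comp ρ).ker

/-- Symplectic similitudes. -/
def Gsp (ρ : Γ →* GL ν ℤ_[l]) : Prop :=
  ∀ σ, ∃ c : ℤ_[l], (ρ σ : Matrix ν ν ℤ_[l])ᵀ * Matrix.J ι ℤ_[l] * (ρ σ : Matrix ν ν ℤ_[l]) =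
    c • Matrix.J ι ℤ_[l]

/-- Congruent to `1` modulo `l ^ 2`. -/
def Neat (A : Matrix ν ν (CM.Om l)) : Prop := Le (A - 1) ((l : ℝ) ^ (-2 : ℤ))

/-- Congruent modulo `l ^ k`. -/
def Cg (ρ : Γ →* GL ν ℤ_[l]) (k : ℕ) (σ σ' : Γ) : Prop :=
  ∀ i j, (l : ℤ_[l]) ^ k ∣ (ρ σ : Matrix ν ν ℤ_[l]) i j - (ρ σ' : Matrix ν ν ℤ_[l]) i j

/-- The blocks of `ρ`, one of them marked. -/
structure Lw (e : ℕ) (a b : MZ) (ρ : Γ →* GL ν ℤ_[l]) where
  /-- the splitting -/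
  z : MorD e a b (CM.Om l)
  /-- the blocks -/
  v : Γ →* Fin e → M8 (CM.Om l)
  /-- the marked block -/
  s : Fin e
  eq : ∀ σ, z.em (v σ) = rO ρ σ

variable {e : ℕ} {a b : MZ} {ρ : Γ →* GL ν ℤ_[l]}

/-- The marked block. -/
def Lw.w (W : Lw e a b ρ) : Γ →* M8 (CM.Om l) :=
  (Pi.evalMonoidHom (fun _ => M8 (CM.Om l)) W.s).comp W.v

/-- The projection to the marked block. -/
def Lw.π (W : Lw e a b ρ) : Matrix ν ν (CM.Om l) →ₗ[CM.Om l] M8 (CM.Om l) :=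
  (LinearMap.proj W.s).comp W.z.pr

/-- Another block. -/
def Lw.at (W : Lw e a b ρ) (s : Fin e) : Lw e a b ρ := { W with s := s }

/-- The Lie algebra in the product of the blocks. -/
def Lw.G (W : Lw e a b ρ) (U : Subgroup Γ) : Submodule (CM.Om l) (Fin e → M8 (CM.Om l)) :=
  (lie ρ U).comap W.z.em.toLinearMap

/-- The Lie algebra of the marked block. -/
def Lw.g (W : Lw e a b ρ) (U : Subgroup Γ) : Submodule (CM.Om l) (M8 (CM.Om l)) :=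
  (lie ρ U).map W.π

/-- The image of a subgroup. -/
def Lw.im (W : Lw e a b ρ) (U : Subgroup Γ) : Submonoid (M8 (CM.Om l)) :=
  U.toSubmonoid.map W.w

/-- Every subgroup of finite index spans the product of the blocks. -/
def Lw.Sq (W : Lw e a b ρ) : Prop :=
  ∀ U : Subgroup Γ, U.FiniteIndex → Submodule.span (CM.Om l) (W.v '' U) = ⊤

/-- An integral model of the marked block. -/
structure Lw.Int (W : Lw e a b ρ) (z : MorD e a b ℤ_[l]) (u : Γ →* GL ω ℤ_[l]) : Prop where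
  z_eq : W.z = z.map (CM.toOm l)
  eq : ∀ σ, (u σ : M8 ℤ_[l]) = z.pr (ρ σ : Matrix ν ν ℤ_[l]) W.s

end loc

variable {K : IntermediateField ℚ ℂ} {e : ℕ} {a b : MZ} {m n : ℕ}

/-- The kernel of `r` modulo `N` is open. -/
def Opn (r : Rep K) : Prop :=
  ∀ N : ℕ, N ≠ 0 → ∃ K₁ : IntermediateField ℚ ℂ, FiniteDimensional ℚ K₁ ∧
    ∀ σ : ℂ ≃ₐ[K] ℂ, (∀ x ∈ K₁, σ x = x) → Eqm r N σ 1

/-- `P` is the characteristic polynomial of `σ` on all blocks. -/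
structure Wei (D : PD e a b m n) (r : Rep K) (p : ℕ) (σ : ℂ ≃ₐ[K] ℂ) (P : D.E[X]) : Prop where
  base : Weil D r p σ P
  deg : P.natDegree = 8
  char : ∀ (l : ℕ) [Fact l.Prime], l ≠ p → ∀ (W : Lw e a b (r l)) (j : D.E →+* CM.Om l)
    (c : Fin 2), j D.z = W.z.ζ W.s c → (W.w σ).charpoly = P.map j

/-- The standing hypotheses. -/
structure Hyp (τ : Mat) (D : PD e a b m n) (r : Rep K) (N₀ : ℕ) : Prop where
  fin : FiniteDimensional ℚ K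
  opn : Opn r
  red : REDst τ D r N₀
  com : COMM a b r
  gsp : ∀ (l : ℕ) [Fact l.Prime], Gsp (r l)
  sq : ∀ (l : ℕ) [Fact l.Prime] (W : Lw e a b (r l)), W.Sq
  sf : ∀ d : ℕ, ∃ l₀ : ℕ, ∀ (l : ℕ) [Fact l.Prime], l₀ < l →
    ∀ (W : Lw e a b (r l)) z u, W.Int z u → Sf1 u d

/-- At the prime `l₀` the image is neat and one block lies in a cube. -/
structure Base {r : Rep K} {l₀ : ℕ} [Fact l₀.Prime] (W₀ : Lw e a b (r l₀))
    (f₀ : Fr ω (CM.Om l₀)) : Prop where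
  neat : ∀ σ, Neat (rO (r l₀) σ)
  inC : ∀ σ, ∃ x, W₀.w σ = f₀.T x

end MG.W
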