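import Pool.Agent.Lib.MP_33b3f9_ag.MG.W.ADefs
import Pool.Agent.Lib.MP_33b3f9_ag.M5.ALimA

/-!
The limits form a Lie ring; logarithms.
-/

set_option autoImplicit false

noncomputable section

namespace MG.W

open Matrix Polynomial M4 M4.CM M5 Pool.Agent.M4.Mx Pool.Agent.Lib.MP_33b3f9_ag

variable [Dim] {Γ : Type} [Group Γ] {l : ℕ} [Fact l.Prime] {ρ : Γ →* GL ν ℤ_[l]} {U : Subgroup Γ}

/-- It is enough to have one `n > k` (`pow_l`, induction). -/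
theorem mem_lim {X : Matrix ν ν ℤ_[l]} (h : ∀ k : ℕ, ∃ n, k < n ∧ ∃ σ ∈ U, ∃ Y : Matrix ν ν ℤ_[l],
    (ρ σ : Matrix ν ν ℤ_[l]) = 1 + (l : ℤ_[l]) ^ n • (X + (l : ℤ_[l]) ^ k • Y)) : X ∈ Lim ρ U := by
  intro k
  obtain ⟨n, hn, h0⟩ := h k
  refine ⟨n, fun m hm => ?_⟩
  induction m, hm using Nat.le_induction with
  | base => exact h0
  | succ m hm ih =>
    obtain ⟨σ, hσ, Y, hY⟩ := ih
    obtain ⟨q, hq⟩ := pow_l (l := l) (X + (l : ℤ_[l]) ^ k • Y) (n := m) (by omega)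
    obtain ⟨d, hd⟩ : ∃ d, m - 1 = k + d := ⟨m - 1 - k, by omega⟩
    refine ⟨σ ^ l, U.pow_mem hσ l, Y + (l : ℤ_[l]) ^ d • aeval (X + (l : ℤ_[l]) ^ k • Y) q, ?_⟩
    rw [map_pow, Units.val_pow_eq_pow_val, hY, hq, hd, pow_add _ k, mul_smul, add_assoc, ← smul_add]

theorem lim_zero : (0 : Matrix ν ν ℤ_[l]) ∈ Lim ρ U := by
  exact fun k => ⟨0, fun n _ => ⟨1, U.one_mem, 0, by simp⟩⟩

theorem lim_add {X Y : Matrix ν ν ℤ_[l]} (hX : X ∈ Lim ρ U) (hY : Y ∈ Lim ρ U) :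
    X + Y ∈ Lim ρ U := by
  intro k
  obtain ⟨a, ha⟩ := hX k
  obtain ⟨b, hb⟩ := hY k
  refine ⟨a + b + k, fun n hn => ?_⟩
  obtain ⟨σ, hσ, V, hV⟩ := ha n (by omega)
  obtain ⟨σ', hσ', W, hW⟩ := hb n (by omega)
  obtain ⟨d, rfl⟩ : ∃ d, n = k + d := ⟨n - k, by omega⟩
  refine ⟨σ * σ', U.mul_mem hσ hσ', V + W + (l : ℤ_[l]) ^ d •
    ((X + (l : ℤ_[l]) ^ k • V) * (Y + (l : ℤ_[l]) ^ k • W)), ?_⟩
  rw [map_mul, Units.val_mul, hV, hW, add_mul, mul_add, mul_add, smul_mul_smul_comm, one_mul,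
    one_mul, mul_one]
  module

theorem lim_br {X Y : Matrix ν ν ℤ_[l]} (hX : X ∈ Lim ρ U) (hY : Y ∈ Lim ρ U) :
    X * Y - Y * X ∈ Lim ρ U := by
  refine mem_lim fun k => ?_
  obtain ⟨a, ha⟩ := hX k
  obtain ⟨b, hb⟩ := hY k
  obtain ⟨σ, hσ, V, hV⟩ := ha (k + (a + b + 1)) (by omega)
  obtain ⟨σ', hσ', W, hW⟩ := hb (k + (a + b + 1)) (by omega)
  rw [pow_add] at hV hW
  obtain ⟨T, hT⟩ := alima_comm _ _ X V Y W (ρ (σ' * σ)⁻¹ : Matrix ν ν ℤ_[l]) (by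
    rw [← hV, ← hW, ← Units.val_mul, ← Units.val_mul, ← map_mul, ← map_mul, mul_inv_cancel, map_one,
      Units.val_one])
  refine ⟨(k + (a + b + 1)) * 2, by omega, σ * σ' * (σ' * σ)⁻¹,
    U.mul_mem (U.mul_mem hσ hσ') (U.inv_mem (U.mul_mem hσ' hσ)), T, ?_⟩
  rw [map_mul, map_mul, Units.val_mul, Units.val_mul, hV, hW, hT, pow_mul, pow_add _ k]

theorem mem_kerM {n : ℕ} {σ : Γ} : σ ∈ kerM ρ n ↔
    ∃ Z : Matrix ν ν ℤ_[l], (ρ σ : Matrix ν ν ℤ_[l]) = 1 + (l : ℤ_[l]) ^ n • Z := by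
  have key : ∀ x : ℤ_[l], PadicInt.toZModPow n x = 0 ↔ (l : ℤ_[l]) ^ n ∣ x := fun x => by
    rw [← RingHom.mem_ker, PadicInt.ker_toZModPow, Ideal.mem_span_singleton]
  have e : σ ∈ kerM ρ n ↔ ∀ i j, (l : ℤ_[l]) ^ n ∣ ((ρ σ : Matrix ν ν ℤ_[l]) - 1) i j := by
    rw [kerM, MonoidHom.mem_ker, Units.ext_iff, ← Matrix.ext_iff]
    refine forall_congr' fun i => forall_congr' fun j => ?_
    rw [← key, Matrix.sub_apply, map_sub, sub_eq_zero, Units.val_one, Matrix.one_apply,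
      Matrix.one_apply, apply_ite (PadicInt.toZModPow n), map_one, map_zero]
    rfl
  rw [e]
  constructor
  · intro h
    choose Z hZ using h
    refine ⟨Matrix.of Z, ?_⟩
    rw [← sub_eq_iff_eq_add']
    exact Matrix.ext hZ
  · rintro ⟨Z, hZ⟩ i j
    rw [hZ, add_sub_cancel_left]
    exact ⟨Z i j, rfl⟩

theorem kerM_fin (ρ : Γ →* GL ν ℤ_[l]) (n : ℕ) : (kerM ρ n).FiniteIndex := by
  have : NeZero (l ^ n) := ⟨pow_ne_zero _ (Fact.out : l.Prime).ne_zero⟩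
  unfold kerM
  infer_instance

theorem alim_rO (σ : Γ) : rO ρ σ = (ρ σ : Matrix ν ν ℤ_[l]).map (CM.toOm l) := rfl

theorem alim_norm (x : ℤ_[l]) : ‖CM.toOm l x‖ = ‖x‖ := PadicAlgCl.norm_extends l (x : ℚ_[l])

theorem kerM_le {n : ℕ} {σ : Γ} (h : σ ∈ kerM ρ n) : Le (rO ρ σ - 1) ((l : ℝ) ^ (-(n : ℤ))) := by
  obtain ⟨Z, hZ⟩ := mem_kerM.1 h
  intro i j
  have e : (rO ρ σ - 1) i j = CM.toOm l ((l : ℤ_[l]) ^ n * Z i j) := by
    rw [alim_rO, hZ, Matrix.sub_apply, Matrix.map_apply, Matrix.add_apply, map_add,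
      Matrix.one_apply, Matrix.one_apply, apply_ite (CM.toOm l), map_one, map_zero,
      add_sub_cancel_left]
    rfl
  rw [e, alim_norm, norm_mul, PadicInt.norm_p_pow]
  exact mul_le_of_le_one_right (by positivity) (PadicInt.norm_le_one _)

theorem alim_br_add {Ω : Type} [Field Ω] (X Y Z : Matrix ν ν Ω) :
    br X (Y + Z) = br X Y + br X Z ∧ br (Y + Z) X = br Y X + br Z X := by
  simp only [br, mul_add, add_mul]
  exact ⟨by abel, by abel⟩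

theorem alim_br_smul {Ω : Type} [Field Ω] (c : Ω) (X Y : Matrix ν ν Ω) :
    br X (c • Y) = c • br X Y ∧ br (c • Y) X = c • br Y X := by
  simp only [br, mul_smul_comm, smul_mul_assoc, smul_sub]
  exact ⟨trivial, trivial⟩

theorem lie_cl (ρ : Γ →* GL ν ℤ_[l]) (U : Subgroup Γ) : Cl (lie ρ U) := by
  intro X hX Y hY
  refine Submodule.span_induction₂ (p := fun X Y _ _ => br X Y ∈ lie ρ U) ?_ ?_ ?_ ?_ ?_ ?_ ?_
    hX hY
  · rintro _ _ ⟨X, hX, rfl⟩ ⟨Y, hY, rfl⟩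
    refine Submodule.subset_span ⟨_, lim_br hX hY, ?_⟩
    simp only [br, Matrix.map_sub _ (map_sub _), Matrix.map_mul]
  · intro y _
    simp [br]
  · intro x _
    simp [br]
  · intro x y z _ _ _ h1 h2
    rw [(alim_br_add z x y).2]
    exact add_mem h1 h2
  · intro x y z _ _ _ h1 h2
    rw [(alim_br_add x y z).1]
    exact add_mem h1 h2
  · intro c x y _ _ h1
    rw [(alim_br_smul c y x).2]
    exact Submodule.smul_mem _ c h1
  · intro c x y _ _ h1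
    rw [(alim_br_smul c x y).1]
    exact Submodule.smul_mem _ c h1

theorem lie_conj [U.Normal] (σ : Γ) {X : Matrix ν ν (CM.Om l)} (hX : X ∈ lie ρ U) :
    rO ρ σ * X * rO ρ σ⁻¹ ∈ lie ρ U := by
  induction hX using Submodule.span_induction with
  | mem X hX =>
    obtain ⟨X, hX, rfl⟩ := hX
    refine Submodule.subset_span ⟨(ρ σ : Matrix ν ν ℤ_[l]) * X * (ρ σ⁻¹ : Matrix ν ν ℤ_[l]),
      fun k => ?_, by simp only [Matrix.map_mul, alim_rO]⟩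
    obtain ⟨n₀, h0⟩ := hX k
    refine ⟨n₀, fun m hm => ?_⟩
    obtain ⟨s, hs, Y, e⟩ := h0 m hm
    refine ⟨σ * s * σ⁻¹, Subgroup.Normal.conj_mem inferInstance s hs σ,
      (ρ σ : Matrix ν ν ℤ_[l]) * Y * (ρ σ⁻¹ : Matrix ν ν ℤ_[l]), ?_⟩
    have e1 : (ρ σ : Matrix ν ν ℤ_[l]) * (ρ σ⁻¹ : Matrix ν ν ℤ_[l]) = 1 := by
      rw [← Units.val_mul, ← map_mul, mul_inv_cancel, map_one, Units.val_one]
    rw [map_mul, map_mul, Units.val_mul, Units.val_mul, e]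
    simp only [mul_add, add_mul, mul_smul_comm, smul_mul_assoc, mul_one, e1]
  | zero => simp
  | add x y _ _ h1 h2 =>
    rw [mul_add, add_mul]
    exact add_mem h1 h2
  | smul c x _ h1 =>
    rw [mul_smul_comm, smul_mul_assoc]
    exact Submodule.smul_mem _ c h1

/-- `tng_of_limit`. -/
theorem lie_tng (ρ : Γ →* GL ν ℤ_[l]) (U : Subgroup Γ) : lie ρ U ≤ tng (imU ρ U) := by
  refine Submodule.span_le.2 ?_
  rintro _ ⟨X, hX, rfl⟩
  choose n₀ h0 using hX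
  choose σ hσ Y e using fun k => h0 k (max (n₀ k) k) (le_max_left _ _)
  refine tng_of_limit (imU ρ U) (fun k => X + (l : ℤ_[l]) ^ k • Y k) (fun k => max (n₀ k) k)
    (Filter.tendsto_atTop_mono (fun k => le_max_right _ _) Filter.tendsto_id) ?_
    fun k => ⟨σ k, hσ k, by rw [e]⟩
  have h5 : Filter.Tendsto (fun k : ℕ => ‖(l : ℤ_[l])‖ ^ k) Filter.atTop (nhds 0) := by
    refine tendsto_pow_atTop_nhds_zero_of_lt_one (norm_nonneg _) ?_
    rw [PadicInt.norm_p]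
    exact inv_lt_one_of_one_lt₀ (Nat.one_lt_cast.2 (Fact.out : l.Prime).one_lt)
  refine tendsto_pi_nhds.2 fun i => tendsto_pi_nhds.2 fun j => ?_
  rw [tendsto_iff_norm_sub_tendsto_zero]
  refine squeeze_zero (fun _ => norm_nonneg _) (fun k => ?_) h5
  rw [Matrix.add_apply, add_sub_cancel_left, Matrix.smul_apply, smul_eq_mul, norm_mul, norm_pow]
  exact mul_le_of_le_one_right (by positivity) (PadicInt.norm_le_one _)

end MG.W
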