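import Pool.Agent.Lib.MP_33b3f9_ag.MG.W.ALim

/-!
Logarithms.
-/

set_option autoImplicit false

noncomputable section

namespace MG.W

open Matrix Polynomial M4 M4.CM M5 Pool.Agent.M4.Mx Pool.Agent.Lib.MP_33b3f9_ag

variable [Dim] {Γ : Type} [Group Γ] {l : ℕ} [Fact l.Prime] {ρ : Γ →* GL ν ℤ_[l]} {U : Subgroup Γ}

theorem aloga_seq (Z : Matrix ν ν ℤ_[l]) : ∃ W : ℕ → Matrix ν ν ℤ_[l], W 0 = Z ∧
    (∀ j, (1 + (l : ℤ_[l]) ^ 2 • Z) ^ (l ^ j) = 1 + (l : ℤ_[l]) ^ (j + 2) • W j) ∧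
    ∀ j, ∃ a ∈ Algebra.adjoin ℤ_[l] {Z}, W (j + 1) = W j + (l : ℤ_[l]) ^ (j + 1) • a := by
  choose q hq using fun (j : ℕ) (Y : Matrix ν ν ℤ_[l]) =>
    pow_l (l := l) Y (n := j + 2) (by omega)
  let W : ℕ → Matrix ν ν ℤ_[l] := fun j =>
    Nat.rec Z (fun j Y => Y + (l : ℤ_[l]) ^ (j + 1) • aeval Y (q j Y)) j
  have hs : ∀ j, W (j + 1) = W j + (l : ℤ_[l]) ^ (j + 1) • aeval (W j) (q j (W j)) :=
    fun j => rfl
  have hae : ∀ Y ∈ Algebra.adjoin ℤ_[l] {Z}, ∀ p : ℤ_[l][X],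
      aeval Y p ∈ Algebra.adjoin ℤ_[l] {Z} := fun Y hY p =>
    Algebra.adjoin_le (Set.singleton_subset_iff.2 hY) (Polynomial.aeval_mem_adjoin_singleton _ Y)
  have hm : ∀ j, W j ∈ Algebra.adjoin ℤ_[l] {Z} := by
    intro j
    induction j with
    | zero => exact Algebra.self_mem_adjoin_singleton _ Z
    | succ j ih => rw [hs]; exact add_mem ih (Subalgebra.smul_mem _ (hae _ ih _) _)
  refine ⟨W, rfl, fun j => ?_, fun j => ⟨_, hae _ (hm j) _, hs j⟩⟩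
  induction j with
  | zero => rw [pow_zero, pow_one]; rfl
  | succ j ih => rw [pow_succ l j, pow_mul, ih, hq, hs]; rfl

theorem aloga_nak {X Z a : Matrix ν ν ℤ_[l]} (ha : a ∈ Algebra.adjoin ℤ_[l] {Z})
    (h : X = Z + (l : ℤ_[l]) • a) : Z ∈ Algebra.adjoin ℤ_[l] {X} := by
  have hXA : Algebra.adjoin ℤ_[l] {X} ≤ Algebra.adjoin ℤ_[l] {Z} := by
    refine Algebra.adjoin_le (Set.singleton_subset_iff.2 ?_)
    rw [h]
    exact add_mem (Algebra.self_mem_adjoin_singleton _ Z) (Subalgebra.smul_mem _ ha _)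
  have key : ∀ x ∈ Algebra.adjoin ℤ_[l] {Z}, ∃ b ∈ Algebra.adjoin ℤ_[l] {X},
      ∃ c ∈ Algebra.adjoin ℤ_[l] {Z}, x = b + (l : ℤ_[l]) • c := by
    intro x hx
    induction hx using Algebra.adjoin_induction with
    | mem x hx =>
      obtain rfl : x = Z := hx
      exact ⟨X, Algebra.self_mem_adjoin_singleton _ X, -a, neg_mem ha, by rw [h]; simp⟩
    | algebraMap r => exact ⟨_, Subalgebra.algebraMap_mem _ r, 0, zero_mem _, by simp⟩
    | add x y _ _ hx hy =>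
      obtain ⟨b, hb, c, hc, rfl⟩ := hx
      obtain ⟨b', hb', c', hc', rfl⟩ := hy
      exact ⟨b + b', add_mem hb hb', c + c', add_mem hc hc', by rw [smul_add]; abel⟩
    | mul x y _ hy' hx hy =>
      obtain ⟨b, hb, c, hc, rfl⟩ := hx
      obtain ⟨b', hb', c', hc', hy⟩ := hy
      refine ⟨b * b', mul_mem hb hb', b * c' + c * y,
        add_mem (mul_mem (hXA hb) hc') (mul_mem hc hy'), ?_⟩
      rw [add_mul, smul_add, smul_mul_assoc, ← add_assoc]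
      congr 1
      rw [hy, mul_add, mul_smul_comm]
  have hle : Subalgebra.toSubmodule (Algebra.adjoin ℤ_[l] {Z}) ≤
      Subalgebra.toSubmodule (Algebra.adjoin ℤ_[l] {X}) := by
    refine Submodule.le_of_le_smul_of_le_jacobson_bot (I := IsLocalRing.maximalIdeal ℤ_[l])
      (IsNoetherian.noetherian _) (IsLocalRing.maximalIdeal_le_jacobson _) fun x hx => ?_
    obtain ⟨b, hb, c, hc, rfl⟩ := key x hx
    refine Submodule.add_mem_sup hb (Submodule.smul_mem_smul ?_ hc)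
    rw [PadicInt.maximalIdeal_eq_span_p]
    exact Ideal.mem_span_singleton_self _
  exact hle (Algebra.self_mem_adjoin_singleton _ Z)

/-- `ρ σ ^ (l ^ j) = 1 + l ^ (2 + j) Z j` with `Z (j + 1) - Z j ∈ l ^ (j + 1) A`, `A = ℤ_l[Z]` (`pow_l`).
The submodules `l ^ k A` of the finite module of matrices are closed (compact: images of
`ℤ_l ^ d`; or Krull), so the limit `X` has `X - Z j ∈ l ^ (j + 1) A`; `mem_lim`. Then
`A ≤ ℤ_l[X] + l A`, Nakayama (`Submodule.le_of_le_smul_of_le_jacobson_bot`). -/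
theorem exists_log {σ : Γ} (hσ : σ ∈ U) {Z : Matrix ν ν ℤ_[l]}
    (h : (ρ σ : Matrix ν ν ℤ_[l]) = 1 + (l : ℤ_[l]) ^ 2 • Z) :
    ∃ X ∈ Lim ρ U, Z ∈ Algebra.adjoin ℤ_[l] {X} := by
  obtain ⟨W, hW0, hWp, hWs⟩ := aloga_seq Z
  have hA : IsCompact (X := Matrix ν ν ℤ_[l])
      (Subalgebra.toSubmodule (Algebra.adjoin ℤ_[l] {Z})) :=
    Submodule.isCompact_of_fg (IsNoetherian.noetherian _)
  let S : ℕ → Set (Matrix ν ν ℤ_[l]) := fun j =>
    (fun a => W j + (l : ℤ_[l]) ^ (j + 1) • a) ''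
      (Subalgebra.toSubmodule (Algebra.adjoin ℤ_[l] {Z}))
  have hS : ∀ j, IsCompact (S j) := fun j => hA.image (by fun_prop)
  have hdec : ∀ j, S (j + 1) ⊆ S j := by
    rintro j _ ⟨a, ha, rfl⟩
    obtain ⟨c, hc, hj⟩ := hWs j
    refine ⟨c + (l : ℤ_[l]) • a, add_mem hc (Submodule.smul_mem _ _ ha), ?_⟩
    simp only [hj, smul_add, smul_smul, ← pow_succ]
    exact (add_assoc _ _ _).symm
  obtain ⟨X, hX⟩ := IsCompact.nonempty_iInter_of_sequence_nonempty_isCompact_isClosed S hdec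
    (fun j => ⟨_, 0, zero_mem _, rfl⟩) (hS 0) fun j => (hS j).isClosed
  rw [Set.mem_iInter] at hX
  refine ⟨X, mem_lim fun k => ⟨k + 2, by omega, σ ^ (l ^ k), pow_mem hσ _, ?_⟩, ?_⟩
  · obtain ⟨a, -, ha⟩ := hX k
    refine ⟨-((l : ℤ_[l]) • a), ?_⟩
    rw [map_pow, Units.val_pow_eq_pow_val, h, hWp, ← ha]
    simp only [smul_neg, smul_smul, pow_succ, add_neg_cancel_right]
  · obtain ⟨a, ha, hX0⟩ := hX 0
    exact aloga_nak ha (by rw [← hX0, hW0, zero_add, pow_one])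

theorem alog_lim (hg : Gsp ρ) {X : Matrix ν ν ℤ_[l]} (hX : X ∈ Lim ρ U) :
    ∃ c : ℤ_[l], Xᵀ * J (ι) ℤ_[l] + J (ι) ℤ_[l] * X = c • J (ι) ℤ_[l] := by
  set E := J (ι) ℤ_[l] with hE
  let φ : Matrix ν ν ℤ_[l] →ₗ[ℤ_[l]] Matrix ν ν ℤ_[l] :=
    LinearMap.id - (entryLinearMap ℤ_[l] ℤ_[l] (.inr (Classical.arbitrary ι)) (.inl (Classical.arbitrary ι))).smulRight E
  have h0 : φ E = 0 := by simp [φ, hE, J]
  refine ⟨_, sub_eq_zero.1 (?_ : φ (Xᵀ * E + E * X) = 0)⟩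
  ext i j
  refine PadicInt.ext_of_toZModPow.1 fun k => ?_
  obtain ⟨n₀, hn⟩ := hX k
  obtain ⟨σ, -, Y, h⟩ := hn (n₀ + k) (by omega)
  obtain ⟨c, hc⟩ := hg σ
  have e : E + (l : ℤ_[l]) ^ (n₀ + k) • (Xᵀ * E + E * X + (l : ℤ_[l]) ^ k • (Yᵀ * E + E * Y +
      (l : ℤ_[l]) ^ n₀ • ((X + (l : ℤ_[l]) ^ k • Y)ᵀ * E * (X + (l : ℤ_[l]) ^ k • Y)))) = c • E := by
    rw [← hc, h, ← hE]
    generalize (l : ℤ_[l]) = t
    simp only [transpose_add, transpose_smul, transpose_one, Matrix.add_mul, Matrix.mul_add,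
      Matrix.smul_mul, Matrix.mul_smul, Matrix.one_mul, Matrix.mul_one, pow_add]
    module
  have e' := congrArg φ e
  rw [map_add, map_smul, map_smul, h0, zero_add, smul_zero, smul_eq_zero_iff_right
    (pow_ne_zero _ (Nat.cast_ne_zero.2 (Fact.out : l.Prime).ne_zero)), map_add, map_smul] at e'
  rw [eq_neg_of_add_eq_zero_left e', Matrix.zero_apply, map_zero, ← RingHom.mem_ker,
    PadicInt.ker_toZModPow, Ideal.mem_span_singleton]
  exact (dvd_mul_right _ _).neg_right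

end MG.W
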