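import Pool.Agent.Lib.MP_33b3f9_ag.MG.W.ALogA
import Pool.Agent.Lib.MP_33b3f9_ag.M8.W.ANear

/-!
Continuity; the blocks at a prime.
-/

set_option autoImplicit false

noncomputable section

namespace MG.W

open Matrix Polynomial M4 M4.CM M5 Pool.Agent.M4.Mx Pool.Agent.Lib.MP_33b3f9_ag

variable [Dim] {Γ : Type} [Group Γ] {l : ℕ} [Fact l.Prime] {ρ : Γ →* GL ν ℤ_[l]} {U : Subgroup Γ}
  {e : ℕ} {a b : MZ}

theorem near {F : Matrix ν ν ℤ_[l] → CM.Om l} (hF : Continuous F) (X : Matrix ν ν ℤ_[l]) {ε : ℝ}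
    (hε : 0 < ε) : ∃ k : ℕ, ∀ Y : Matrix ν ν ℤ_[l], ‖F (X + (l : ℤ_[l]) ^ k • Y) - F X‖ < ε := by
  have h1 : Continuous fun Z : ν → ν → ℤ_[l] => F (Matrix.of Z) := hF
  obtain ⟨δ, h2, h3⟩ := Metric.continuous_iff.1 h1 (Matrix.of.symm X) ε hε
  obtain ⟨k, hk⟩ := PadicInt.exists_pow_neg_lt l h2
  refine ⟨k, fun Y => ?_⟩
  rw [← dist_eq_norm]
  refine h3 (Matrix.of.symm (X + (l : ℤ_[l]) ^ k • Y)) ?_
  rw [dist_pi_lt_iff h2]
  intro i
  rw [dist_pi_lt_iff h2]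
  intro j
  refine lt_of_le_of_lt ?_ hk
  rw [dist_eq_norm]
  change ‖X i j + (l : ℤ_[l]) ^ k * Y i j - X i j‖ ≤ _
  rw [add_sub_cancel_left, norm_mul, PadicInt.norm_p_pow]
  exact mul_le_of_le_one_right (by positivity) (PadicInt.norm_le_one _)

theorem cont_pr (z : Mor e a b (CM.Om l)) (s : Fin e) :
    Continuous fun X : Matrix ν ν ℤ_[l] => z.pr (X.map (CM.toOm l)) s := by
  have h : Continuous fun X : Matrix ν ν ℤ_[l] => z.S' * X.map (CM.toOm l) * z.S :=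
    (continuous_const.matrix_mul (continuous_id.matrix_map mxLim_cont')).matrix_mul continuous_const
  exact continuous_matrix fun i j => h.matrix_elem _ _

theorem root_le (z : Mor e a b (CM.Om l)) {A : Fin e → M8 (CM.Om l)} (h : Le (z.em A) 1)
    (s : Fin e) {x : CM.Om l} (hx : (A s).charpoly.eval x = 0) : ‖x‖ ≤ 1 := by
  refine h.root ?_
  by_contra h0
  rw [eval_charpoly] at hx h0
  obtain ⟨v, hv, h1⟩ := exists_mulVec_eq_zero_iff.2 hx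
  have h2 : (scalar ν x - z.em A) * z.em (Pi.single s (vecMulVec v v)) = 0 := by
    rw [scalar_apply, ← smul_one_eq_diagonal, ← map_one z.em, ← map_smul, ← map_sub, ← map_mul,
      ← map_zero z.em]
    refine congrArg _ (funext fun t => ?_)
    by_cases ht : t = s
    · subst ht
      rw [scalar_apply, ← smul_one_eq_diagonal] at h1
      rw [Pi.mul_apply, Pi.single_eq_same, lieA_mul_left]
      exact (congrArg (vecMulVec · v) h1).trans (zero_vecMulVec v)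
    · simp [ht]
  have h3 := congrFun (z.em_inj ((((isUnit_iff_isUnit_det _).2 (Ne.isUnit h0)).mul_right_eq_zero.1
    h2).trans (map_zero z.em).symm)) s
  rw [Pi.single_eq_same] at h3
  exact hv (by simpa [vecMulVec_eq_zero] using h3)

theorem Dq_pow_le (z : Mor e a b (CM.Om l)) {B : Fin e → M8 (CM.Om l)} (h : Le (z.em B) 1)
    (s : Fin e) (k : ℕ) : ‖Dq (B s ^ k)‖ ≤ ‖Dq (B s)‖ := by
  set A := B s
  obtain ⟨c, ha⟩ := exists_roots8 A
  have h1 := Dq_eq A c ha 1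
  simp only [pow_one] at h1
  have h2 : ∀ i, ‖c i ^ 2‖ ≤ 1 := fun i => cmDq_sq (root_le z h s (cmDq_root ha i))
  rw [h1, Dq_eq A c ha k, norm_pow, norm_pow, norm_prod, norm_prod]
  refine pow_le_pow_left₀ (Finset.prod_nonneg fun _ _ => norm_nonneg _)
    (Finset.prod_le_prod (fun _ _ => norm_nonneg _) fun i _ => ?_) 2
  rw [norm_prod, norm_prod]
  exact Finset.prod_le_prod (fun _ _ => norm_nonneg _) fun j _ => cmDq_pow (h2 j) (h2 i) k

theorem reg (z : Mor e a b (CM.Om l)) {B : Fin e → M8 (CM.Om l)} (h : Neat (z.em B)) (s : Fin e)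
    (h1 : (B s).charpoly.roots.Nodup) : M5.Reg (B s) := by
  set A := B s
  obtain ⟨c, ha⟩ := exists_roots8 A
  rw [ha, cmspec_roots, Fintype.nodup_map_univ_iff_injective] at h1
  have hl : (1 : ℝ) < l := Nat.one_lt_cast.2 (Fact.out : l.Prime).one_lt
  have hl0 : (0 : ℝ) < l := zero_lt_one.trans hl
  have hc : ‖((l : CM.Om l) ^ 2)⁻¹‖ = (l : ℝ) ^ 2 := by
    rw [norm_inv, norm_pow, norm_l, inv_pow, inv_inv]
  have h2 : ∀ i, ‖c i - 1‖ < (l : ℝ)⁻¹ := fun i => by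
    have h3 := h.smul ((l : CM.Om l) ^ 2)⁻¹
    rw [hc, _root_.zpow_neg, zpow_ofNat, mul_inv_cancel₀ (pow_pos hl0 2).ne', ← map_one z.em,
      ← map_sub, ← map_smul, smul_sub, sub_eq_add_neg, ← neg_smul] at h3
    have h4 := root_le z h3 s (cmDq_root (areg_aff ha _ _) i)
    rw [← sub_eq_add_neg, ← mul_sub_one, norm_mul, hc] at h4
    refine (((le_inv_mul_iff₀ (pow_pos hl0 2)).2 h4).trans_eq (mul_one _)).trans_lt ?_
    exact inv_strictAnti₀ hl0 (lt_self_pow₀ hl one_lt_two)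
  intro m hm
  rw [Dq_eq A c ha m]
  refine pow_ne_zero _ (Finset.prod_ne_zero_iff.2 fun i _ => Finset.prod_ne_zero_iff.2
    fun j hj h3 => (Finset.mem_Ioi.1 hj).ne' (h1 ?_))
  have h4 : ‖c i‖ = 1 := by
    have h5 := IsUltrametricDist.norm_add_eq_max_of_norm_ne_norm (x := c i - 1) (y := 1)
      (((h2 i).trans (inv_lt_one_of_one_lt₀ hl)).trans_eq norm_one.symm).ne
    rw [sub_add_cancel, norm_one] at h5
    rw [h5, max_eq_right ((h2 i).trans (inv_lt_one_of_one_lt₀ hl)).le]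
  have h5 : c i ≠ 0 := norm_ne_zero_iff.1 (h4.trans_ne one_ne_zero)
  refine (div_eq_one_iff_eq h5).1 (eq_one_of_near ?_ (mul_ne_zero two_ne_zero hm) ?_)
  · rw [div_sub_one h5, norm_div, h4, div_one, ← sub_sub_sub_cancel_right _ _ 1]
    exact (cmDq_sub (le_max_left _ _) (le_max_right _ _)).trans_lt (max_lt (h2 j) (h2 i))
  · rw [div_pow, pow_mul, pow_mul, sub_eq_zero.1 h3, div_self (pow_ne_zero _ (pow_ne_zero _ h5))]

theorem reg' (z : Mor e a b (CM.Om l)) {B : Fin e → M8 (CM.Om l)} (h : Neat (z.em B)) (s : Fin e)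
    (h1 : Dq (B s) ≠ 0) : M5.Reg (B s) :=
  reg z h s (Multiset.Nodup.of_map _ ((Dq_ne_iff _).1 h1))

namespace Lw

variable (W : Lw e a b ρ)

theorem v_eq (σ : Γ) : W.v σ = W.z.pr ((ρ σ : Matrix ν ν ℤ_[l]).map (CM.toOm l)) := by
  rw [← alim_rO, ← W.eq, W.z.pr_em]

theorem w_eq (σ : Γ) : W.w σ = W.π ((ρ σ : Matrix ν ν ℤ_[l]).map (CM.toOm l)) :=
  congrFun (W.v_eq σ) W.s

theorem π_em (X : Fin e → M8 (CM.Om l)) : W.π (W.z.em X) = X W.s := congrFun (W.z.pr_em X) W.s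

theorem π_one : W.π 1 = 1 := congrFun W.z.pr_one W.s

theorem le (σ : Γ) : Le (W.z.em (W.v σ)) 1 := by
  rw [W.eq, alim_rO]
  exact le_toOm _

theorem det_ne (σ : Γ) : (W.w σ).det ≠ 0 :=
  ((isUnit_iff_isUnit_det _).1 ((Group.isUnit σ).map W.w)).ne_zero

theorem Dq_pow (σ : Γ) (k : ℕ) : ‖Dq (W.w σ ^ k)‖ ≤ ‖Dq (W.w σ)‖ :=
  Dq_pow_le W.z.toMor (W.le σ) W.s k

/-- Continuous functions of the block respect congruences. -/
theorem near {F : M8 (CM.Om l) → CM.Om l} (hF : Continuous F) (σ₀ : Γ) {ε : ℝ}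
    (hε : 0 < ε) : ∃ k : ℕ, ∀ σ, Cg ρ k σ₀ σ → ‖F (W.w σ) - F (W.w σ₀)‖ < ε := by
  obtain ⟨k, hk⟩ := MG.W.near (hF.comp (cont_pr W.z.toMor W.s)) (ρ σ₀ : Matrix ν ν ℤ_[l]) hε
  refine ⟨k, fun σ h => ?_⟩
  choose Y hY using h
  have h1 := hk (-Matrix.of Y)
  have e : (ρ σ₀ : Matrix ν ν ℤ_[l]) + (l : ℤ_[l]) ^ k • (-Matrix.of Y) = ρ σ := by
    ext i j : 1
    rw [Matrix.add_apply, Matrix.smul_apply, Matrix.neg_apply, of_apply, smul_eq_mul, mul_neg,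
      ← hY, neg_sub, add_sub_cancel]
  rw [e] at h1
  rw [W.w_eq, W.w_eq]
  exact h1

theorem kerM_le (n : ℕ) : ∃ m, ∀ σ ∈ kerM ρ m, Le (W.w σ - 1) ((l : ℝ) ^ (-(n : ℤ))) := by
  have h0 : (0 : ℝ) < (l : ℝ) ^ (-(n : ℤ)) := zpow_pos (Nat.cast_pos.2 (Fact.out : l.Prime).pos) _
  choose k hk using fun p : ω × ω => W.near (F := fun A => A p.1 p.2)
    (continuous_id.matrix_elem _ _) 1 h0
  refine ⟨Finset.univ.sup k, fun σ hσ i j => ?_⟩
  obtain ⟨Z, hZ⟩ := mem_kerM.1 hσ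
  have h1 := hk (i, j) σ fun p q => by
    rw [map_one, Units.val_one, hZ, Matrix.add_apply, sub_add_cancel_left, dvd_neg]
    exact (pow_dvd_pow _ (Finset.le_sup (Finset.mem_univ (i, j)))).mul_right _
  rw [map_one] at h1
  exact h1.le

theorem sim {σ : Γ} {c : CM.Om l} (h : (rO ρ σ)ᵀ * J ι (CM.Om l) * rO ρ σ = c • J ι _) :
    (W.w σ)ᵀ * J (Fin 4) (CM.Om l) * W.w σ = c • J (Fin 4) _ :=
  (W.z.sim_iff (W.v σ) c).1 (by rwa [W.eq]) W.s

theorem near_Dq {σ₀ : Γ} (h0 : Dq (W.w σ₀) ≠ 0) : ∃ k : ℕ, ∀ σ j, Cg ρ k σ₀ (σ ^ j) →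
    Dq (W.w σ ^ j) ≠ 0 ∧ Dq (W.w σ) ≠ 0 := by
  obtain ⟨k, hk⟩ := W.near _root_.M8.cont_Dq σ₀ (norm_pos_iff.2 h0)
  refine ⟨k, fun σ j h => ?_⟩
  have h1 := hk _ h
  rw [map_pow] at h1
  have h2 := IsUltrametricDist.norm_add_eq_max_of_norm_ne_norm h1.ne
  rw [sub_add_cancel, max_eq_right h1.le] at h2
  exact ⟨norm_ne_zero_iff.1 (h2.trans_ne (norm_ne_zero_iff.2 h0)),
    norm_pos_iff.1 ((norm_pos_iff.2 h0).trans_le (h2.ge.trans (W.Dq_pow σ j)))⟩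

variable {W} {z : MorD e a b ℤ_[l]} {u : Γ →* GL ω ℤ_[l]}

theorem Int.w_eq (h : W.Int z u) (σ : Γ) : W.w σ = M5.rO u σ := by
  rw [W.w_eq]
  change W.z.pr _ W.s = (u σ : M8 ℤ_[l]).map (CM.toOm l)
  rw [h.eq, z.map_pr, h.z_eq]
  rfl

end Lw

/-- The blocks of a representation that commutes with `a` and `b`. -/
def fac {R : Type} [CommRing R] (z : Mor e a b R) (ρ : Γ →* Matrix ν ν R)
    (h : ∀ σ, Commute (zM R a) (ρ σ) ∧ Commute (zM R b) (ρ σ)) : Γ →* Fin e → M8 R where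
  toFun σ := z.pr (ρ σ)
  map_one' := by rw [map_one, z.pr_one]
  map_mul' σ σ' := z.em_inj (by
    rw [z.em_pr (h _).1 (h _).2, map_mul, map_mul, z.em_pr (h _).1 (h _).2, z.em_pr (h _).1 (h _).2])

variable {K : IntermediateField ℚ ℂ} {r : Rep K}

theorem comm_om (hc : COMM a b r) (l : ℕ) [Fact l.Prime] (σ : ℂ ≃ₐ[K] ℂ) :
    Commute (zM (CM.Om l) a) (rO (r l) σ) ∧ Commute (zM (CM.Om l) b) (rO (r l) σ) :=
  ⟨zM_map (CM.toOm l) a ▸ (hc l σ).1.map (CM.toOm l).mapMatrix,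
    zM_map (CM.toOm l) b ▸ (hc l σ).2.map (CM.toOm l).mapMatrix⟩

/-- The block `s` of the splitting `z`. -/
def lw (hc : COMM a b r) (z : MorD e a b (CM.Om l)) (s : Fin e) : Lw e a b (r l) :=
  ⟨z, fac z.toMor (rO (r l)) (comm_om hc l), s,
    fun σ => z.em_pr (comm_om hc l σ).1 (comm_om hc l σ).2⟩

theorem lw_int (hc : COMM a b r) (z : MorD e a b ℤ_[l]) (s : Fin e) :
    ∃ u, (lw hc (z.map (CM.toOm l)) s).Int z u :=
  ⟨((Pi.evalMonoidHom (fun _ => M8 ℤ_[l]) s).comp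
    (fac z.toMor ((Units.coeHom _).comp (r l)) (hc l))).toHomUnits, rfl, fun _ => rfl⟩

theorem Eqm_cg {N k : ℕ} {σ σ' : ℂ ≃ₐ[K] ℂ} (h : Eqm r N σ σ') (hk : l ^ k ∣ N) :
    Cg (r l) k σ σ' := fun i j =>
  (by exact_mod_cast Nat.cast_dvd_cast (α := ℤ_[l]) hk : (l : ℤ_[l]) ^ k ∣ N).trans (h l i j)

end MG.W
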