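import Pool.Agent.Lib.MP_33b3f9_ag.MG.W.ANear
import Pool.Agent.Lib.MP_33b3f9_ag.MG.Gs.B

/-!
The Lie algebra of a block; the three types.
-/

set_option autoImplicit false

noncomputable section

namespace MG.W

open Matrix Polynomial M4 M4.CM M5 Pool.Agent.M4.Mx Pool.Agent.Lib.MP_33b3f9_ag

variable [Dim] {Γ : Type} [Group Γ] {l : ℕ} [Fact l.Prime] {ρ : Γ →* GL ν ℤ_[l]} {U : Subgroup Γ}
  {e : ℕ} {a b : MZ}

theorem lie_gsp (hg : Gsp ρ) {X : Matrix ν ν (CM.Om l)} (hX : X ∈ lie ρ U) :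
    ∃ c : CM.Om l, Xᵀ * J (ι) (CM.Om l) + J (ι) (CM.Om l) * X = c • J (ι) (CM.Om l) := by
  induction hX using Submodule.span_induction with
  | mem x hx =>
    obtain ⟨Y, hY, rfl⟩ := hx
    obtain ⟨c, hc⟩ := alog_lim hg hY
    refine ⟨CM.toOm l c, ?_⟩
    rw [← map_J (ι) (CM.toOm l), ← transpose_map, ← Matrix.map_mul, ← Matrix.map_mul,
      ← Matrix.map_add _ (map_add _), hc, Matrix.map_smul' _ _ _ (map_mul _)]
  | zero => exact ⟨0, by simp⟩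
  | add x y _ _ hx hy =>
    obtain ⟨a, ha⟩ := hx
    obtain ⟨b, hb⟩ := hy
    exact ⟨a + b, by rw [add_smul, ← ha, ← hb, transpose_add, add_mul, mul_add]; abel⟩
  | smul a x _ hx =>
    obtain ⟨b, hb⟩ := hx
    exact ⟨a * b, by
      rw [mul_smul, ← hb, transpose_smul, smul_mul_assoc, mul_smul_comm, smul_add]⟩

theorem map_one_add (n : ℕ) (Z : Matrix ν ν ℤ_[l]) :
    (1 + (l : ℤ_[l]) ^ n • Z).map (CM.toOm l) = 1 + (l : CM.Om l) ^ n • Z.map (CM.toOm l) := by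
  rw [Matrix.map_add _ (map_add _), Matrix.map_one _ (map_zero _) (map_one _),
    Matrix.map_smul' _ _ _ (map_mul _), map_pow, map_natCast]

namespace Lw

variable (W : Lw e a b ρ)

theorem w_add {σ : Γ} {n : ℕ} {Z : Matrix ν ν ℤ_[l]}
    (h : (ρ σ : Matrix ν ν ℤ_[l]) = 1 + (l : ℤ_[l]) ^ n • Z) :
    W.w σ = 1 + (l : CM.Om l) ^ n • W.π (Z.map (CM.toOm l)) := by
  rw [W.w_eq, h, map_one_add, map_add, map_smul, W.π_one]

theorem em_lim {X : Matrix ν ν ℤ_[l]} (hX : X ∈ Lim ρ U) :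
    W.z.em (W.z.pr (X.map (CM.toOm l))) = X.map (CM.toOm l) := by
  ext i j
  by_contra h0
  have h1 : Continuous fun Z : Matrix ν ν ℤ_[l] =>
      W.z.em (W.z.pr (Z.map (CM.toOm l))) i j - Z.map (CM.toOm l) i j := by
    refine Continuous.sub ?_ ((continuous_id.matrix_map mxLim_cont').matrix_elem _ _)
    simp only [Mor.em_apply, Mor.bm_apply, Matrix.mul_apply, blockDiagonal_apply,
      kroneckerMap_apply]
    have h2 := fun s p q => (cont_pr W.z.toMor s).matrix_elem p q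
    refine continuous_finsetSum _ fun x _ => (continuous_finsetSum _ fun y _ =>
      continuous_const.mul ?_).mul continuous_const
    split_ifs
    · exact (h2 _ _ _).mul continuous_const
    · exact continuous_const
  obtain ⟨k, hk⟩ := MG.W.near h1 X (norm_pos_iff.2 (sub_ne_zero.2 h0))
  obtain ⟨n, hn⟩ := hX k
  obtain ⟨σ, -, Y, h⟩ := hn n le_rfl
  have h2 := W.eq σ
  rw [W.v_eq, alim_rO, h, map_one_add, map_add, map_smul, W.z.pr_one, map_add, map_one, map_smul,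
    add_right_inj,
    smul_right_inj (pow_ne_zero _ (Nat.cast_ne_zero.2 (Fact.out : l.Prime).ne_zero))] at h2
  have h3 := hk Y
  rw [h2, sub_self, zero_sub, norm_neg] at h3
  exact lt_irrefl _ h3

theorem em_lie {X : Matrix ν ν (CM.Om l)} (hX : X ∈ lie ρ U) : W.z.em (W.z.pr X) = X := by
  induction hX using Submodule.span_induction with
  | mem x hx =>
    obtain ⟨Y, hY, rfl⟩ := hx
    exact W.em_lim hY
  | zero => rw [map_zero, map_zero]
  | add x y _ _ hx hy => rw [map_add, map_add, hx, hy]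
  | smul c x _ hx => rw [map_smul, map_smul, hx]

theorem mem_G {X : Fin e → M8 (CM.Om l)} : X ∈ W.G U ↔ W.z.em X ∈ lie ρ U := Iff.rfl

theorem pr_mem {X : Matrix ν ν (CM.Om l)} (hX : X ∈ lie ρ U) : W.z.pr X ∈ W.G U := by
  rwa [mem_G, W.em_lie hX]

theorem mem_g {Y : M8 (CM.Om l)} : Y ∈ W.g U ↔ ∃ X ∈ W.G U, X W.s = Y :=
  ⟨fun ⟨_, h, e⟩ => ⟨_, W.pr_mem h, e⟩, fun ⟨X, h, e⟩ => ⟨_, h, (W.π_em X).trans e⟩⟩

theorem G_cl {X Y : Fin e → M8 (CM.Om l)} (hX : X ∈ W.G U) (hY : Y ∈ W.G U) :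
    X * Y - Y * X ∈ W.G U := by
  rw [mem_G, map_sub, map_mul, map_mul]
  exact lie_cl ρ U _ hX _ hY

theorem g_cl (U : Subgroup Γ) : Cl (W.g U) := fun X hX Y hY => by
  obtain ⟨X, hX', rfl⟩ := W.mem_g.1 hX
  obtain ⟨Y, hY', rfl⟩ := W.mem_g.1 hY
  exact W.mem_g.2 ⟨_, W.G_cl hX' hY', rfl⟩

theorem g_conj [U.Normal] (σ : Γ) {X : M8 (CM.Om l)} (hX : X ∈ W.g U) :
    W.w σ * X * W.w σ⁻¹ ∈ W.g U := by
  obtain ⟨X, hX', rfl⟩ := W.mem_g.1 hX
  refine W.mem_g.2 ⟨W.v σ * X * W.v σ⁻¹, ?_, rfl⟩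
  rw [mem_G, map_mul, map_mul, W.eq, W.eq]
  exact lie_conj σ hX'

theorem g_tng (U : Subgroup Γ) : W.g U ≤ tng (W.im U) := by
  rintro _ ⟨X, hX, rfl⟩
  exact _root_.M8.tng_lin W.π W.π_one (T := imU ρ U) (T' := W.im U) (by
    rintro _ ⟨σ, hσ, rfl⟩
    exact ⟨σ, hσ, W.w_eq σ⟩) (lie_tng ρ U hX)

theorem G_pw (hq : W.Sq) [U.FiniteIndex] :
    Submodule.span (CM.Om l) {A | ∃ X ∈ W.G U, ∃ n : ℕ, X ^ n = A} = ⊤ := by
  have := kerM_fin ρ 2
  rw [eq_top_iff, ← hq (U ⊓ kerM ρ 2) inferInstance, Submodule.span_le]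
  rintro _ ⟨σ, ⟨hU, hk⟩, rfl⟩
  obtain ⟨Z, hZ⟩ := mem_kerM.1 hk
  obtain ⟨X, hX, hZX⟩ := exists_log hU hZ
  have h1 : (ρ σ : Matrix ν ν ℤ_[l]) ∈ Algebra.adjoin ℤ_[l] {X} :=
    hZ ▸ add_mem (one_mem _) (Subalgebra.smul_mem _ hZX _)
  rw [Algebra.adjoin_singleton_eq_range_aeval] at h1
  obtain ⟨q, hq⟩ := h1
  have hq' : aeval X q = (ρ σ : Matrix ν ν ℤ_[l]) := hq
  rw [W.v_eq, ← hq', aeval_eq_sum_range, ← RingHom.mapMatrix_apply, map_sum, map_sum]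
  refine Submodule.sum_mem _ fun i _ => ?_
  rw [RingHom.mapMatrix_apply, Matrix.map_smul' _ _ _ (map_mul _), map_smul, Matrix.map_pow,
    ← W.em_lim hX, ← map_pow, W.z.pr_em]
  exact Submodule.smul_mem _ _ (Submodule.subset_span
    ⟨_, W.pr_mem (Submodule.subset_span ⟨X, hX, rfl⟩), i, rfl⟩)

theorem g_ir (hq : W.Sq) [U.FiniteIndex] : Ir (W.g U) := by
  intro V hV
  have h2 : ∀ A : Fin e → M8 (CM.Om l), ∀ v ∈ V, A W.s *ᵥ v ∈ V := fun A => by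
    have hA := (W.G_pw (U := U) hq).ge (Submodule.mem_top (x := A))
    induction hA using Submodule.span_induction with
    | mem x hx =>
      obtain ⟨X, hX, n, rfl⟩ := hx
      induction n with
      | zero => exact fun v hv => by simpa using hv
      | succ n ih =>
        intro v hv
        rw [pow_succ, Pi.mul_apply, ← mulVec_mulVec]
        exact ih _ (hV _ (W.mem_g.2 ⟨X, hX, rfl⟩) v hv)
    | zero => exact fun v _ => by simp
    | add x y _ _ hx hy =>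
      exact fun v hv => by
        rw [Pi.add_apply, add_mulVec]
        exact V.add_mem (hx v hv) (hy v hv)
    | smul c x _ hx =>
      exact fun v hv => by
        rw [Pi.smul_apply, smul_mulVec]
        exact V.smul_mem _ (hx v hv)
  refine or_iff_not_imp_left.2 fun h0 => ?_
  obtain ⟨v, hv, h3⟩ := (Submodule.ne_bot_iff V).1 h0
  obtain ⟨j, hj⟩ := Function.ne_iff.1 h3
  refine eq_top_iff.2 fun w _ => ?_
  have h4 := h2 (fun _ => vecMulVec w (Pi.single j (v j)⁻¹)) v hv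
  rwa [vecMulVec_mulVec, single_dotProduct, inv_mul_cancel₀ hj, MulOpposite.op_one, one_smul] at h4

theorem G_sp (hg : Gsp ρ) {X : Fin e → M8 (CM.Om l)} (hX : X ∈ W.G U) :
    ∃ c : CM.Om l, ∀ s, Sp (Matrix.J (Fin 4) (CM.Om l)) (X s - c • 1) := by
  obtain ⟨c, hc⟩ := lie_gsp hg hX
  refine ⟨2⁻¹ * c, (W.z.sp_iff (X - (2⁻¹ * c) • 1)).1 ?_⟩
  rw [Sp, map_sub, map_smul, map_one, transpose_sub, transpose_smul, transpose_one, sub_mul,
    mul_sub, sub_add_sub_comm]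
  refine sub_eq_zero.2 (hc.trans ?_)
  simp only [smul_mul_assoc, mul_smul_comm, one_mul, mul_one]
  module

theorem g_sp (hg : Gsp ρ) {X : M8 (CM.Om l)} (hX : X ∈ W.g U) :
    Sp (Matrix.J (Fin 4) (CM.Om l)) (tl X) := by
  obtain ⟨X, hX', rfl⟩ := W.mem_g.1 hX
  obtain ⟨c, hc⟩ := W.G_sp hg hX'
  have h1 := hc W.s
  rw [Sp, transpose_sub, transpose_smul, transpose_one, sub_mul, mul_sub,
    sub_add_sub_comm, sub_eq_zero] at h1
  refine _root_.M8.sp_tl (c := 2 * c) (h1.trans ?_)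
  simp only [smul_mul_assoc, mul_smul_comm, one_mul, mul_one]
  module

theorem g_irr (hg : Gsp ρ) (hq : W.Sq) [U.FiniteIndex] :
    Irr (Matrix.J (Fin 4) (CM.Om l)) ((W.g U).map tl) := by
  have e : ∀ X : M8 (CM.Om l), tl X = X - (8 : CM.Om l)⁻¹ • X.trace • 1 := fun _ => rfl
  refine ⟨by simp, J_transpose _ _, (isUnit_det_J _ _).ne_zero, ?_, ?_, fun V hV => ?_⟩
  · rintro _ ⟨X, hX, rfl⟩ _ ⟨Y, hY, rfl⟩
    refine ⟨br X Y, W.g_cl U X hX Y hY, ?_⟩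
    rw [e, e, e, br, br, trace_sub, trace_mul_comm, sub_self]
    simp only [sub_mul, mul_sub, smul_mul_assoc, mul_smul_comm, one_mul, mul_one]
    module
  · rintro _ ⟨X, hX, rfl⟩
    exact W.g_sp hg hX
  · refine W.g_ir (U := U) hq V fun X hX v hv => ?_
    have h1 := hV _ ⟨X, hX, rfl⟩ v hv
    rw [e, sub_mulVec, smul_mulVec, smul_mulVec, one_mulVec] at h1
    exact (V.sub_mem_iff_left (V.smul_mem _ (V.smul_mem _ hv))).1 h1

theorem g_type (hg : Gsp ρ) (hq : W.Sq) [U.FiniteIndex] :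
    Full (Matrix.J (Fin 4) (CM.Om l)) (W.g U) ∨ Sym7 ((W.g U).map tl) ∨ ∃ f, Cu f (W.g U) :=
  _root_.M8.type_of (W.g_cl U) (W.g_irr hg hq)

theorem all_full (hg : Gsp ρ) (hq : W.Sq) [U.FiniteIndex]
    (h : ∀ s, Full (Matrix.J (Fin 4) (CM.Om l)) ((W.at s).g U)) {Z : Fin e → M8 (CM.Om l)}
    (hZ : ∀ s, Sp (Matrix.J (Fin 4) (CM.Om l)) (Z s)) : Z ∈ W.G U :=
  Gs.all_full (J_transpose _ _) (isUnit_det_J _ _).ne_zero (fun _ hX _ hY => W.G_cl hX hY)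
    (fun _ => W.G_sp hg) (fun s _ hY => (W.at s).mem_g.1
      ((h s).sp (J_transpose _ _) (isUnit_det_J _ _).ne_zero hY)) (W.G_pw hq) hZ

variable {W} {z : MorD e a b ℤ_[l]} {u : Γ →* GL ω ℤ_[l]}

theorem Int.g_le (h : W.Int z u) (U : Subgroup Γ) : W.g U ≤ M5.lie u U := by
  refine Submodule.map_le_iff_le_comap.2 (Submodule.span_le.2 ?_)
  rintro _ ⟨Y, hY, rfl⟩
  refine Submodule.subset_span ⟨z.pr Y W.s, fun k => ?_, ?_⟩
  · obtain ⟨n₀, h0⟩ := hY k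
    refine ⟨n₀, fun n hn => ?_⟩
    obtain ⟨σ, hσ, Z, e⟩ := h0 n hn
    refine ⟨σ, hσ, z.pr Z W.s, ?_⟩
    rw [h.eq, e, map_add, z.pr_one, map_smul, map_add, map_smul]
    rfl
  · change _ = W.z.pr _ W.s
    rw [h.z_eq]
    exact z.map_pr _ _ _

end Lw

end MG.W
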