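import Pool.Agent.Lib.MP_33b3f9_ag.MG.W.Pure
import Pool.Agent.Lib.MP_33b3f9_ag.M4.CmVal

/-!
The roots of a Weil polynomial over a number field are not a geometric progression.
-/

set_option autoImplicit false

noncomputable section

namespace MG.W

open Matrix Polynomial NumberField M4 M4.CM M5

theorem nogp_loc {p : ℕ} [hp : Fact p.Prime] (h2 : p ≠ 2) {β u a₁ a₂ : CM.Om p}
    (e1 : β * ((1 + u) * (1 + u ^ 2) * (1 + u ^ 4)) = a₁)
    (e2 : β ^ 2 * ((1 + u ^ 2) * (1 + u ^ 4) * (1 + u ^ 8)) = a₂)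
    (eN : (β ^ 8 * u ^ 28) ^ 2 = (p : CM.Om p) ^ 8) (ha : ‖a₁‖ = 1)
    (hb : ‖a₁ ^ 2 - a₂‖ < 1 → ‖a₁ ^ 2 - a₂‖ ≤ (p : ℝ)⁻¹) (hu : ‖u‖ ≤ 1) : False := by
  have hp1 : (1 : ℝ) < p := by exact_mod_cast hp.out.one_lt
  have hq0 : (0 : ℝ) < (p : ℝ)⁻¹ := by positivity
  have hq1 : (p : ℝ)⁻¹ < 1 := inv_lt_one_of_one_lt₀ hp1
  have n1 := congrArg norm e1
  have nN := congrArg norm eN
  rw [ha] at n1
  simp only [norm_pow, norm_mul, norm_l] at n1 nN
  rcases hu.eq_or_lt with hu1 | hu1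
  · have b : ∀ k : ℕ, ‖1 + u ^ k‖ ≤ 1 := fun k =>
      cmnorm_add norm_one.le (by rw [norm_pow, hu1, one_pow])
    have b1 := b 1
    rw [pow_one] at b1
    have h3 : ‖1 + u‖ * ‖1 + u ^ 2‖ * ‖1 + u ^ 4‖ ≤ 1 :=
      mul_le_one₀ (mul_le_one₀ b1 (norm_nonneg _) (b 2)) (norm_nonneg _) (b 4)
    have h4 : 1 ≤ ‖β‖ := by
      rw [← n1]
      exact mul_le_of_le_one_right (norm_nonneg _) h3
    rw [hu1, one_pow, mul_one] at nN
    have h5 : 1 ≤ (‖β‖ ^ 8) ^ 2 := one_le_pow₀ (one_le_pow₀ h4)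
    exact absurd (nN ▸ h5) (not_le.2 (pow_lt_one₀ hq0.le hq1 (by norm_num)))
  · have b : ∀ k : ℕ, k ≠ 0 → ‖1 + u ^ k‖ = 1 := fun k hk =>
      bnogp_one (by rw [norm_pow]; exact pow_lt_one₀ (norm_nonneg _) hu1 hk)
    rw [bnogp_one hu1, b 2 (by norm_num), b 4 (by norm_num), mul_one, mul_one, mul_one] at n1
    have e3 : (a₁ ^ 2 - a₂) * (1 + -u) =
        2 * β ^ 2 * u * (1 + u ^ 2) * (1 + u ^ 4) * (1 + -u ^ 7) := by
      rw [← e1, ← e2]
      ring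
    have n3 := congrArg norm e3
    simp only [norm_mul, norm_pow] at n3
    rw [bnogp_one (by rwa [norm_neg]), bnogp_one (x := -u ^ 7) (by
      rw [norm_neg, norm_pow]; exact pow_lt_one₀ (norm_nonneg _) hu1 (by norm_num)),
      b 2 (by norm_num), b 4 (by norm_num), norm_two h2, n1] at n3
    simp only [mul_one, one_pow, one_mul] at n3
    have h6 : ‖u‖ ≤ (p : ℝ)⁻¹ := by
      rw [← n3]
      exact hb (n3 ▸ hu1)
    rw [n1, one_pow, one_mul, ← pow_mul] at nN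
    have h7 : ‖u‖ ^ (28 * 2) ≤ (p : ℝ)⁻¹ ^ (28 * 2) := pow_le_pow_left₀ (norm_nonneg _) h6 _
    rw [nN] at h7
    exact absurd h7 (not_le.2 (pow_lt_pow_right_of_lt_one₀ hq0 hq1 (by norm_num)))

theorem nogp_desc {E Ω α : Type} [Field E] [Field Ω] [IsAlgClosed Ω] [Fintype α] (P : E[X])
    (s : E →+* Qb) (j : E →+* Ω) (a : α → Ω) (h : P.map j = ∏ i, (X - C (a i))) :
    ∃ (J : Qb →+* Ω) (b : α → Qb), (∀ i, J (b i) = a i) ∧ P.map s = ∏ i, (X - C (b i)) := by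
  obtain ⟨φ, hφ⟩ := exists_j s j
  have h1 : P.map j = (P.map s).map φ := by
    rw [Polynomial.map_map, show φ.comp s = j from RingHom.ext hφ]
  have h2 : ∀ i, ∃ b, φ b = a i := fun i => by
    have h3 : a i ∈ (P.map j).roots := by
      rw [h, cmspec_roots]
      exact Multiset.mem_map_of_mem a (Finset.mem_univ i)
    rw [h1, (IsAlgClosed.splits _).roots_map] at h3
    obtain ⟨b, -, hb⟩ := Multiset.mem_map.1 h3
    exact ⟨b, hb⟩
  choose b hb using h2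
  refine ⟨φ, b, hb, Polynomial.map_injective φ φ.injective ?_⟩
  rw [← h1, h, Polynomial.map_prod]
  exact Finset.prod_congr rfl fun i _ => by rw [Polynomial.map_sub, map_X, map_C, hb]

theorem nogp_unit {E : Type} [Field E] [NumberField E] {p : ℕ} [hp : Fact p.Prime] (h65 : 65 ≤ p)
    (hv : ∀ (ι : E →+* CM.Om p) (x : E), ‖ι x‖ < 1 → ‖ι x‖ ≤ (p : ℝ)⁻¹) {a : E} (h0 : a ≠ 0)
    (hi : IsIntegral ℤ a) (hc : ∀ φ : E →+* ℂ, ‖φ a‖ ^ 2 ≤ 64 * p) :
    ∃ ι : E →+* CM.Om p, ‖ι a‖ = 1 := by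
  by_contra hn
  push Not at hn
  have h1 : ∀ ι : E →+* CM.Om p, ‖ι a‖ ≤ (p : ℝ)⁻¹ := fun ι =>
    hv ι a (lt_of_le_of_ne (le_of_integral (hi.map ι.toIntAlgHom)) (hn ι))
  obtain ⟨N, hN⟩ := IsIntegrallyClosed.isIntegral_iff.1 (Algebra.isIntegral_norm ℚ hi)
  rw [eq_intCast] at hN
  have hN0 : N ≠ 0 := fun e => Algebra.norm_ne_zero_iff.2 h0 (by rw [← hN, e, Int.cast_zero])
  have hd : 0 < Module.finrank ℚ E := Module.finrank_pos
  have h2 : (p : ℤ) ^ Module.finrank ℚ E ∣ N := by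
    rw [← Padic.norm_int_le_pow_iff_dvd, ← cmnorm_int, ← Rat.cast_intCast, hN, ← prod_emb,
      norm_prod, _root_.zpow_neg, _root_.zpow_natCast, ← inv_pow, ← Embeddings.card E (CM.Om p),
      ← Finset.card_univ, ← Finset.prod_const]
    exact Finset.prod_le_prod (fun _ _ => norm_nonneg _) fun ι _ => h1 ι
  have h3 : (N : ℝ) ^ 2 ≤ (64 * p) ^ Module.finrank ℚ E := by
    rw [← sq_abs, ← Complex.norm_intCast, ← Rat.cast_intCast, hN, ← prod_emb, norm_prod,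
      ← Finset.prod_pow, ← Embeddings.card E ℂ, ← Finset.card_univ, ← Finset.prod_const]
    exact Finset.prod_le_prod (fun _ _ => sq_nonneg _) fun φ _ => hc φ
  have h4 : ((p : ℤ) ^ Module.finrank ℚ E) ^ 2 ≤ N ^ 2 :=
    Int.le_of_dvd (sq_pos_of_ne_zero hN0) (pow_dvd_pow_of_dvd h2 2)
  have h5 : ((p : ℝ) ^ Module.finrank ℚ E) ^ 2 ≤ (N : ℝ) ^ 2 := by exact_mod_cast h4
  have h6 : (65 : ℝ) ≤ p := by exact_mod_cast h65
  have h7 := h5.trans h3
  rw [← pow_mul, mul_comm, pow_mul] at h7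
  exact absurd h7 (not_le.2 (pow_lt_pow_left₀ (by nlinarith) (by positivity) hd.ne'))

theorem no_gpE (E : Type) [Field E] [NumberField E] : ∃ p₀ : ℕ, ∀ p : ℕ, p.Prime → p₀ < p →
    ∀ P : E[X], (∀ i, IsIntegral ℤ (P.coeff i)) →
      (∀ (j : E →+* ℂ) (x : ℂ), P.eval₂ j x = 0 → ‖x‖ ^ 2 = p) → P.eval 0 ^ 2 = (p : E) ^ 8 →
      ∀ (Ω : Type) [Field Ω] [IsAlgClosed Ω] (j : E →+* Ω) (β u : Ω), u ^ 8 ≠ 1 →
        P.map j ≠ ∏ i : Fin 8, (X - C (β * u ^ (i : ℕ))) := by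
  obtain ⟨l₀, hl₀⟩ := val_unram E
  refine ⟨max 64 l₀, fun p hp hp0' P hi hw hN2 Ω _ _ j β u hu h => ?_⟩
  have : Fact p.Prime := ⟨hp⟩
  have h65 : 65 ≤ p := (le_max_left _ _).trans_lt hp0'
  have hp1 : (1 : ℝ) < p := by exact_mod_cast hp.one_lt
  have hval : ∀ (ι : E →+* CM.Om p) (x : E), ‖ι x‖ < 1 → ‖ι x‖ ≤ (p : ℝ)⁻¹ := fun ι x hx => by
    by_cases h0 : x = 0
    · rw [h0, map_zero, norm_zero]
      positivity
    · obtain ⟨n, hn⟩ := hl₀ p ((le_max_right _ _).trans_lt hp0') ι x h0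
      rw [hn] at hx ⊢
      rw [← _root_.zpow_neg_one]
      have := (zpow_lt_one_iff_right₀ hp1).1 hx
      exact zpow_le_zpow_right₀ hp1.le (by omega)
  let s : E →+* Qb := (IsAlgClosed.lift : E →ₐ[ℚ] Qb).toRingHom
  obtain ⟨J, b, hb, hP⟩ := nogp_desc P s j _ h
  have hr : ∀ i, (P.map s).eval (b i) = 0 := fun i => by
    rw [hP, eval_prod]
    exact Finset.prod_eq_zero (Finset.mem_univ i) (by simp)
  have hc : ∀ (φ : Qb →+* ℂ) i, ‖φ (b i)‖ ^ 2 = p := fun φ i => hw (φ.comp s) _ (by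
    rw [← hom_eval₂, ← eval_map, hr, map_zero])
  obtain ⟨φ₀, -⟩ := exists_j (algebraMap ℚ Qb) (algebraMap ℚ ℂ)
  have hp0 : (0 : ℝ) < p := by exact_mod_cast hp.pos
  have hb0 : ∀ i, b i ≠ 0 := fun i h0 => by
    have h1 := hc φ₀ i
    rw [h0, map_zero, norm_zero] at h1
    linarith
  have hβ : J (b 0) = β := by simpa using hb 0
  have hβ0 : β ≠ 0 := hβ ▸ (_root_.map_ne_zero J).2 (hb0 0)
  obtain ⟨v, hv⟩ : ∃ v, J v = u := ⟨b 1 / b 0, by
    rw [map_div₀, hβ, hb 1]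
    simp [hβ0]⟩
  have hbv : ∀ i : Fin 8, b i = b 0 * v ^ (i : ℕ) := fun i => J.injective (by
    rw [hb i, map_mul, map_pow, hβ, hv])
  have hv8 : v ^ 8 ≠ 1 := fun h1 => hu (by rw [← hv, ← map_pow, h1, map_one])
  have hm : P.Monic := monic_of_injective s.injective
    (hP ▸ monic_prod_of_monic _ _ fun i _ => monic_X_sub_C _)
  obtain ⟨a, ha⟩ := pow_sumsE P hm
  have hs : ∀ k, ∑ i, b i ^ k = s (a k) := fun k => by
    rw [← ha Qb s (diagonal fun i => b (finSumFinEquiv i)) (by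
      rw [charpoly_diagonal, hP]
      exact (finSumFinEquiv.prod_comp fun i : Fin (4 + 4) => X - C (b i)).symm) k, diagonal_pow,
      trace_diagonal]
    exact (finSumFinEquiv.sum_comp fun i : Fin (4 + 4) => b i ^ k).symm
  have hN : ∏ i, b i = s (P.eval 0) := by
    have h1 := congrArg (eval (s 0)) hP
    rw [eval_map_apply, eval_prod] at h1
    simp only [Fin.prod_univ_eight, eval_sub, eval_X, eval_C, map_zero] at h1 ⊢
    rw [h1]
    ring
  have ha0 : IsIntegral ℤ (a 1) := by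
    have h1 : P.nextCoeff = -a 1 := s.injective (by
      rw [← nextCoeff_map s.injective, hP, prod_X_sub_C_nextCoeff, map_neg, ← hs 1]
      simp only [pow_one])
    rw [← neg_neg (a 1), ← h1, nextCoeff]
    split_ifs
    · exact isIntegral_zero.neg
    · exact (hi _).neg
  have ha1 : ∀ φ : E →+* ℂ, ‖φ (a 1)‖ ^ 2 ≤ 64 * p := fun φ => by
    obtain ⟨φ', hφ⟩ := exists_j s φ
    have h1 := congrArg (fun x => ‖φ' x‖) (hs 1)
    simp only [map_sum, pow_one, hφ] at h1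
    have h2 : ‖φ (a 1)‖ ≤ 8 * Real.sqrt p := by
      rw [← h1]
      refine (norm_sum_le _ _).trans ?_
      rw [Finset.sum_congr rfl fun i _ => (Real.sqrt_sq (norm_nonneg (φ' (b i)))).symm.trans
        (congrArg Real.sqrt (hc φ' i))]
      simp
    have h3 := pow_le_pow_left₀ (norm_nonneg _) h2 2
    rw [mul_pow, Real.sq_sqrt hp0.le] at h3
    linarith
  have e1 : b 0 * ((1 + v) * (1 + v ^ 2) * (1 + v ^ 4)) = s (a 1) := by
    rw [← hs 1, Finset.sum_congr rfl fun i _ => congrArg (· ^ 1) (hbv i)]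
    simp only [Fin.sum_univ_eight, Fin.coe_ofNat_eq_mod]
    ring
  have e2 : b 0 ^ 2 * ((1 + v ^ 2) * (1 + v ^ 4) * (1 + v ^ 8)) = s (a 2) := by
    rw [← hs 2, Finset.sum_congr rfl fun i _ => congrArg (· ^ 2) (hbv i)]
    simp only [Fin.sum_univ_eight, Fin.coe_ofNat_eq_mod]
    ring
  have eN : (b 0 ^ 8 * v ^ 28) ^ 2 = (p : Qb) ^ 8 := by
    have h1 := congrArg s hN2
    rw [map_pow, map_pow, map_natCast] at h1
    rw [← h1, ← hN, Finset.prod_congr rfl fun i _ => hbv i]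
    simp only [Fin.prod_univ_eight, Fin.coe_ofNat_eq_mod]
    ring
  have h0 : a 1 ≠ 0 := fun h0 => by
    rw [h0, map_zero] at e1
    refine hv8 (sub_eq_zero.1 (mul_left_cancel₀ (hb0 0) ?_))
    linear_combination (v - 1) * e1
  obtain ⟨ι, hι⟩ := nogp_unit h65 hval h0 ha0 ha1
  obtain ⟨ψ, hψ⟩ := exists_j s ι
  have hd := hval ι (a 1 ^ 2 - a 2)
  rw [map_sub, map_pow] at hd
  have f1 := congrArg ψ e1
  have f2 := congrArg ψ e2
  have fN := congrArg ψ eN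
  simp only [map_mul, map_add, map_pow, map_one, hψ, map_natCast] at f1 f2 fN
  have h2 : p ≠ 2 := by omega
  rcases le_or_gt ‖ψ v‖ 1 with h1 | h1
  · exact nogp_loc h2 f1 f2 fN hι hd h1
  · have h0 : ψ v ≠ 0 := fun h0 => by
      rw [h0, norm_zero] at h1
      linarith
    refine nogp_loc (β := ψ (b 0) * ψ v ^ 7) (u := (ψ v)⁻¹) h2 ?_ ?_ ?_ hι hd ?_
    · rw [← f1]
      field_simp
      ring
    · rw [← f2]
      field_simp
      ring
    · rw [← fN]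
      field_simp
    · rw [norm_inv]
      exact inv_le_one_of_one_le₀ h1.le

end MG.W
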