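import Pool.Agent.Lib.MP_33b3f9_ag.MG.W.Weil
import Pool.Agent.Lib.MP_33b3f9_ag.MG.W.AReg
import Pool.Agent.Lib.MP_33b3f9_ag.MG.W.NoGp
import Pool.Agent.Lib.MP_33b3f9_ag.M8.W.BFrob

/-!
Regular Frobenius elements; the type does not depend on the prime and on the block.
-/

set_option autoImplicit false

noncomputable section

namespace MG.W

open Matrix Polynomial NumberField M4 M4.CM M5 Pool.Agent.M4.Mx Pool.Agent.Lib.MP_33b3f9_ag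
open Pool.Agent.M4.Det

variable [Dim] {a b : MZ} {m n N₀ : ℕ} {τ : Mat} {K : IntermediateField ℚ ℂ} {r : Rep K} {d : ℕ}
  {D : PD d a b m n}

/-- Equality modulo `N` as a congruence. -/
def eqCon (r : Rep K) (N : ℕ) : Con (ℂ ≃ₐ[K] ℂ) where
  r := Eqm r N
  iseqv := ⟨fun _ _ _ _ _ => by simp, fun h l _ i j => dvd_sub_comm.1 (h l i j),
    fun h h' l _ i j => by simpa using dvd_add (h l i j) (h' l i j)⟩
  mul' := fun {a b c d} h h' l _ i j => by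
    simp only [map_mul, Units.val_mul, Matrix.mul_apply, ← Finset.sum_sub_distrib]
    refine Finset.dvd_sum fun k _ => ?_
    have := dvd_add ((h l i k).mul_right ((r l c : Matrix ν ν ℤ_[l]) k j))
      ((h' l k j).mul_left ((r l b : Matrix ν ν ℤ_[l]) i k))
    rwa [sub_mul, mul_sub, sub_add_sub_cancel] at this

theorem Eqm_mono {N M : ℕ} {σ σ' : ℂ ≃ₐ[K] ℂ} (h : Eqm r M σ σ') (hN : N ∣ M) : Eqm r N σ σ' :=
  fun l _ a b => (Nat.cast_dvd_cast hN).trans (h l a b)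

theorem frob_gen [FiniteDimensional ℚ K] (hred : REDst τ D r N₀) (ho : Opn r) (σ₀ : ℂ ≃ₐ[K] ℂ) {N : ℕ}
    (hN : N ≠ 0) (p₁ : ℕ) :
    NT.Dvg {p | p₁ < p ∧ ∃ (_ : Fact p.Prime) (e : ℂ ≃+* PadicAlgCl p) (σ : ℂ ≃ₐ[K] ℂ) (j : ℕ),
      IsPlace K e ∧ Frob τ D r N₀ e σ ∧ Eqm r N σ₀ (σ ^ j)} := by
  obtain ⟨p₀, hp₀⟩ := hred
  obtain ⟨K₁, hK₁, h1⟩ := ho N hN
  refine ((NT.frobC K K₁ (eqCon r N).mk' (fun σ hσ => (Con.eq _).2 (h1 σ hσ)) σ₀).ge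
    (p₀ + p₁ + N + 1)).mono ?_
  rintro p ⟨⟨_, e, he, -, σ', h2, h3⟩, hp⟩
  have h4 : IsPlace K e := fun x hx => (he x hx).imp fun _ => Eq.symm
  obtain ⟨σ, hσ⟩ := hp₀ p (by omega) e h4
  obtain ⟨j, hj⟩ := hσ.unram σ' h2 N (Nat.not_dvd_of_pos_of_lt (Nat.pos_of_ne_zero hN) (by omega))
  obtain ⟨R, hR⟩ := exists_cong r (σ ^ j) hN
  refine ⟨by omega, ‹_›, e, σ, j, h4, hσ, (eqCon r N).trans ((Con.eq _).1 h3.symm)
    fun l _ a b => ?_⟩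
  simpa using dvd_sub (hj R hR l a b) (hR l a b)

theorem dq_int {p : ℕ} {σ : ℂ ≃ₐ[K] ℂ} {P : D.E[X]} (h : Wei D r p σ P) (k : ℕ) {l l' : ℕ}
    [Fact l.Prime] [Fact l'.Prime] (hl : l ≠ p) (hl' : l' ≠ p) (W : Lw d a b (r l))
    (W' : Lw d a b (r l')) (h0 : Dq (W.w σ ^ k) ≠ 0) : Dq (W'.w σ ^ k) ≠ 0 := by
  obtain ⟨c, hc⟩ := pow_sumsE P h.base.monic
  have key : ∀ (l : ℕ) [Fact l.Prime], l ≠ p → ∀ W : Lw d a b (r l), Dq (W.w σ ^ k) ≠ 0 ↔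
      (Matrix.of fun i j : Fin 8 => c (k * (2 * ((i : ℕ) + (j : ℕ))))).det ≠ 0 := fun l _ hl W => by
    obtain ⟨φ, hφ⟩ := W.exj D 0
    rw [← _root_.map_ne_zero φ, RingHom.map_det, Dq]
    refine (congrArg (fun A : Matrix (Fin 8) (Fin 8) (CM.Om l) => A.det ≠ 0) ?_).to_iff
    ext i j
    rw [RingHom.mapMatrix_apply, Matrix.map_apply, Matrix.of_apply, Matrix.of_apply, ← pow_mul,
      hc _ φ _ (h.char l hl W φ 0 hφ)]
  exact (key l' hl' W').2 ((key l hl W).1 h0)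

theorem frob_near (H : Hyp τ D r N₀) {l : ℕ} [Fact l.Prime] (W : Lw d a b (r l))
    {σ₀ : ℂ ≃ₐ[K] ℂ} (h0 : Dq (W.w σ₀) ≠ 0) {N : ℕ} (hN : N ≠ 0) (p₁ : ℕ) :
    ∃ (p : ℕ) (_ : Fact p.Prime) (e : ℂ ≃+* PadicAlgCl p) (σ : ℂ ≃ₐ[K] ℂ) (j : ℕ) (P : D.E[X]),
      p₁ < p ∧ l < p ∧ Frob τ D r N₀ e σ ∧ Wei D r p σ P ∧ Eqm r N σ₀ (σ ^ j) ∧
        Dq (W.w σ ^ j) ≠ 0 := by
  have := H.fin
  have hl : l.Prime := Fact.out
  obtain ⟨k, hn⟩ := W.near_Dq h0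
  obtain ⟨p, ⟨hp, _, e, σ, j, -, h1, h2⟩, -⟩ := (frob_gen H.red H.opn σ₀
    (mul_ne_zero hN (pow_ne_zero k hl.ne_zero)) (p₁ + l)).exists_ge 0
  obtain ⟨h3, h5⟩ := hn σ j (Eqm_cg h2 (dvd_mul_left _ _))
  obtain ⟨P, h4⟩ := weil_of_Dq h1 (l := l) (by omega) W h5
  exact ⟨p, ‹_›, e, σ, j, P, by omega, by omega, h1, h4, Eqm_mono h2 (dvd_mul_right _ _), h3⟩

theorem frob_reg (H : Hyp τ D r N₀) {l : ℕ} [Fact l.Prime] (W : Lw d a b (r l))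
    {σ₀ : ℂ ≃ₐ[K] ℂ} (hn : Neat (rO (r l) σ₀)) (h0 : Dq (W.w σ₀) ≠ 0) {N : ℕ} (hN : N ≠ 0)
    (p₁ : ℕ) :
    ∃ (p : ℕ) (_ : Fact p.Prime) (e : ℂ ≃+* PadicAlgCl p) (σ : ℂ ≃ₐ[K] ℂ) (j : ℕ) (P : D.E[X]),
      p₁ < p ∧ Frob τ D r N₀ e σ ∧ Wei D r p σ P ∧ Eqm r N σ₀ (σ ^ j) ∧
        ∀ (l' : ℕ) [Fact l'.Prime], l' ≠ p → ∀ W' : Lw d a b (r l'), M5.Reg (W'.w σ) := by
  have hl : l.Prime := Fact.out
  obtain ⟨p, _, e, σ, j, P, h1, h2, h3, h4, h5, h6⟩ := frob_near H W h0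
    (mul_ne_zero hN (pow_ne_zero 2 hl.ne_zero)) p₁
  have h7 : Le (rO (r l) σ₀ - rO (r l) (σ ^ j)) ((l : ℝ) ^ (-2 : ℤ)) := fun x y => by
    obtain ⟨c, hc⟩ := h5 l x y
    rw [alim_rO, alim_rO, Matrix.sub_apply, Matrix.map_apply, Matrix.map_apply, ← map_sub, hc,
      map_mul, map_natCast, norm_mul, norm_toOm, _root_.zpow_neg, zpow_ofNat, ← inv_pow]
    exact (mul_le_of_le_one_right (norm_nonneg _) c.norm_le_one).trans (bfrob_norm N 2)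
  have h8 : Neat (W.z.em (W.v (σ ^ j))) := by
    have h9 := Le.sub hn h7
    rwa [sub_sub_sub_cancel_left, ← W.eq] at h9
  refine ⟨p, ‹_›, e, σ, j, P, h1, h3, h4, Eqm_mono h5 (dvd_mul_right _ _),
    fun l' _ hl' W' k hk => ?_⟩
  have h9 : Dq (W.w (σ ^ j) ^ k) ≠ 0 :=
    reg' W.z.toMor h8 W.s (map_pow W.w σ j ▸ h6 : Dq (W.w (σ ^ j)) ≠ 0) k hk
  rw [map_pow, ← pow_mul, mul_comm, pow_mul, ← map_pow] at h9
  have h10 := (norm_pos_iff.2 h9).trans_le (W.Dq_pow _ j)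
  rw [map_pow, norm_pos_iff] at h10
  exact dq_int h4 k h2.ne hl' W W' h10

theorem mult_w {p : ℕ} [Fact p.Prime] {e : ℂ ≃+* PadicAlgCl p} {σ : ℂ ≃ₐ[K] ℂ}
    (hF : Frob τ D r N₀ e σ) {l : ℕ} [Fact l.Prime] (W : Lw d a b (r l)) (hl : l ≠ p) :
    (W.w σ)ᵀ * J (Fin 4) (CM.Om l) * W.w σ = (p : CM.Om l) • J (Fin 4) (CM.Om l) := by
  have h2 := congrArg (fun A => A.map (algebraMap ℚ_[l] (CM.Om l))) (hF.mult l hl)
  simp only [Matrix.map_mul, Matrix.map_J, Matrix.transpose_map] at h2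
  rw [Matrix.map_smul' _ _ _ (map_mul _), map_natCast, Matrix.map_J] at h2
  exact W.sim h2

variable {l₀ : ℕ} [Fact l₀.Prime] {W₀ : Lw d a b (r l₀)} {f₀ : Fr ω (CM.Om l₀)} {l : ℕ}
  [Fact l.Prime]

theorem ph_zero (H : Hyp τ D r N₀) (B : Base W₀ f₀) (W : Lw d a b (r l)) {σ₀ : ℂ ≃ₐ[K] ℂ}
    (h0 : Dq (W.w σ₀) ≠ 0) : Ph (W.w σ₀) = 0 := by
  have hl : l.Prime := Fact.out
  by_contra h
  obtain ⟨k, hn⟩ := W.near _root_.M8.cont_Ph σ₀ (norm_pos_iff.2 h)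
  obtain ⟨p, hp, e, σ, j, P, hp1, hp2, hF, hW, hE, hD⟩ :=
    frob_near H W h0 (pow_ne_zero k hl.ne_zero) l₀
  obtain ⟨c, hc⟩ := pow_sumsE P hW.base.monic
  obtain ⟨z, hz⟩ : ∃ z : D.E, ∀ (l' : ℕ) [Fact l'.Prime], l' ≠ p → ∀ W' : Lw d a b (r l'),
      Ph (W'.w σ ^ j) = 0 ↔ z = 0 :=
    ⟨2 * (c j ^ 3 + 2 * c (j * 3) - 6 * p ^ j * c j) ^ 2 -
      (c j ^ 3 + 3 * c j * c (j * 2) - 4 * c (j * 3)) ^ 2 - 18 * c j ^ 2 * c (j * 4),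
      fun l' _ h W' => by
        obtain ⟨φ, hφ⟩ := W'.exj D 0
        have h1 := hc _ φ _ (hW.char l' h W' φ 0 hφ)
        rw [Ph, bpha_mu (_root_.M8.sim_pow (mult_w hF W' h) j), ← pow_mul, ← pow_mul, ← pow_mul,
          h1, h1, h1, h1, ← _root_.map_eq_zero φ]
        simp only [map_sub, map_mul, map_add, map_pow, map_ofNat, map_natCast]⟩
  have h2 := dq_int hW j hp2.ne hp1.ne W W₀ hD
  have h3 := _root_.M8.sim_pow (mult_w hF W₀ hp1.ne) j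
  have h4 := hz l₀ hp1.ne W₀
  obtain ⟨x, hx⟩ := B.inC (σ ^ j)
  rw [← map_pow, hx] at h2 h3 h4
  rw [ph_cube f₀ x ((cube_det f₀ x (pow_ne_zero _ (Nat.cast_ne_zero.2 hp.out.ne_zero)) h3
    ((Dq_ne_iff _).1 h2)).trans (bpha_mu h3).symm)] at h4
  have h5 := hn _ (Eqm_cg hE dvd_rfl)
  rw [map_pow, (hz l hp2.ne W).2 (h4.1 rfl), zero_sub, norm_neg] at h5
  exact lt_irrefl _ h5

theorem not_full (H : Hyp τ D r N₀) (B : Base W₀ f₀) (W : Lw d a b (r l))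
    (U : Subgroup (ℂ ≃ₐ[K] ℂ)) : ¬ Full (Matrix.J (Fin 4) (CM.Om l)) (W.g U) := by
  intro h
  obtain ⟨P, hP⟩ := bph_eval (Ω := CM.Om l)
  let φ : ℚ →+* CM.Om l := Rat.castHom _
  have hJ : (Matrix.J (Fin 4) ℚ).map φ = Matrix.J (Fin 4) (CM.Om l) := Matrix.map_J _ φ
  have hg : ((diagonal bphV).map φ)ᵀ * Matrix.J (Fin 4) (CM.Om l) * (diagonal bphV).map φ =
      Matrix.J (Fin 4) (CM.Om l) := by
    rw [← hJ, ← transpose_map, ← Matrix.map_mul, ← Matrix.map_mul, bph_sp]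
  have h1 := full_mcl (W.im U) (fun u => W.g_tng U (h u)) hg P (by
    rintro _ ⟨σ, -, rfl⟩
    rw [hP]
    by_cases h0 : Dq (W.w σ) = 0
    · exact mul_eq_zero_of_left h0 _
    · exact mul_eq_zero_of_right _ (ph_zero H B W h0))
  rw [hP, Ph_map] at h1
  refine mul_ne_zero ?_ ((_root_.map_ne_zero φ).2 bph_ph) h1
  rw [Dq_ne_iff, diagonal_map (map_zero φ), charpoly_diagonal, sp2_iff]
  intro i j hij
  refine bph_inj (φ.injective ?_)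
  simpa only [map_pow] using hij

theorem not_sym7 (H : Hyp τ D r N₀) (W : Lw d a b (r l)) (U : Subgroup (ℂ ≃ₐ[K] ℂ)) [U.Normal] :
    ¬ Sym7 ((W.g U).map tl) := by
  intro hs
  obtain ⟨p₀, hp₀⟩ := no_gpE D.E
  obtain ⟨σ₀, -, h1, h2⟩ := W.exists_reg hs.2.2
  obtain ⟨p, _, e, σ, j, P, h3, hF, hW, -, h4⟩ := frob_reg H W h1
    (pow_one (W.w σ₀) ▸ h2 1 one_ne_zero) one_ne_zero (max p₀ l)
  rw [max_lt_iff] at h3
  have h5 : W.w σ * W.w σ⁻¹ = 1 := by rw [← map_mul, mul_inv_cancel, map_one]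
  obtain ⟨β, u, h6, h7⟩ := gp h5 hs (by
    rintro _ ⟨x, hx, rfl⟩
    exact ⟨_, W.g_conj σ hx, tl_conj h5 x⟩) (h4 l h3.2.ne W)
  obtain ⟨φ, hφ⟩ := W.exj D 0
  have h8 := hW.char l h3.2.ne W φ 0 hφ
  refine hp₀ p Fact.out h3.1 P hW.base.int hW.base.weil (φ.injective ?_) _ φ β u h6
    (h8.symm.trans h7)
  have h9 := congrArg det (mult_w hF W h3.2.ne)
  rw [det_mul, det_mul, det_transpose, det_smul] at h9
  have h10 : φ (P.eval 0) = (W.w σ).det := by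
    rw [← eval₂_at_apply, map_zero, ← eval_map, ← h8, eval_charpoly, map_zero, zero_sub, det_neg]
    simp only [Fintype.card_sum, Fintype.card_fin]
    ring
  refine mul_right_cancel₀ (isUnit_det_J (Fin 4) (CM.Om l)).ne_zero ?_
  rw [map_pow, map_pow, map_natCast, h10]
  simp only [Fintype.card_sum, Fintype.card_fin] at h9
  linear_combination h9

theorem Lw.pm_all {Γ : Type} [Group Γ] {l : ℕ} [Fact l.Prime] {ρ : Γ →* GL ν ℤ_[l]}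
    (W : Lw d a b ρ) {U : Subgroup Γ} [U.Normal] {f : Fr ω (CM.Om l)} (h : Cu f (W.g U)) :
    ∃ χ : Γ →* Equiv.Perm (Fin 3), (∀ σ, Pm f (W.w σ) (χ σ)) ∧ ∃ n, kerM ρ n ≤ χ.ker := by
  obtain ⟨χ, hχ⟩ := exists_char (f := f) W.w fun σ =>
    exists_pm (W.w.toHomUnits σ) fun X hX => h.2 (W.g_conj σ (h.1 hX))
  obtain ⟨n, hn⟩ := pm_near f
  obtain ⟨m, hm⟩ := W.kerM_le n
  exact ⟨χ, hχ, m, fun σ hσ => hn _ _ (hm σ hσ) (hχ σ)⟩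

theorem cube_type (H : Hyp τ D r N₀) (B : Base W₀ f₀) (W : Lw d a b (r l))
    (U : Subgroup (ℂ ≃ₐ[K] ℂ)) [U.Normal] [U.FiniteIndex] : ∃ f, Cu f (W.g U) :=
  ((W.g_type (H.gsp l) (H.sq l W)).resolve_left (not_full H B W U)).resolve_left (not_sym7 H W U)

theorem dens (H : Hyp τ D r N₀) (B : Base W₀ f₀) (U : Subgroup (ℂ ≃ₐ[K] ℂ)) [U.Normal]
    [U.FiniteIndex] (σ₀ : ℂ ≃ₐ[K] ℂ) : ∃ u ∈ U, Dq (W₀.w (σ₀ * u)) ≠ 0 := by
  obtain ⟨f, hf⟩ := cube_type H B W₀ U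
  have h1 : f.sl ≤ tng (W₀.im U) := hf.1.trans (W₀.g_tng U)
  obtain ⟨π, c, hc⟩ := cmp f₀ f fun Y hY => f₀.tng_m (fun t ht => by
    obtain ⟨σ, -, rfl⟩ := ht
    obtain ⟨x, hx⟩ := B.inC σ
    rw [hx, f₀.QTP]
    exact rk_tp x) (h1 hY)
  have h2 : ∀ s (y : M2 (CM.Om l₀)), y.trace = 0 → f₀.u s y ∈ tng (W₀.im U) := fun s y hy => by
    obtain ⟨i, rfl⟩ := π.surjective s
    have e : cj (c i) (cj (c i)⁻¹ y) = y := by simp [cj, Matrix.mul_assoc]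
    have e' : (cj (c i)⁻¹ y).trace = 0 := by
      rw [cj, trace_mul_cycle, Units.inv_mul, Matrix.one_mul, hy]
    rw [← e, ← hc]
    rw [trace_fin_two] at e'
    exact h1 (MxSl_tr f i _ (eq_neg_of_add_eq_zero_right e'))
  obtain ⟨a₀, ha₀⟩ := B.inC σ₀
  have hd := W₀.det_ne σ₀
  obtain ⟨z, y, hy, e⟩ := f₀.T_split a₀ (ha₀ ▸ hd)
  rw [← ha₀] at e
  obtain ⟨x, hx, hq⟩ := bconn_gen f₀ (c := z) fun h => hd (by rw [e, h, zero_smul, det_zero])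
  have h3 := f₀.sl_mcl _ (fun s => ⟨h2 s _ (by simp [bas]), h2 s _ (by simp [bas])⟩)
    ((fun s => (y s).adjugate) * x) fun s => by
      rw [Pi.mul_apply, det_mul, det_adjugate, hy, hx, one_pow, mul_one]
  obtain ⟨Q, hQ⟩ := zarA_two (W₀.w σ₀) 1 (Dq (Matrix.of fun i j => MvPolynomial.X (i, j)))
  have h4 : ∀ x, evalM x Q = Dq (W₀.w σ₀ * x) := fun x => by
    rw [hQ, Matrix.mul_one]
    refine (Dq_map (MvPolynomial.aeval (R := CM.Om l₀)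
      fun p : ω × ω => (W₀.w σ₀ * x) p.1 p.2).toRingHom _).symm.trans ?_
    congr 1
    ext i j
    simp
  by_contra hn
  push Not at hn
  have h5 := h3 Q fun t ⟨u, hu, ht⟩ => by
    rw [h4, ← hn u hu, map_mul, ht]
  have h6 : y * ((fun s => (y s).adjugate) * x) = x := funext fun s => by
    rw [Pi.mul_apply, Pi.mul_apply, ← Matrix.mul_assoc, mul_adjugate, hy, one_smul, Matrix.one_mul]
  rw [h4, e, Matrix.smul_mul, f₀.T_mul, h6] at h5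
  exact hq h5

theorem conn (H : Hyp τ D r N₀) (B : Base W₀ f₀) (W : Lw d a b (r l)) :
    ∃ f, Cu f (W.g ⊤) ∧ ∀ σ, ∃ x, W.w σ = f.T x := by
  obtain ⟨f, hf⟩ := cube_type H B W ⊤
  obtain ⟨χ, hχ, n, hn⟩ := W.pm_all hf
  refine ⟨f, hf, fun σ₀ => Pm.inC (g := W.w σ₀) ((?_ : χ σ₀ = 1) ▸ hχ σ₀)⟩
  obtain ⟨u, hu, h0⟩ := dens H B χ.ker σ₀
  obtain ⟨p, _, -, σ, j, -, hp, -, -, he, hr⟩ :=
    frob_reg H W₀ (B.neat _) h0 (pow_ne_zero n (Fact.out : l.Prime).ne_zero) l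
  have h1 : χ (σ₀ * u) = χ (σ ^ j) := χ.eq_iff.2 (hn ((MonoidHom.eq_iff _).1 (Units.ext
    (Matrix.ext fun x y => by
      change PadicInt.toZModPow n _ = PadicInt.toZModPow n _
      rw [← RingHom.sub_mem_ker_iff, PadicInt.ker_toZModPow, Ideal.mem_span_singleton]
      exact_mod_cast he l x y))))
  by_cases h2 : χ σ = 1
  · rwa [map_mul, hu, mul_one, map_pow, h2, one_pow] at h1
  · exact absurd (Pm.dq (W.det_ne σ) (hχ σ) h2) (hr l hp.ne W 6 (by norm_num))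

end MG.W
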