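import Pool.Agent.Lib.MP_33b3f9_ag.MG.IDefs
import Pool.Agent.Lib.MP_33b3f9_ag.MG.MorE
import Pool.Agent.Lib.MP_33b3f9_ag.MG.MorP
import Pool.Agent.Lib.MP_33b3f9_ag.MG.Sv.Frob

/-!
The results of other blocks that are used.
-/
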