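import Pool.Agent.Lib.MP_33b3f9_ag.MG.W.PatG

/-!
Elements with prescribed traces on the classes of slots.
-/

set_option autoImplicit false

noncomputable section

namespace MG.W

open Matrix M5 Pool.Agent.M4 Pool.Agent.M4.Mx
open scoped MatrixGroups

theorem path_rec {R : Type} [CommRing R] (u : M2 R) (j : ℕ) :
    (u ^ (j + 2)).trace = u.trace * (u ^ (j + 1)).trace - u.det * (u ^ j).trace := by
  rw [pow_succ, pow_succ]
  generalize u ^ j = w
  simp only [trace_fin_two, det_fin_two, Matrix.mul_apply, Fin.sum_univ_two]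
  ring

theorem path_pow {R : Type} [Field R] {u w : M2 R} (hu : u.det = 1) (hw : w.det = 1)
    (h : u.trace ^ 2 = w.trace ^ 2) (j : ℕ) : (u ^ j).trace ^ 2 = (w ^ j).trace ^ 2 := by
  have key : ∀ w : M2 R, w.det = 1 → u.trace = w.trace → (u ^ j).trace = (w ^ j).trace :=
    fun w hw h => by
      induction j using Nat.twoStepInduction with
      | zero => rfl
      | one => simpa using h
      | more j a b => rw [path_rec, path_rec, a, b, h, hu, hw]
  rcases sq_eq_sq_iff_eq_or_eq_neg.1 h with h | h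
  · rw [key w hw h]
  · rw [key (-w) (by rw [det_neg, hw]; simp) (by rw [trace_neg, h])]
    rcases Nat.even_or_odd j with e | e
    · rw [e.neg_pow]
    · rw [e.neg_pow, trace_neg, neg_sq]

theorem path_chi {l : ℕ} [Fact l.Prime] {s t : ZMod l} (hs : s ≠ 0) (ht : t ≠ 0)
    (h : (s ^ 2 - 2) ^ 2 = (t ^ 2 - 2) ^ 2) :
    quadraticChar (ZMod l) (s ^ 2 - 4) = quadraticChar (ZMod l) (t ^ 2 - 4) := by
  have h1 : s ^ 2 * (s ^ 2 - 4) = t ^ 2 * (t ^ 2 - 4) := by linear_combination h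
  simpa only [map_mul, quadraticChar_sq_one' hs, quadraticChar_sq_one' ht, one_mul] using
    congrArg (quadraticChar (ZMod l)) h1

theorem pat_pow {l : ℕ} [Fact l.Prime] {h u : M2 (ZMod l)} {j : ℕ} {s : ZMod l} (hs : s ≠ 0)
    (e : h ^ j = s • u) (h1 : u.trace ≠ 0) (h2 : chi u ≠ 0) : h.trace ≠ 0 ∧ chi h = chi u := by
  obtain ⟨α, β, h3, h4⟩ : ∃ α β : ZMod l, h ^ j = α • h + β • 1 ∧ (h.trace = 0 → α * β = 0) := by
    clear e
    induction j with
    | zero => exact ⟨0, 1, by simp, by simp⟩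
    | succ j ih =>
      obtain ⟨α, β, h3, h4⟩ := ih
      refine ⟨α * h.trace + β, -α * h.det, ?_, fun h0 => ?_⟩
      · rw [pow_succ, h3]
        ext i k
        fin_cases i <;> fin_cases k <;>
          simp [Matrix.mul_apply, Fin.sum_univ_two, trace_fin_two, det_fin_two] <;> ring
      · rw [h0]
        linear_combination -h.det * h4 h0
  rw [e] at h3
  have h5 := congrArg Matrix.trace h3
  have h6 := congrArg Matrix.det h3
  simp only [trace_fin_two, det_fin_two, Matrix.add_apply, Matrix.smul_apply, smul_eq_mul,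
    one_apply_eq, mul_one, one_apply_ne zero_ne_one, one_apply_ne one_ne_zero, mul_zero,
    add_zero] at h5 h6
  have h7 : s ^ 2 * (u.trace ^ 2 - 4 * u.det) = α ^ 2 * (h.trace ^ 2 - 4 * h.det) := by
    simp only [trace_fin_two, det_fin_two]
    linear_combination (s * u 0 0 + s * u 1 1 + (α * h 0 0 + β + (α * h 1 1 + β))) * h5 - 4 * h6
  have h8 := congrArg (quadraticChar (ZMod l)) h7
  rw [map_mul, map_mul, quadraticChar_sq_one' hs, one_mul] at h8
  have h9 : α ≠ 0 := fun h0 => h2 (by rw [chi, h8, h0]; simp)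
  rw [quadraticChar_sq_one' h9, one_mul] at h8
  refine ⟨fun h0 => mul_ne_zero hs h1 ?_, h8.symm⟩
  rw [(mul_eq_zero.1 (h4 h0)).resolve_left h9] at h5
  rw [trace_fin_two] at h0 ⊢
  linear_combination h5 + α * h0

theorem pat_sq {R : Type} [Field R] {h : M2 R} (h0 : h.det ≠ 0) :
    ∃ w : Rˣ × SL(2, R), h ^ 2 = w.1 • w.2.1 ∧ w.2.1 = h.det⁻¹ • h ^ 2 :=
  ⟨(Units.mk0 _ h0, ⟨h.det⁻¹ • h ^ 2, by
    rw [det_smul, det_pow, Fintype.card_fin, ← mul_pow, inv_mul_cancel₀ h0, one_pow]⟩),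
    (smul_inv_smul₀ h0 _).symm, rfl⟩

theorem pat_cnt {T A B : Type} [Fintype T] [DecidableEq A] [DecidableEq B] (t₀ : T) {f : T → A}
    {g : T → B} {S : T → T → Prop} (h1 : ∀ t t', f t = f t' → S t t')
    (h2 : ∀ t t', S t t' → g t = g t')
    (h3 : (Finset.univ.image f).card ≤ (Finset.univ.image g).card) :
    (Finset.univ.image f).card = (Finset.univ.image g).card ∧ ∀ t t', S t t' → f t = f t' := by
  have : Nonempty B := ⟨g t₀⟩
  obtain ⟨u, rfl⟩ := (Function.factorsThrough_iff (f := f) g).1 fun t t' h => h2 _ _ (h1 _ _ h)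
  rw [← Finset.image_image] at h3 ⊢
  have h4 := le_antisymm Finset.card_image_le h3
  exact ⟨h4.symm, fun t t' h => Finset.card_image_iff.1 h4 (by simp) (by simp) (h2 _ _ h)⟩

theorem pat_sgn {l : ℕ} [Fact l.Prime] (h4 : l % 4 = 1) (Δ : ℤ) :
    quadraticChar (ZMod l) (-|Δ| : ℤ) = quadraticChar (ZMod l) Δ := by
  obtain ⟨y, hy⟩ := ZMod.exists_sq_eq_neg_one_iff.2 (by omega : l % 4 ≠ 3)
  rcases abs_choice Δ with h | h <;> rw [h]
  · rw [Int.cast_neg, neg_eq_neg_one_mul, hy, map_mul, ← pow_two, quadraticChar_sq_one' fun h0 => by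
      simp [h0] at hy, one_mul]
  · rw [neg_neg]

/-- The squared traces agree. -/
def Sm {G : Type} [Group G] {l : ℕ} (u w : G →* SL(2, ZMod l)) : Prop :=
  ∀ z, (u z).1.trace ^ 2 = (w z).1.trace ^ 2

open Classical in
theorem patg {G I Q : Type} [Group G] [Finite I] [Fintype Q]
    (l : I → ℕ) [∀ i, Fact (l i).Prime] (inj : Function.Injective l) (h4 : ∀ i, l i % 4 = 1)
    (h5 : ∀ i, 8 * Fintype.card Q + 5 < l i) (u : ∀ i, Q → G →* SL(2, ZMod (l i)))
    (sq : ∀ i q y, ∃ x, u i q x = y ^ 2)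
    (U : Subgroup G) [U.Normal] {m : ℕ} (hm : ∀ x, x ^ m ∈ U) (hl : ∀ i, ¬ l i ∣ m) (g₀ : G)
    (i₀ : I) (q₀ : Q) : ∃ x, g₀⁻¹ * x ∈ U ∧ ∀ i, (∀ q, (u i q x).1.trace ≠ 0) ∧
      (∀ q q', ((u i q x).1 ^ 2).trace ^ 2 = ((u i q' x).1 ^ 2).trace ^ 2 →
        Sm (u i q) (u i q')) ∧
      ∀ q, chi (u i q x).1 = if i = i₀ ∧ Sm (u i q) (u i q₀) then -1 else 1 := by
  have := Fintype.ofFinite I
  have h2 : ∀ i, l i % 2 = 1 := fun i => by have := h4 i; omega
  have hs : ∀ i, IsSimpleGroup PSL(2, ZMod (l i)) := fun i =>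
    ProjectiveSpecialLinearGroup.rank_two_simple (by rw [Nat.card_zmod]; have := h5 i; omega)
  let φ : ∀ p : I × Q, G →* PSL(2, ZMod (l p.1)) := fun p => (cls _).comp (u p.1 p.2)
  have hc : ∀ i, Function.Surjective (cls (l i)) := fun i => QuotientGroup.mk'_surjective _
  have h6 : ∀ p, Function.Surjective (φ p) := fun p => by
    have h7 : ∀ y, y ^ 2 ∈ (φ p).range := fun y => by
      obtain ⟨y, rfl⟩ := hc _ y
      exact (sq p.1 p.2 y).imp fun x hx => by rw [← map_pow, ← hx]; rfl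
    have h8 : (φ p).range.Normal := ⟨fun a ha g => by
      rw [show g * a * g⁻¹ = g ^ 2 * (g⁻¹ * a) ^ 2 * a⁻¹ by simp [pow_two, mul_assoc]]
      exact mul_mem (mul_mem (h7 _) (h7 _)) (inv_mem ha)⟩
    refine MonoidHom.range_eq_top.1 (h8.eq_bot_or_eq_top.resolve_left fun e => ?_)
    obtain ⟨y, -, hy⟩ := patg_ex (h2 p.1)
    exact hy (by rw [zpow_zero, zpow_two, ← pow_two]; exact e.le (h7 _))
  have h7 : ∀ p, ∃ x, φ p x ^ (l p.1 : ℤ) = φ p x ^ (0 : ℤ) ∧
      φ p x ^ (2 : ℤ) ≠ φ p x ^ (0 : ℤ) := fun p => by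
    obtain ⟨y, hy⟩ := patg_ex (h2 p.1)
    obtain ⟨x, hx⟩ := h6 p (cls _ y)
    exact ⟨x, hx ▸ hy⟩
  have h8 : ∀ {S : Type} [Group S] (y : S) (i : I), y ^ (l i : ℤ) = y ^ (0 : ℤ) →
      y ^ (2 : ℤ) ≠ y ^ (0 : ℤ) → orderOf y = l i := fun y i e e' =>
    orderOf_eq_prime (by rwa [zpow_zero, zpow_natCast] at e) (by rintro rfl; simp at e')
  have h9 : ∀ p p', (φ p).ker = (φ p').ker → l p.1 ≤ l p'.1 + 1 := fun p p' e => by
    obtain ⟨x, a1, a2⟩ := h7 p
    rw [patg_tr e] at a1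
    rw [Ne, patg_tr e] at a2
    have a3 := zpow_eq_zpow_iff_modEq.1 (patg_pow (h2 p'.1) (u p'.1 p'.2 x))
    have a4 := h5 p'.1
    have a5 : orderOf (cls _ (u p'.1 p'.2 x)) = l p.1 := h8 _ _ a1 a2
    have a6 := a3.symm.dvd
    rw [a5, chi] at a6
    rcases quadraticChar_isQuadratic (ZMod (l p'.1)) ((u p'.1 p'.2 x).1.trace ^ 2 -
      4 * (u p'.1 p'.2 x).1.det) with a7 | a7 | a7 <;> rw [a7] at a6 <;>
      have := Int.le_of_dvd (by omega) a6 <;> omega
  have h10 : ∀ p p', (φ p).ker = (φ p').ker → p.1 = p'.1 := fun p p' e => inj (by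
    have := h9 p p' e
    have := h9 p' p e.symm
    have := h2 p.1
    have := h2 p'.1
    omega)
  choose t₀ b1 b2 using fun i => patg_ns (h4 i)
  choose τ b3 b4 using fun i => patg_many (l := l i) (Q := Q) (by have := h5 i; omega)
  have b5 : ∀ i q q', (φ (i, q)).ker = (φ (i, q')).ker → Sm (u i q) (u i q') :=
    fun i q q' e => patc (h2 i) (h6 (i, q)) e
  have b6 : ∀ i (M : Subgroup G), ∃ q, ∀ q', (φ (i, q')).ker = M → (φ (i, q)).ker = M :=
    fun i M => by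
      by_cases h : ∃ q, (φ (i, q)).ker = M
      · exact h.imp fun q hq _ _ => hq
      · exact ⟨q₀, fun q hq => absurd ⟨q, hq⟩ h⟩
  choose ρ b7 using b6
  have key : ∀ M : Subgroup G, ∃ x, ∀ i q, (φ (i, q)).ker = M → (u i q x).1.trace ^ 2 =
      (if M = (φ (i₀, q₀)).ker then t₀ i else τ i (ρ i M)) ^ 2 := fun M => by
    by_cases h : ∃ i q, (φ (i, q)).ker = M
    · obtain ⟨i, q, e⟩ := h
      obtain ⟨x, hx⟩ := h6 (i, q) (cls _ (mt (if M = (φ (i₀, q₀)).ker then t₀ i else τ i (ρ i M))))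
      refine ⟨x, fun i' q' e' => ?_⟩
      obtain rfl : i' = i := h10 (i', q') (i, q) (e'.trans e.symm)
      rw [b5 _ _ _ (e'.trans e.symm), patg_sq hx, patg_mt]
    · exact ⟨1, fun i q e => absurd ⟨i, q, e⟩ h⟩
  choose g hg using key
  obtain ⟨x, h11, h12⟩ := patg_crt (fun p : I × Q => SL2Simple.PSL_commutator_eq_top
    ⟨2, patg_two (h2 p.1), fun e => by
      have a1 := Nat.le_of_dvd three_pos ((ZMod.natCast_eq_zero_iff 3 (l p.1)).1 (by
        push_cast; linear_combination e))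
      have := h5 p.1
      omega⟩) φ h6 U (fun p => by
    refine (Subgroup.Normal.map inferInstance _ (h6 p)).eq_bot_or_eq_top.resolve_left fun e => ?_
    obtain ⟨x, a1, a2⟩ := h7 p
    refine hl p.1 (h8 _ _ a1 a2 ▸ orderOf_dvd_of_pow_eq_one ?_)
    rw [← map_pow]
    exact (Subgroup.map_eq_bot_iff _).1 e (hm x)) g g₀ Finset.univ
  have h13 : ∀ i q, ∃ t, t ≠ 0 ∧ (u i q x).1.trace ^ 2 = t ^ 2 ∧
      chi (u i q x).1 = quadraticChar _ (t ^ 2 - 4) ∧ ((u i q x).1 ^ 2).trace = t ^ 2 - 2 ∧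
      t = if (φ (i, q)).ker = (φ (i₀, q₀)).ker then t₀ i else τ i (ρ i (φ (i, q)).ker) :=
    fun i q => by
      have a1 := (patg_sq (h12 (i, q) (Finset.mem_univ _))).trans (hg _ i q rfl)
      refine ⟨_, ?_, a1, by rw [chi, a1, (u i q x).2, mul_one], ?_, rfl⟩
      · split_ifs
        exacts [b1 _, (b3 _ _).1]
      · rw [← a1, path_rec, (u i q x).2]
        simp [pow_two]
  choose t c1 c2 c3 c4 c5 using h13
  have c6 : ∀ i q, quadraticChar _ (t i q ^ 2 - 4) =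
      if (φ (i, q)).ker = (φ (i₀, q₀)).ker then -1 else 1 := fun i q => by
    rw [c5]
    split_ifs
    exacts [b2 _, (b3 _ _).2]
  refine ⟨x, h11, fun i => ⟨fun q e => c1 i q (by simpa [e] using (c2 i q).symm),
    fun q q' e => b5 _ _ _ ?_, fun q => ?_⟩⟩
  · rw [c4, c4] at e
    have a1 := path_chi (c1 _ _) (c1 _ _) e
    rw [c6, c6] at a1
    rw [c5, c5] at e
    by_cases a2 : (φ (i, q)).ker = (φ (i₀, q₀)).ker <;>
      by_cases a3 : (φ (i, q')).ker = (φ (i₀, q₀)).ker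
    · exact a2.trans a3.symm
    · simp [a2, a3] at a1
    · simp [a2, a3] at a1
    · rw [if_neg a2, if_neg a3] at e
      rw [← b7 i _ q rfl, b4 i e, b7 i _ q' rfl]
  · rw [c3, c6]
    refine if_congr ⟨fun e => ?_, fun ⟨e, e'⟩ => ?_⟩ rfl rfl
    · obtain rfl : i = i₀ := h10 (i, q) (i₀, q₀) e
      exact ⟨rfl, b5 _ _ _ e⟩
    · subst e
      have a1 := c6 i q
      rw [← c2, e' x, c2, c6, if_pos rfl] at a1
      by_contra a2
      simp [a2] at a1

end MG.W
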