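import Pool.Agent.Lib.MP_33b3f9_ag.MG.W.Red
import Pool.Agent.Lib.MP_33b3f9_ag.MG.W.PatH

/-!
Many patterns of discriminants.
-/

set_option autoImplicit false

noncomputable section

namespace MG.W

open Matrix Polynomial NumberField M4 M4.CM M5 Pool.Agent.M4.Mx Pool.Agent.M4.Det
open scoped MatrixGroups

theorem pat_yz {l : ℕ} [Fact l.Prime] (p : ℕ) {h : M2 ℤ_[l]} {k : M2 (ZMod l)}
    (e : h.map PadicInt.toZMod = k) (h0 : k.det ≠ 0) :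
    PadicInt.toZMod (yz p h) = p ^ 2 * ((k.det⁻¹ • k ^ 2).trace ^ 2 - 4) ∧
    quadraticChar _ (PadicInt.toZMod (yz p h)) =
      quadraticChar _ ((p * k.trace * k.det⁻¹) ^ 2) * chi k := by
  have h1 : PadicInt.toZMod h.det = k.det := e ▸ RingHom.map_det _ _
  have h2 : PadicInt.toZMod h.trace = k.trace := e ▸ AddMonoidHom.map_trace _ _
  obtain ⟨u, hu⟩ : IsUnit h.det := not_not.1 fun h3 => h0 (h1 ▸ RingHom.mem_ker.1
    (PadicInt.ker_toZMod (p := l) ▸ (IsLocalRing.mem_maximalIdeal _).2 h3))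
  have h3 : PadicInt.toZMod (yz p h) =
      (p * k.trace * k.det⁻¹) ^ 2 * (k.trace ^ 2 - 4 * k.det) := by
    rw [yz, map_mul, map_pow, ← hu, Ring.inverse_unit, map_units_inv, hu]
    simp only [map_mul, map_pow, map_sub, map_natCast, map_ofNat, h1, h2]
    ring
  refine ⟨?_, by rw [h3, map_mul, chi]⟩
  rw [h3, trace_smul, path_rec, smul_eq_mul, zero_add, pow_one, pow_zero, trace_one,
    Fintype.card_fin]
  push_cast
  field_simp
  ring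

variable [Dim] {e : ℕ} {a b : MZ} {m n N₀ : ℕ} {τ : Mat} {K : IntermediateField ℚ ℂ} {r : Rep K}
  {D : PD e a b m n} {L : Type} [Field L] {l₁ : ℕ} {F : Frs e a b L l₁}

/-- Equality modulo `N` as a congruence. -/
def patCon (r : Rep K) (N : ℕ) : Con (ℂ ≃ₐ[K] ℂ) where
  r := Eqm r N
  iseqv := ⟨fun _ _ _ _ _ => by simp, fun h l _ i j => dvd_sub_comm.1 (h l i j),
    fun h h' l _ i j => by simpa using dvd_add (h l i j) (h' l i j)⟩
  mul' := fun {a b c d} h h' l _ i j => by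
    simp only [map_mul, Units.val_mul, Matrix.mul_apply, ← Finset.sum_sub_distrib]
    refine Finset.dvd_sum fun k _ => ?_
    have := dvd_add ((h l i k).mul_right ((r l c : Matrix ν ν ℤ_[l]) k j))
      ((h' l k j).mul_left ((r l b : Matrix ν ν ℤ_[l]) i k))
    rwa [sub_mul, mul_sub, sub_add_sub_cancel] at this

theorem pat_gen (H : Hyp τ D r N₀) (σ₀ : ℂ ≃ₐ[K] ℂ) {N : ℕ} (hN : N ≠ 0) (p₁ : ℕ) :
    Sv.Win {p | p₁ < p ∧ ∃ (_ : Fact p.Prime) (v : ℂ ≃+* PadicAlgCl p) (σ : ℂ ≃ₐ[K] ℂ) (j : ℕ),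
      IsPlace K v ∧ Frob τ D r N₀ v σ ∧ Eqm r N σ₀ (σ ^ j)} := by
  have := H.fin
  obtain ⟨p₀, hp₀⟩ := H.red
  obtain ⟨K₁, hK₁, h1⟩ := H.opn N hN
  refine (Sv.frobW K K₁ (patCon r N).mk' (fun σ hσ => (Con.eq _).2 (h1 σ hσ)) σ₀).mono
    (p₀ + p₁ + N + 1) ?_
  rintro p ⟨_, e, he, -, σ', h2, h3⟩ hp
  have h4 : IsPlace K e := fun x hx => (he x hx).imp fun _ => Eq.symm
  obtain ⟨σ, hσ⟩ := hp₀ p (by omega) e h4
  obtain ⟨j, hj⟩ := hσ.unram σ' h2 N (Nat.not_dvd_of_pos_of_lt (Nat.pos_of_ne_zero hN) (by omega))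
  obtain ⟨R, hR⟩ := exists_cong r (σ ^ j) hN
  refine ⟨by omega, ‹_›, e, σ, j, h4, hσ, (patCon r N).trans ((Con.eq _).1 h3.symm)
    fun l _ a b => ?_⟩
  simpa using dvd_sub (hj R hR l a b) (hR l a b)

/-- Pure tensors of matrices of determinant one, up to scalars. -/
def tsl {R : Type} [CommRing R] (f : Fm e a b R) :
    (Fin e × Fin 3 → Rˣ × SL(2, R)) →* Matrix ν ν R where
  toFun x := f.T fun s i => (x (s, i)).1 • (x (s, i)).2.1
  map_one' := f.T2_one ▸ congrArg f.T2 (funext fun s => funext fun c => funext fun i => by simp)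
  map_mul' x y := by
    rw [Fm.T_eq, Fm.T_eq, Fm.T_eq, f.T2_mul]
    exact congrArg f.T2 (funext fun s => funext fun c => funext fun i => by
      simp [smul_mul_smul_comm])

section elt

variable {I : Type} (q : I → GP L l₁)

/-- The automorphisms with their slots. -/
def slG (F : Frs e a b L l₁) (r : Rep K) :
    Subgroup ((ℂ ≃ₐ[K] ℂ) × ∀ i, Fin e × Fin 3 → (ZMod (q i).1)ˣ × SL(2, ZMod (q i).1)) :=
  MonoidHom.eqLocus (MonoidHom.pi fun i => (rbm r (q i).1).comp (MonoidHom.fst _ _))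
    (MonoidHom.pi fun i => ((tsl (F.red (q i))).comp (Pi.evalMonoidHom _ i)).comp
      (MonoidHom.snd _ _))

theorem mem_slG {x : (ℂ ≃ₐ[K] ℂ) × ∀ i, Fin e × Fin 3 → (ZMod (q i).1)ˣ × SL(2, ZMod (q i).1)} :
    x ∈ slG q F r ↔ ∀ i, rbm r (q i).1 x.1 = tsl (F.red (q i)) (x.2 i) := funext_iff

/-- The slots. -/
def slU (F : Frs e a b L l₁) (r : Rep K) (i : I) (t : Fin e × Fin 3) :
    slG q F r →* SL(2, ZMod (q i).1) where
  toFun x := (x.1.2 i t).2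
  map_one' := rfl
  map_mul' _ _ := rfl

theorem pat_lift (hS : Sys F r) {σ : ℂ ≃ₐ[K] ℂ} {h : ∀ i, Fin e → Fin 3 → M2 ℤ_[(q i).1]}
    (e1 : ∀ i, (r (q i).1 σ : Matrix ν ν ℤ_[(q i).1]) = (F (q i)).T (h i)) : ∃ x : slG q F r,
      x.1.1 = σ ^ 2 ∧ ∀ i t, (slU q F r i t x).1 = ((h i t.1 t.2).map PadicInt.toZMod).det⁻¹ •
        (h i t.1 t.2).map PadicInt.toZMod ^ 2 := by
  choose w h1 h2 using fun i (t : Fin e × Fin 3) => pat_sq (pat_det hS (e1 i) t.1 t.2)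
  exact ⟨⟨(σ ^ 2, w), (mem_slG q).2 fun i => (pat_red (e1 i) 2).trans (congrArg (F.red (q i)).T
    (funext fun s => funext fun t => h1 i (s, t)))⟩, rfl, h2⟩

open Classical in
theorem pat_elt [Finite I] (hS : Sys F r) (inj : Function.Injective fun i => (q i).1)
    (U : Subgroup (ℂ ≃ₐ[K] ℂ)) [U.Normal] [U.FiniteIndex]
    (h2 : ∀ i, U.index + 24 * e + 5 < (q i).1) (σ₀ : ℂ ≃ₐ[K] ℂ) (i₀ : I) (t₀ : Fin e × Fin 3) :
    ∃ x : slG q F r, (σ₀ ^ 2)⁻¹ * x.1.1 ∈ U ∧ ∀ i, (∀ t, (slU q F r i t x).1.trace ≠ 0) ∧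
      (∀ t t', ((slU q F r i t x).1 ^ 2).trace ^ 2 = ((slU q F r i t' x).1 ^ 2).trace ^ 2 →
        Sm (slU q F r i t) (slU q F r i t')) ∧ ∀ t, chi (slU q F r i t x).1 =
        if i = i₀ ∧ Sm (slU q F r i t) (slU q F r i t₀) then -1 else 1 := by
  choose hh e1 using fun σ i => hS.im (q i) σ
  obtain ⟨g₀, h3, -⟩ := pat_lift q hS (e1 σ₀)
  obtain ⟨x, h5, h6⟩ := patg (Q := Fin e × Fin 3) (fun i => (q i).1) inj
    (fun i => by have : _ = _ := hS.l32 (q i); omega) (fun i => by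
      have := h2 i
      rw [Fintype.card_prod, Fintype.card_fin, Fintype.card_fin]
      omega) (slU q F r)
    (fun i t y => by
      obtain ⟨σ, h, e2, c, e3⟩ := hS.big (q i) t y.1 y.2
      obtain ⟨x, -, e4⟩ := pat_lift q hS (σ := σ) (h := Function.update (hh σ) i h) fun j => by
        by_cases hj : j = i
        · rwa [hj, Function.update_self]
        · rw [Function.update_of_ne hj, e1]
      have e5 := pat_det hS e2 t.1 t.2
      refine ⟨x, Subtype.ext ?_⟩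
      rw [e3, det_smul, y.2, mul_one, Fintype.card_fin] at e5
      rw [e4, Function.update_self, e3, det_smul, y.2, mul_one, Fintype.card_fin, _root_.smul_pow,
        inv_smul_smul₀ e5, Matrix.SpecialLinearGroup.coe_pow])
    (U.comap ((MonoidHom.fst _ _).comp (slG q F r).subtype)) (m := U.index)
    (fun x => by rw [Subgroup.mem_comap, map_pow]; exact Subgroup.pow_index_mem _ _)
    (fun i => Nat.not_dvd_of_pos_of_lt (Nat.pos_of_ne_zero Subgroup.FiniteIndex.index_ne_zero)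
      (by have := h2 i; omega)) g₀ i₀ t₀
  exact ⟨x, h3 ▸ h5, h6⟩

open Classical in
theorem pat_chi (hS : Sys F r) {p p₀ k k₀ j : ℕ} {σ σ₀ : ℂ ≃ₐ[K] ℂ} {Δ : ℤ} {x : slG q F r} {i : I}
    {c : Prop} {t₀ : Fin e × Fin 3} (hR : Rd F r p σ k Δ) (hp : p.Prime) (hl : (q i).1 ≠ p)
    (hk : k ≤ k₀) (h0 : ∀ h, (r (q i).1 σ₀ : Matrix ν ν ℤ_[(q i).1]) = (F (q i)).T h →
      (Finset.univ.image fun t : Fin e × Fin 3 => yz p₀ (h t.1 t.2)).card = k₀ ∧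
      ∀ t t' : Fin e × Fin 3, PadicInt.toZMod (yz p₀ (h t.1 t.2)) =
        PadicInt.toZMod (yz p₀ (h t'.1 t'.2)) → yz p₀ (h t.1 t.2) = yz p₀ (h t'.1 t'.2))
    (e1 : rbm r (q i).1 (σ ^ j) = rbm r (q i).1 x.1.1) (h1 : ∀ t, (slU q F r i t x).1.trace ≠ 0)
    (h2 : ∀ t t', ((slU q F r i t x).1 ^ 2).trace ^ 2 = ((slU q F r i t' x).1 ^ 2).trace ^ 2 →
      Sm (slU q F r i t) (slU q F r i t')) (h3 : ∀ t, chi (slU q F r i t x).1 =
      if c ∧ Sm (slU q F r i t) (slU q F r i t₀) then -1 else 1) :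
    k = k₀ ∧ quadraticChar (ZMod (q i).1) Δ = if c then -1 else 1 := by
  obtain ⟨h, e2⟩ := hS.im (q i) σ
  choose g e3 using fun i => hS.im (q i) σ₀
  obtain ⟨z, -, e4⟩ := pat_lift q hS e3
  obtain ⟨_, a0⟩ := hR.ex
  obtain ⟨rfl, a1, -⟩ := a0 _ hl h e2
  obtain ⟨rfl, a2⟩ := h0 _ (e3 i)
  rw [pat_red e2, (mem_slG q).1 x.2] at e1
  have a3 : ∀ t : Fin e × Fin 3, ∃ s : ZMod (q i).1, s ≠ 0 ∧
      (h t.1 t.2).map PadicInt.toZMod ^ j = s • (slU q F r i t x).1 := fun t => by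
    obtain ⟨c, h4, h5⟩ := T_unique _ (congrFun ((F.red (q i)).z.em_inj e1) t.1).symm (fun k h0 => by
      have h6 := (x.1.2 i (t.1, k)).2.2
      rw [(smul_eq_zero_iff_eq _).1 h0, det_zero] at h6
      exact zero_ne_one h6) t.2
    exact ⟨_, mul_ne_zero h4 (x.1.2 i t).1.ne_zero, h5.trans (smul_smul _ _ _)⟩
  have a4 : (p : ZMod (q i).1) ≠ 0 := fun h0 =>
    hl ((Nat.prime_dvd_prime_iff_eq (q i).2.1 hp).1 ((ZMod.natCast_eq_zero_iff _ _).1 h0))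
  have a5 := fun t : Fin e × Fin 3 => pat_det hS e2 t.1 t.2
  have a6 : ∀ t : Fin e × Fin 3, (((h t.1 t.2).map PadicInt.toZMod).det⁻¹ •
      (h t.1 t.2).map PadicInt.toZMod ^ 2) ^ j = (slU q F r i t x).1 ^ 2 := fun t => by
    obtain ⟨s, b1, b2⟩ := a3 t
    have b3 := congrArg det b2
    rw [det_pow, det_smul, (slU q F r i t x).2, mul_one, Fintype.card_fin] at b3
    rw [_root_.smul_pow, ← pow_mul, mul_comm, pow_mul, b2, inv_pow, b3, _root_.smul_pow,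
      inv_smul_smul₀ (pow_ne_zero _ b1)]
  have a7 : ∀ t t' : Fin e × Fin 3, yz p (h t.1 t.2) = yz p (h t'.1 t'.2) →
      Sm (slU q F r i t) (slU q F r i t') := fun t t' b1 => h2 _ _ (by
    have b2 := fun t : Fin e × Fin 3 => (pat_sq (a5 t)).elim fun w hw => hw.2 ▸ w.2.2
    have b3 := congrArg PadicInt.toZMod b1
    rw [(pat_yz p rfl (a5 t)).1, (pat_yz p rfl (a5 t')).1] at b3
    rw [← a6, ← a6]
    exact path_pow (b2 t) (b2 t') (sub_left_injective (mul_left_cancel₀ (pow_ne_zero _ a4) b3)) j)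
  obtain ⟨a8, a9⟩ := pat_cnt t₀ a7 (fun t t' b1 => a2 t t' (by
    rw [(pat_yz p₀ rfl (pat_det hS (e3 i) _ _)).1, (pat_yz p₀ rfl (pat_det hS (e3 i) _ _)).1, ← e4,
      ← e4, b1 z])) hk
  have a10 := congrArg (fun y => quadraticChar (ZMod (q i).1) (PadicInt.toZMod y)) a1
  simp only [map_intCast, map_prod] at a10
  refine ⟨a8, a10.trans ((Finset.prod_congr rfl (g := fun y =>
    if c ∧ y = yz p (h t₀.1 t₀.2) then -1 else 1) fun y hy => ?_).trans ?_)⟩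
  · obtain ⟨t, -, rfl⟩ := Finset.mem_image.1 hy
    obtain ⟨s, b1, b2⟩ := a3 t
    obtain ⟨b3, b4⟩ := pat_pow b1 b2 (h1 t) (by rw [h3]; split_ifs <;> simp)
    rw [(pat_yz p rfl (a5 t)).2, quadraticChar_sq_one' (mul_ne_zero (mul_ne_zero a4 b3)
      (inv_ne_zero (a5 t))), one_mul, b4, h3]
    exact if_congr (and_congr_right fun _ => ⟨a9 _ _, a7 _ _⟩) rfl rfl
  · by_cases b1 : c <;> simp [b1]

end elt

theorem pat_dq (hc : COMM a b r) {l : ℕ} [Fact l.Prime] (z : MorD e a b ℤ_[l]) (s : Fin e)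
    (σ : ℂ ≃ₐ[K] ℂ) : Dq ((lw hc (z.map (CM.toOm l)) s).w σ) =
      CM.toOm l (Dq (z.pr (r l σ : Matrix ν ν ℤ_[l]) s)) := by
  obtain ⟨u, hu⟩ := lw_int hc z s
  rw [hu.w_eq, ← show _ = z.pr _ s from hu.eq σ, Dq, Dq, RingHom.map_det]
  refine congrArg det (Matrix.ext fun i j => ?_)
  rw [RingHom.mapMatrix_apply, map_apply, of_apply, of_apply, AddMonoidHom.map_trace,
    Matrix.map_pow]
  rfl

open Classical in
theorem pat_ty (hS : Sys F r) {p k : ℕ} {σ : ℂ ≃ₐ[K] ℂ} {Δ : ℤ}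
    (hR : Rd F r p σ k Δ) (l : GP L l₁) (hl : l.1 ≠ p) (h1 : jacobiSym (-|Δ|) l.1 = -(-1) ^ k)
    (h : Fin e → Fin 3 → M2 ℤ_[l.1]) (e1 : (r l.1 σ : Matrix ν ν ℤ_[l.1]) = (F l).T h) :
    ∃ s i, IsSquare
      (((h s i).map PadicInt.toZMod).trace ^ 2 - 4 * ((h s i).map PadicInt.toZMod).det) := by
  by_contra! h2
  obtain ⟨_, a0⟩ := hR.ex
  obtain ⟨rfl, a1, -⟩ := a0 _ hl h e1
  have a2 := congrArg (fun y => quadraticChar (ZMod l.1) (PadicInt.toZMod y)) a1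
  simp only [map_intCast, map_prod] at a2
  rw [← jacobiSym.legendreSym.to_jacobiSym, legendreSym,
    pat_sgn (by have : _ = _ := hS.l32 l; omega), a2] at h1
  have a3 := Finset.prod_ne_zero_iff.1 (h1 ▸ neg_ne_zero.2 (pow_ne_zero _ (by simp)))
  rw [Finset.prod_congr rfl (g := fun _ => -1) fun y hy => ?_, Finset.prod_const] at h1
  · exact pow_ne_zero _ (by simp) (CharZero.eq_neg_self_iff.1 h1)
  have a4 := a3 y hy
  obtain ⟨t, -, rfl⟩ := Finset.mem_image.1 hy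
  rw [(pat_yz p rfl (pat_det hS e1 _ _)).2] at a4 ⊢
  rw [quadraticChar_sq_one' fun h0 => a4 (by simp [h0]), one_mul]
  exact quadraticChar_neg_one_iff_not_isSquare.2 (h2 _ _)

open Classical in
theorem pat_max [NumberField L] (hS : Sys F r) : ∃ (k₀ p₀ B : ℕ) (σ₀ : ℂ ≃ₐ[K] ℂ), ∀ p σ k Δ,
    Rd F r p σ k Δ → k ≤ k₀ ∧ ∀ l : GP L l₁, B < l.1 → ∀ h,
      (r l.1 σ₀ : Matrix ν ν ℤ_[l.1]) = (F l).T h →
      (Finset.univ.image fun t : Fin e × Fin 3 => yz p₀ (h t.1 t.2)).card = k₀ ∧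
      ∀ t t' : Fin e × Fin 3, PadicInt.toZMod (yz p₀ (h t.1 t.2)) =
        PadicInt.toZMod (yz p₀ (h t'.1 t'.2)) → yz p₀ (h t.1 t.2) = yz p₀ (h t'.1 t'.2) := by
  have h1 : ∀ p σ k Δ, Rd F r p σ k Δ → k ≤ Fintype.card (Fin e × Fin 3) := fun p σ k Δ h => by
    obtain ⟨l, hl⟩ := reg_gp L l₁ p
    obtain ⟨g, e1⟩ := hS.im l σ
    obtain ⟨_, a0⟩ := h.ex
    exact (a0 l hl.ne' g e1).1 ▸ Finset.card_image_le
  by_cases h : ∃ k p σ Δ, Rd F r p σ k Δ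
  · obtain ⟨k, hk⟩ := h
    obtain ⟨p₀, σ₀, _, -, -, l₀, h2⟩ := Nat.findGreatest_spec (P := fun k => ∃ p σ Δ, Rd F r p σ k Δ)
      (hk.elim fun _ a => a.elim fun _ a => a.elim fun _ a => h1 _ _ _ _ a) hk
    exact ⟨_, p₀, l₀ + p₀, σ₀, fun p σ k Δ a => ⟨Nat.le_findGreatest (h1 _ _ _ _ a) ⟨p, σ, Δ, a⟩,
      fun l hl g e1 => (h2 l (by omega) g e1).imp_right fun b => b.2 (by omega)⟩⟩
  · exact ⟨0, 0, 0, 1, fun p σ k Δ a => absurd ⟨k, p, σ, Δ, a⟩ h⟩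

theorem pat [NumberField L] (H : Hyp τ D r N₀) (hS : Sys F r) (l : GP L l₁) (s : Fin e)
    (σ₀ : ℂ ≃ₐ[K] ℂ) (h0 : Dq ((F l).z.pr (r l.1 (σ₀ ^ 2) : Matrix ν ν ℤ_[l.1]) s) ≠ 0) :
    ∃ ε : ℤ, (ε = 1 ∨ ε = -1) ∧ PAT (Ty τ D F r N₀ ε) := by
  obtain ⟨k₀, p₀, B, σ₁, hB⟩ := pat_max hS
  refine ⟨-(-1) ^ k₀, by rcases neg_one_pow_eq_or ℤ k₀ with h | h <;> simp [h], fun k => ?_⟩
  obtain ⟨n, hn⟩ := (lw H.com ((F l).z.map (CM.toOm l.1)) s).near_Dq (σ₀ := σ₀ ^ 2) (by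
    rwa [pat_dq, map_ne_zero_iff _ toOm_inj])
  have := kerM_fin (r l.1) n
  have h4 : (kerM (r l.1) n).Normal := MonoidHom.normal_ker _
  obtain ⟨C, hC⟩ : ∃ C, C = (kerM (r l.1) n).index + 24 * e + 5 + B := ⟨_, rfl⟩
  have h1 : {y : ℕ | (y.Prime ∧ l₁ < y ∧ NT.Spl L y) ∧ C < y}.Infinite :=
    Set.infinite_of_forall_exists_gt fun y => by
      obtain ⟨w, hw⟩ := reg_gp L l₁ (y + C)
      exact ⟨w.1, ⟨w.2, by omega⟩, by omega⟩
  obtain ⟨q, h2, h3⟩ : ∃ q : Fin k → GP L l₁, (Function.Injective fun i => (q i).1) ∧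
      ∀ i, C < (q i).1 :=
    ⟨fun i => ⟨h1.natEmbedding _ i, (h1.natEmbedding _ i).2.1⟩,
      fun i j h => Fin.val_injective ((h1.natEmbedding _).injective (Subtype.ext h)),
      fun i => (h1.natEmbedding _ i).2.2⟩
  choose x h5 h6 h7 h8 using fun i => pat_elt q hS h2 (kerM (r l.1) n)
    (fun i => by have := h3 i; omega) σ₀ i (s, 0)
  obtain ⟨N, h9, h10, h11⟩ : ∃ N : ℕ, N ≠ 0 ∧ l.1 ^ (n + 1) ∣ N ∧ ∀ i, (q i).1 ∣ N :=
    ⟨_, mul_ne_zero (pow_ne_zero _ l.2.1.ne_zero)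
      (Finset.prod_ne_zero_iff.2 fun i _ => (q i).2.1.ne_zero), dvd_mul_right _ _,
      fun i => (Finset.dvd_prod_of_mem _ (Finset.mem_univ i)).mul_left _⟩
  have key : ∀ i p, ∃ Δ : ℤ, (N < p ∧ ∃ (_ : Fact p.Prime) (v : ℂ ≃+* PadicAlgCl p)
      (σ : ℂ ≃ₐ[K] ℂ) (j : ℕ), IsPlace K v ∧ Frob τ D r N₀ v σ ∧ Eqm r N (x i).1.1 (σ ^ j)) →
      Ty τ D F r N₀ (-(-1) ^ k₀) p Δ ∧
        ∀ i', quadraticChar (ZMod (q i').1) Δ = if i' = i then -1 else 1 := by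
    intro i p
    refine (Classical.em _).elim ?_ fun h => ⟨0, fun h' => (h h').elim⟩
    refine fun h => Exists.imp (fun _ h _ => h) ?_
    revert h
    rintro ⟨a1, _, v, σ, j, a2, a3, a4⟩
    have a5 : ∀ w, w ∣ N → w ≠ p := fun w hw =>
      ((Nat.le_of_dvd (Nat.pos_of_ne_zero h9) hw).trans_lt a1).ne
    have a6 := a5 _ ((dvd_pow_self _ n.succ_ne_zero).trans h10)
    have a7 := (hn σ j fun c d => by
      obtain ⟨Z, hZ⟩ := mem_kerM.1 (h5 i)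
      have b1 := Eqm_cg a4 ((pow_dvd_pow _ n.le_succ).trans h10) c d
      rw [← mul_inv_cancel_left (σ₀ ^ 2) (x i).1.1, map_mul, Units.val_mul, hZ, mul_add, mul_one,
        mul_smul_comm, Matrix.add_apply, add_sub_right_comm] at b1
      exact (dvd_add_left (dvd_mul_right _ _)).1 b1).2
    obtain ⟨P, a8⟩ := weil_of_Dq a3 a6 _ a7
    obtain ⟨⟨Δ₀, a9⟩, k', Δ, a10⟩ := red_of hS H.com a3 a8 a6 _ a7
    obtain ⟨a11, a12⟩ := hB _ _ _ _ a10
    have a13 := fun i' => pat_chi q hS a10 Fact.out (a5 _ (h11 i')) a11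
      (a12 _ (by have := h3 i'; omega)) (j := j) (Matrix.ext fun c d => by
        obtain ⟨w, hw⟩ := (Nat.cast_dvd_cast (h11 i')).trans (a4 (q i').1 c d)
        have b1 := congrArg PadicInt.toZMod hw
        rw [map_sub, map_mul, map_natCast, ZMod.natCast_self, zero_mul, sub_eq_zero] at b1
        exact b1.symm) (h6 i i') (h7 i i') (h8 i i')
    refine ⟨-|Δ|, ⟨_, v, σ, P, Δ₀, a2, a3, a9, neg_lt_zero.2 (abs_pos.2 a10.ne), by
      rw [Int.natAbs_neg, Int.natAbs_abs]; exact a10.bd, pat_ty hS ((a13 i).1 ▸ a10)⟩, fun i' => ?_⟩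
    rw [pat_sgn (by have : _ = _ := hS.l32 (q i'); omega), (a13 i').2]
    split_ifs <;> rfl
  choose Δ hΔ using key
  refine ⟨_, Δ, fun i => pat_gen H (x i).1.1 h9 N, fun i p hp => (hΔ i p hp).1,
    fun i j hij p hp p' hp' h => ?_⟩
  refine quadraticChar_neg_one_iff_not_isSquare.1 ?_ (h.map (Int.castRingHom (ZMod (q i).1)))
  rw [map_mul, map_mul, eq_intCast, eq_intCast, (hΔ i p hp).2, (hΔ j p' hp').2, if_pos rfl,
    if_neg hij, mul_one]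

end MG.W
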