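import Pool.Agent.Lib.MP_33b3f9_ag.MG.W.ALim
import Pool.Agent.Lib.MP_33b3f9_ag.M5.Res

/-!
Extension of the base field; consequences of the integral theorem of Faltings.
-/

set_option autoImplicit false

noncomputable section

namespace MG.W

open Matrix Polynomial NumberField M4 M4.CM M5 Pool.Agent.M4.Mx

variable [Dim] {e : ℕ} {a b : MZ} {τ : Mat} {K : IntermediateField ℚ ℂ} {r : Rep K}

/-- The restricted representations. -/
def rres (r : Rep K) {K' : IntermediateField ℚ ℂ} (h : K ≤ K') : Rep K' :=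
  fun l _ => (r l).comp (res h)

theorem AV_res (H : AV τ K r) {K' : IntermediateField ℚ ℂ} [FiniteDimensional ℚ K'] (h : K ≤ K') :
    AV τ K' (rres r h) :=
  ⟨H.inH, inferInstance, ⟨h H.defX.1, fun ε ε' => h (H.defX.2 ε ε')⟩,
    fun σ x y hx => H.tate (res h σ) x y hx⟩

theorem comm_res (H : COMM a b r) {K' : IntermediateField ℚ ℂ} (h : K ≤ K') :
    COMM a b (rres r h) := fun l _ σ => H l (res h σ)

theorem fal_res (H : FAL a b r) {K' : IntermediateField ℚ ℂ} [FiniteDimensional ℚ K']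
    (h : K ≤ K') : FAL a b (rres r h) := by
  obtain ⟨C, hC⟩ := H
  have hd := (res_fin h).index_ne_zero
  have hi : Function.Injective (res h) := fun σ σ' e => AlgEquiv.ext fun x => AlgEquiv.congr_fun e x
  refine ⟨(1 + (res h).range.index) * C, fun N hN U hU => ?_⟩
  have h1 := Subgroup.index_map_of_injective U hi
  have h2 := hC N hN (U.map (res h)) ⟨by rw [h1]; exact mul_ne_zero hU.index_ne_zero hd⟩
  have e : {R : MZ | ∃ σ ∈ U, Cong (rres r h) σ N R} =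
      {R : MZ | ∃ σ ∈ U.map (res h), Cong r σ N R} := by
    ext R
    constructor
    · rintro ⟨σ, hσ, hc⟩
      exact ⟨res h σ, ⟨σ, hσ, rfl⟩, hc⟩
    · rintro ⟨_, ⟨σ, hσ, rfl⟩, hc⟩
      exact ⟨σ, hσ, hc⟩
  rw [e, pow_mul]
  refine h2.trans (Nat.pow_le_pow_left ?_ C)
  have h3 : 2 ≤ U.index * (2 + Nat.log 2 N) :=
    le_trans (by omega) (Nat.le_mul_of_pos_left _ (Nat.pos_of_ne_zero hU.index_ne_zero))
  rw [h1, mul_right_comm, pow_add, pow_one]
  exact Nat.mul_le_mul_left _ (Nat.lt_two_pow_self.le.trans (Nat.pow_le_pow_left h3 _))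

theorem res_low (U : Subgroup (ℂ ≃ₐ[K] ℂ)) {N l : ℕ} [Fact l.Prime] (hN : N ≠ 0)
    (π : ℤ_[l] →+* ZMod N) (ψ : Matrix ν ν (ZMod N) →+ ZMod N)
    (hc : ∀ σ ∈ U, ψ ((r l σ : Matrix ν ν ℤ_[l]).map π) = 0) {R₀ : MZ} (h0 : R₀ ∈ CmN a b N) :
    addOrderOf (ψ (zM (ZMod N) R₀)) ≤
      (AddSubgroup.closure {R : MZ | ∃ σ ∈ U, Cong r σ N R}).relIndex (CmN a b N) := by
  have : NeZero N := ⟨hN⟩
  let φ : MZ →+ ZMod N := ψ.comp (Int.castRingHom (ZMod N)).mapMatrix.toAddMonoidHom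
  have h1 : AddSubgroup.closure {R : MZ | ∃ σ ∈ U, Cong r σ N R} ≤ φ.ker := by
    rw [AddSubgroup.closure_le]
    rintro R ⟨σ, hσ, hR⟩
    refine Eq.trans (congrArg ψ (Matrix.ext fun i j => ?_)) (hc σ hσ)
    obtain ⟨y, hy⟩ := hR l i j
    rw [map_apply, eq_add_of_sub_eq hy, map_add, map_mul, map_natCast, map_intCast,
      ZMod.natCast_self, zero_mul, zero_add]
    rfl
  have h2 : (Int.castRingHom (ZMod N)).mapMatrix.toAddMonoidHom.ker ≤
      AddSubgroup.closure {R : MZ | ∃ σ ∈ U, Cong r σ N R} := by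
    intro R hR
    have h3 : ∀ i j, (N : ℤ) ∣ R i j := fun i j =>
      (ZMod.intCast_zmod_eq_zero_iff_dvd _ _).1 (congrFun (congrFun hR i) j)
    have h4 : ∀ S : MZ, (∀ i j, (N : ℤ) ∣ S i j) →
        1 - S ∈ AddSubgroup.closure {R : MZ | ∃ σ ∈ U, Cong r σ N R} := by
      intro S hS
      refine AddSubgroup.subset_closure ⟨1, U.one_mem, fun p _ i j => ?_⟩
      obtain ⟨y, hy⟩ := hS i j
      refine ⟨y, ?_⟩
      rw [map_one, Units.val_one, Matrix.sub_apply, hy, one_apply, one_apply]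
      push_cast
      ring
    have h5 := AddSubgroup.sub_mem _ (h4 0 fun _ _ => dvd_zero _) (h4 R h3)
    rwa [sub_zero, sub_sub_cancel] at h5
  have h6 := AddSubgroup.finiteIndex_of_le h2
  have h7 := AddSubgroup.relIndex_dvd_of_le_left (CmN a b N) h1
  rw [AddSubgroup.relIndex_ker] at h7
  exact Nat.le_of_dvd (Nat.pos_of_ne_zero AddSubgroup.FiniteIndex.index_ne_zero)
    ((AddSubgroup.addOrderOf_dvd_natCard _ (AddSubgroup.mem_map_of_mem φ h0)).trans h7)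

theorem mem_CmN {N : ℕ} {R : MZ} (ha : Commute (zM (ZMod N) a) (zM (ZMod N) R))
    (hb : Commute (zM (ZMod N) b) (zM (ZMod N) R)) : R ∈ CmN a b N := by
  have h : ∀ d : MZ, Commute (zM (ZMod N) d) (zM (ZMod N) R) → ∀ i j,
      (N : ℤ) ∣ (R * d - d * R) i j := fun d hd i j => by
    have h1 := hd.eq
    rw [← zM_mul, ← zM_mul] at h1
    rw [← ZMod.intCast_zmod_eq_zero_iff_dvd, Matrix.sub_apply, Int.cast_sub, sub_eq_zero]
    exact (congrFun (congrFun h1 i) j).symm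
  exact fun i j => ⟨h a ha i j, h b hb i j⟩

theorem res_comm {Ω : Type} [Field Ω] [CharZero Ω] {d : MZ} {g : Matrix ν ν Ω}
    (h : Commute (zM Ω d) g) (lam : Ω →ₗ[ℚ] ℚ) : Commute d (g.map lam).num := by
  have h0 : ∀ (c : ℤ) (y : Ω), lam (c * y) = c * lam y := fun c y => by
    rw [← zsmul_eq_mul, map_zsmul, zsmul_eq_mul]
  have h1 : Commute (zM ℚ d) (g.map lam) := by
    ext i j
    have h2 := congrArg lam (congrFun (congrFun h.eq i) j)
    simp only [Matrix.mul_apply, map_sum, map_apply, mul_comm (g _ _), h0] at h2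
    simpa only [Matrix.mul_apply, map_apply, mul_comm (lam _)] using h2
  have h2 : zM ℚ (g.map lam).num = ((g.map lam).den : ℚ) • g.map lam := by
    conv_rhs => arg 2; rw [← inv_denom_smul_num (g.map lam)]
    rw [smul_smul, mul_inv_cancel₀ (Nat.cast_ne_zero.2 (den_ne_zero _)), one_smul]
  refine zM_injective ℚ ?_
  rw [zM_mul, zM_mul, h2]
  exact (h1.smul_right _).eq

theorem exists_R {Ω : Type} [Field Ω] [CharZero Ω] (z : Mor e a b Ω)
    {f : (Fin e → M8 Ω) →ₗ[Ω] Ω} (hf : f ≠ 0) :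
    ∃ R : MZ, Commute a R ∧ Commute b R ∧ f (z.pr (zM Ω R)) ≠ 0 := by
  classical
  by_contra! hc
  refine hf (LinearMap.ext fun x => ?_)
  let B := Module.Basis.ofVectorSpace ℚ Ω
  have h1 : z.em x = ∑ k ∈ Finset.univ.biUnion fun p : ν × ν => (B.repr (z.em x p.1 p.2)).support,
      (B k / ((z.em x).map (B.coord k)).den) • zM Ω ((z.em x).map (B.coord k)).num := by
    ext i j
    rw [Matrix.sum_apply]
    conv_lhs => rw [← B.linearCombination_repr (z.em x i j), Finsupp.linearCombination_apply,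
      Finsupp.sum_of_support_subset _ (Finset.subset_biUnion_of_mem
        (fun p : ν × ν => (B.repr (z.em x p.1 p.2)).support) (Finset.mem_univ (i, j))) _
        fun k _ => zero_smul ℚ (B k)]
    refine Finset.sum_congr rfl fun k _ => ?_
    have h2 := num_div_den ((z.em x).map (B.coord k)) i j
    rw [map_apply, Module.Basis.coord_apply] at h2
    rw [← h2]
    generalize (z.em x).map (B.coord k) = G
    change _ = B k / G.den * (G.num i j : Ω)
    rw [Rat.smul_def]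
    push_cast
    ring
  rw [← z.pr_em x, h1, map_sum, map_sum]
  refine Finset.sum_eq_zero fun k _ => ?_
  rw [map_smul, map_smul, hc _ (res_comm (z.comm_a x) _) (res_comm (z.comm_b x) _), smul_zero]

theorem fal_sq (h : FAL a b r) (l : ℕ) [Fact l.Prime] (W : Lw e a b (r l)) : W.Sq := by
  obtain ⟨C, hC⟩ := h
  intro U hU
  by_contra hne
  obtain ⟨f, hf, hW⟩ := Submodule.exists_le_ker_of_lt_top _ (lt_top_iff_ne_top.2 hne)
  obtain ⟨R, ha, hb, hR⟩ := exists_R W.z.toMor hf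
  obtain ⟨lam, hl⟩ := not_forall.1 (mt (Module.forall_dual_apply_eq_zero_iff ℚ_[l] _).1 hR)
  let c : ν × ν → ℚ_[l] := fun x => lam (f (W.z.pr (single x.1 x.2 1)))
  have h0 : ∀ Y : Matrix ν ν ℤ_[l], lam (f (W.z.pr (Y.map (CM.toOm l)))) =
      ∑ x : ν × ν, c x * Y x.1 x.2 := fun Y => by
    conv_lhs => rw [matrix_eq_sum_single (Y.map (CM.toOm l)), ← Fintype.sum_prod_type', map_sum,
      map_sum, map_sum]
    refine Finset.sum_congr rfl fun x _ => ?_
    rw [mul_comm, ← smul_eq_mul, ← map_smul, Algebra.smul_def, ← smul_eq_mul, ← map_smul,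
      ← map_smul, smul_single, smul_eq_mul, mul_one]
    rfl
  obtain ⟨q, -, hq⟩ := Finset.exists_max_image Finset.univ (fun q : ν × ν => ‖c q‖)
    ⟨Classical.arbitrary _, Finset.mem_univ _⟩
  rw [← zM_map (CM.toOm l), h0] at hl
  have hq0 : c q ≠ 0 := fun h0 => hl (Finset.sum_eq_zero fun p _ => by
    rw [norm_le_zero_iff.1 ((hq p (Finset.mem_univ _)).trans_eq (by rw [h0, norm_zero])), zero_mul])
  let c' : ν × ν → ℤ_[l] := fun x => ⟨c x / c q, by
    rw [norm_div]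
    exact div_le_one_of_le₀ (hq x (Finset.mem_univ _)) (norm_nonneg _)⟩
  have h1 : ∀ Y : Matrix ν ν ℤ_[l], PadicInt.Coe.ringHom (∑ x : ν × ν, c' x * Y x.1 x.2) =
      (∑ x : ν × ν, c x * Y x.1 x.2) / c q := fun Y => by
    rw [map_sum, Finset.sum_div]
    refine Finset.sum_congr rfl fun x _ => ?_
    rw [map_mul, mul_div_right_comm]
    rfl
  have h2 : ∀ σ ∈ U, ∑ x : ν × ν, c' x * (r l σ : Matrix ν ν ℤ_[l]) x.1 x.2 = 0 := by
    intro σ hσ
    refine Subtype.ext ((h1 _).trans ?_)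
    have hv : W.z.pr ((r l σ : Matrix ν ν ℤ_[l]).map (CM.toOm l)) = W.v σ :=
      (congrArg W.z.pr (W.eq σ).symm).trans (W.z.pr_em _)
    rw [← h0, hv, LinearMap.mem_ker.1 (hW (Submodule.subset_span ⟨σ, hσ, rfl⟩)), map_zero,
      zero_div]
    rfl
  have hy : ∑ x : ν × ν, c' x * zM ℤ_[l] R x.1 x.2 ≠ 0 := fun e => by
    have h3 := h1 (zM ℤ_[l] R)
    rw [e, map_zero] at h3
    exact div_ne_zero hl hq0 h3.symm
  have hp : l.Prime := Fact.out
  obtain ⟨k, u, hu⟩ : ∃ (k : ℕ) (u : ℤ_[l]ˣ),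
      ∑ x : ν × ν, c' x * zM ℤ_[l] R x.1 x.2 = u * (l : ℤ_[l]) ^ k :=
    ⟨_, _, PadicInt.unitCoeff_spec hy⟩
  obtain ⟨N₀, hN₀⟩ := res_grow (l ^ k * U.index) (C + 1)
  have h4 : l ^ N₀ ≠ 0 := pow_ne_zero _ hp.ne_zero
  have : NeZero (l ^ N₀) := ⟨h4⟩
  let ψ : Matrix ν ν (ZMod (l ^ N₀)) →+ ZMod (l ^ N₀) :=
    { toFun := fun Y => ∑ x : ν × ν, PadicInt.toZModPow N₀ (c' x) * Y x.1 x.2
      map_zero' := by simp
      map_add' := fun Y Y' => by simp only [Matrix.add_apply, mul_add, Finset.sum_add_distrib] }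
  have hψ : ∀ Y : Matrix ν ν ℤ_[l], ψ (Y.map (PadicInt.toZModPow N₀)) =
      PadicInt.toZModPow N₀ (∑ x : ν × ν, c' x * Y x.1 x.2) := fun Y => by
    simp only [map_sum, map_mul]
    rfl
  have h5 := (res_low (r := r) U h4 (PadicInt.toZModPow (p := l) N₀) ψ
    (fun σ hσ => by rw [hψ, h2 σ hσ, map_zero]) (R₀ := R) (mem_CmN
      (by rw [Commute, SemiconjBy, ← zM_mul, ← zM_mul, ha.eq])
      (by rw [Commute, SemiconjBy, ← zM_mul, ← zM_mul, hb.eq]))).trans (hC _ h4 U hU)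
  rw [← zM_map (PadicInt.toZModPow (p := l) N₀), hψ, hu] at h5
  have h6 := addOrderOf_nsmul_eq_zero (PadicInt.toZModPow N₀ ((u : ℤ_[l]) * (l : ℤ_[l]) ^ k))
  have h7 := addOrderOf_pos (PadicInt.toZModPow N₀ ((u : ℤ_[l]) * (l : ℤ_[l]) ^ k))
  generalize addOrderOf (PadicInt.toZModPow N₀ ((u : ℤ_[l]) * (l : ℤ_[l]) ^ k)) = o at h5 h6 h7
  rw [← map_nsmul, ← RingHom.mem_ker, PadicInt.ker_toZModPow, Ideal.mem_span_singleton,
    nsmul_eq_mul, mul_left_comm, Units.dvd_mul_left] at h6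
  have h8 : l ^ N₀ ∣ o * l ^ k := by
    rw [← Int.natCast_dvd_natCast, Nat.cast_pow, ← PadicInt.pow_p_dvd_int_iff]
    exact_mod_cast h6
  have h9 := Nat.le_of_dvd (mul_pos h7 (pow_pos hp.pos k)) h8
  refine absurd (h9.trans ?_) (hN₀ _ (Nat.lt_pow_self hp.one_lt).le).not_ge
  have h10 : 0 < U.index * (2 + Nat.log 2 (l ^ N₀)) :=
    mul_pos (Nat.pos_of_ne_zero hU.index_ne_zero) (by omega)
  rw [mul_assoc, pow_succ]
  exact Nat.mul_le_mul (h5.trans (Nat.pow_le_pow_left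
    (Nat.le_mul_of_pos_left _ (pow_pos hp.pos k)) C)) (Nat.le_mul_of_pos_right _ h10)

theorem fal_sf (h : FAL a b r) (d : ℕ) : ∃ l₀ : ℕ, ∀ (l : ℕ) [Fact l.Prime], l₀ < l →
    ∀ (W : Lw e a b (r l)) z u, W.Int z u → Sf1 u d := by
  obtain ⟨C, hC⟩ := h
  obtain ⟨N₀, hN₀⟩ := res_grow d C
  refine ⟨N₀, fun l _ hl W z u hu U hU hd => ?_⟩
  by_contra hne
  obtain ⟨f, hf, hW⟩ := Submodule.exists_le_ker_of_lt_top _ (lt_top_iff_ne_top.2 hne)
  obtain ⟨x, hx⟩ := not_forall.1 (mt LinearMap.ext hf)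
  have h4 : l ≠ 0 := (Fact.out : l.Prime).ne_zero
  let s := z.toMor.map (PadicInt.toZMod (p := l))
  have h0 : zM (ZMod l) ((s.em (Pi.single W.s x)).map ZMod.cast) = s.em (Pi.single W.s x) := by
    ext i j
    exact ZMod.intCast_zmod_cast _
  have h5 := res_low (r := r) U h4 (PadicInt.toZMod (p := l))
    (f ∘ₗ LinearMap.proj W.s ∘ₗ s.pr).toAddMonoidHom
    (fun σ hσ => by
      change f (s.pr _ W.s) = 0
      rw [← z.toMor.map_pr, ← hu.eq]
      exact hW (Submodule.subset_span ⟨σ, hσ, rfl⟩))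
    (mem_CmN (h0.symm ▸ s.comm_a _) (h0.symm ▸ s.comm_b _))
  have h6 : addOrderOf (f x) = l := addOrderOf_eq_prime (by simp) hx
  rw [h0] at h5
  change addOrderOf (f (s.pr _ W.s)) ≤ _ at h5
  rw [s.pr_em, Pi.single_eq_same, h6] at h5
  refine absurd (h5.trans ((hC _ h4 U ⟨hU⟩).trans ?_)) (hN₀ _ hl.le).not_ge
  exact Nat.pow_le_pow_left (Nat.mul_le_mul_right _ hd) C

end MG.W
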