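import Pool.Agent.Lib.MP_33b3f9_ag.MG.W.SF
import Pool.Agent.Lib.MP_33b3f9_ag.MG.W.Res
import Pool.Agent.Lib.MP_33b3f9_ag.MG.W.Pat

/-!
The Lie algebra is full.
-/

set_option autoImplicit false

noncomputable section

namespace MG.W

open Matrix Polynomial NumberField M4 M4.CM M5 Pool.Agent.M4.Mx Pool.Agent.Lib.MP_33b3f9_ag
open Pool.Agent.M4.Det

variable [Dim] {e : ℕ} {a b : MZ} {m n N₀ : ℕ} {τ : Mat} {K : IntermediateField ℚ ℂ} {r : Rep K}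

theorem hyp (h : AV τ K r) (D : PD e a b m n) (hc : COMM a b r) (hF : FAL a b r)
    (red : REDst τ D r N₀) (mu : MUst r) : Hyp τ D r N₀ :=
  ⟨h.fin, opn h, red, hc, fun l _ σ => (mu l σ).imp fun _ x => x.1, fal_sq hF, fal_sf hF⟩

theorem full (h : AV τ K r) (D : PD e a b m n) (hc : COMM a b r) (hF : FAL a b r)
    (red : ∀ (K' : IntermediateField ℚ ℂ) (r' : Rep K'), AV τ K' r' → COMM a b r' →
      REDst τ D r' N₀)
    (mu : ∀ (K' : IntermediateField ℚ ℂ) (r' : Rep K'), AV τ K' r' → MUst r')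
    (core : ∀ (K' : IntermediateField ℚ ℂ) (r' : Rep K'), AV τ K' r' → COMM a b r' →
      ∀ (L : Type) [Field L] [NumberField L] (l₁ : ℕ) (F : Frs e a b L l₁), Sys F r' →
        ∀ ε : ℤ, ε = 1 ∨ ε = -1 → ¬ PAT (Ty τ D F r' N₀ ε)) : FULL e a b r := by
  intro l _ U _
  obtain ⟨z⟩ := D.pel.mor_closed (CM.Om l)
  have H := hyp h D hc hF (red _ _ h hc) (mu _ _ h)
  refine ⟨z, fun Z hZ => ((lie_tng _ U.normalCore).trans
    (tng_mono fun _ ⟨σ, x, y⟩ => ⟨σ, U.normalCore_le x, y⟩))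
    ((lw hc z ⟨0, D.pel.pos⟩).all_full (H.gsp l) (H.sq l _) (fun s => ?_) hZ)⟩
  change Full _ ((lw hc z s).g _)
  rcases (lw hc z s).g_type (U := U.normalCore) (H.gsp l) (H.sq l _) with h2 | h2 | ⟨f, h2⟩
  · exact h2
  · exact absurd h2 (not_sym7 H _ _)
  obtain ⟨χ, h3, k, h4⟩ := (lw hc z s).pm_all h2
  obtain ⟨K₁, _, h5⟩ := H.opn (l ^ (k + 2)) (pow_ne_zero _ (Fact.out : l.Prime).ne_zero)
  have := h.fin
  have hK : K ≤ K ⊔ K₁ := le_sup_left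
  have h6 : ∀ (σ : ℂ ≃ₐ[↥(K ⊔ K₁)] ℂ) (j : ℕ), j ≤ k + 2 → res hK σ ∈ kerM (r l) j := fun σ j hj => by
    have a1 := h5 (res hK σ) (fun x hx => σ.commutes ⟨x, (le_sup_right : K₁ ≤ K ⊔ K₁) hx⟩) l
    rw [Nat.cast_pow] at a1
    choose Z hZ using fun x y => (pow_dvd_pow (l : ℤ_[l]) hj).trans (a1 x y)
    refine mem_kerM.2 ⟨Matrix.of Z, ?_⟩
    ext x y : 1
    have a2 := hZ x y
    rw [map_one, Units.val_one, sub_eq_iff_eq_add'] at a2
    exact a2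
  have h' := AV_res h hK
  have hc' := comm_res hc hK
  have H' := hyp h' D hc' (fal_res hF hK) (red _ _ h' hc') (mu _ _ h')
  obtain ⟨L, _, _, l₁, F, hS, l', s', σ, h7⟩ := exists_sys H' (W₀ := lw hc' z s) (f₀ := f)
    ⟨fun σ => kerM_le (h6 σ 2 (by omega)), fun σ => Pm.inC (by
      have a3 := h3 (res hK σ)
      rwa [MonoidHom.mem_ker.1 (h4 (h6 σ k (by omega)))] at a3)⟩
  obtain ⟨ε, h8, h9⟩ := pat H' hS l' s' σ h7
  exact absurd h9 (core _ _ h' hc' L l₁ F hS ε h8)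

end MG.W
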