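import Pool.Agent.Lib.MP_33b3f9_ag.MG.Mor
import Pool.Agent.Lib.MP_33b3f9_ag.M5.GGraph

/-!
Subdirect products of the groups `PSL(2, l)`.
-/

set_option autoImplicit false

noncomputable section

namespace MG.W

open Matrix M5 Pool.Agent.M4 Pool.Agent.M4.Mx
open scoped MatrixGroups

section grp

variable {G : Type} [Group G]

theorem patg_inf {S J : Type} [Group S] (hS : commutator S = ⊤) (φ : G →* S) (M : J → Subgroup G)
    (hn : ∀ j, (M j).Normal) (U : Subgroup G) [U.Normal] (hU : U.map φ = ⊤) (T : Finset J)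
    (h : ∀ j ∈ T, (M j).map φ = ⊤) :
    ∃ V : Subgroup G, V.Normal ∧ V ≤ U ∧ (∀ j ∈ T, V ≤ M j) ∧ V.map φ = ⊤ := by
  classical
  induction T using Finset.induction_on with
  | empty => exact ⟨U, ‹_›, le_rfl, by simp, hU⟩
  | insert j T _ ih =>
    obtain ⟨V, h1, h2, h3, h4⟩ := ih fun k hk => h k (Finset.mem_insert_of_mem hk)
    have := hn j
    refine ⟨V ⊓ M j, inferInstance, inf_le_left.trans h2, fun k hk => ?_, eq_top_iff.2 ?_⟩
    · rcases Finset.mem_insert.1 hk with rfl | hk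
      · exact inf_le_right
      · exact inf_le_left.trans (h3 k hk)
    · refine le_trans ?_ (Subgroup.map_mono (Subgroup.commutator_le_inf V (M j)))
      rw [Subgroup.map_commutator, h4, h j (Finset.mem_insert_self _ _), ← commutator_def, hS]

theorem patg_crt {Q : Type} {S : Q → Type} [∀ q, Group (S q)] [∀ q, IsSimpleGroup (S q)]
    (hS : ∀ q, commutator (S q) = ⊤) (φ : ∀ q, G →* S q) (hφ : ∀ q, Function.Surjective (φ q))
    (U : Subgroup G) [U.Normal] (hU : ∀ q, U.map (φ q) = ⊤) (g : Subgroup G → G) (g₀ : G)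
    (T : Finset Q) : ∃ x, g₀⁻¹ * x ∈ U ∧ ∀ q ∈ T, φ q x = φ q (g (φ q).ker) := by
  classical
  induction T using Finset.induction_on with
  | empty => exact ⟨g₀, by simp, by simp⟩
  | insert q T _ ih =>
    obtain ⟨x, h1, h2⟩ := ih
    by_cases h : ∃ k ∈ T, (φ k).ker = (φ q).ker
    · obtain ⟨k, hk, e⟩ := h
      refine ⟨x, h1, fun j hj => ?_⟩
      rcases Finset.mem_insert.1 hj with rfl | hj
      · have h3 := (MonoidHom.eq_iff _).1 (h2 k hk)
        rw [e] at h3
        exact (MonoidHom.eq_iff _).2 h3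
      · exact h2 j hj
    obtain ⟨V, -, h3, h4, h5⟩ := patg_inf (hS q) (φ q) (fun k => (φ k).ker)
      (fun _ => inferInstance) U (hU q) T fun k hk => by
        refine ((MonoidHom.normal_ker (φ k)).map _ (hφ q)).eq_bot_or_eq_top.resolve_left
          fun e => ?_
        rw [Subgroup.map_eq_bot_iff] at e
        rcases ((MonoidHom.normal_ker (φ q)).map _ (hφ k)).eq_bot_or_eq_top with e' | e'
        · exact h ⟨k, hk, le_antisymm e ((Subgroup.map_eq_bot_iff _).1 e')⟩
        · obtain ⟨s, hs⟩ := exists_ne (1 : S q)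
          obtain ⟨y, rfl⟩ := hφ q s
          obtain ⟨w, hw, e2⟩ := e'.ge (Subgroup.mem_top (φ k y))
          exact hs (((MonoidHom.eq_iff _).2 (e ((MonoidHom.eq_iff _).1 e2))).symm.trans hw)
    obtain ⟨y, hy, e⟩ := h5.ge (Subgroup.mem_top ((φ q x)⁻¹ * φ q (g (φ q).ker)))
    refine ⟨x * y, mul_assoc _ x y ▸ mul_mem h1 (h3 hy), fun j hj => ?_⟩
    rcases Finset.mem_insert.1 hj with rfl | hj
    · rw [map_mul, e, mul_inv_cancel_left]
    · rw [map_mul, MonoidHom.mem_ker.1 (h4 j hj hy), mul_one, h2 j hj]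

theorem patg_tr {S S' : Type} [Group S] [Group S'] {φ : G →* S} {φ' : G →* S'} (h : φ.ker = φ'.ker)
    (x : G) (a b : ℤ) : φ x ^ a = φ x ^ b ↔ φ' x ^ a = φ' x ^ b := by
  simp only [← map_zpow, MonoidHom.eq_iff, h]

end grp

section sl

variable {l : ℕ} [Fact l.Prime]

/-- The class in `PSL(2, l)`. -/
def cls (l : ℕ) : SL(2, ZMod l) →* PSL(2, ZMod l) := QuotientGroup.mk' _

/-- The quadratic character of the discriminant. -/
def chi (u : M2 (ZMod l)) : ℤ := quadraticChar (ZMod l) (u.trace ^ 2 - 4 * u.det)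

theorem patg_two (hl : l % 2 = 1) : (2 : ZMod l) ≠ 0 := fun h => by
  have h1 := (ZMod.natCast_eq_zero_iff 2 l).1 (by exact_mod_cast h)
  have h2 := Nat.le_of_dvd two_pos h1
  have h3 := (Fact.out : l.Prime).two_le
  omega

theorem patg_frob (hl : l % 2 = 1) (u : M2 (ZMod l)) : (2 : ZMod l) • u ^ l =
    u.trace • (1 : M2 (ZMod l)) + (chi u : ZMod l) • ((2 : ZMod l) • u - u.trace • 1) := by
  have h1 : ((2 : ZMod l) • u - u.trace • 1) ^ 2 = (u.trace ^ 2 - 4 * u.det) • (1 : M2 (ZMod l)) := by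
    ext i j
    fin_cases i <;> fin_cases j <;>
      simp [pow_two, Matrix.mul_apply, Fin.sum_univ_two, trace_fin_two, det_fin_two] <;> ring
  have h2 := add_pow_char_of_commute l (x := u.trace • (1 : M2 (ZMod l)))
    (y := (2 : ZMod l) • u - u.trace • 1) ((Commute.one_left _).smul_left _)
  rw [add_sub_cancel, smul_pow, smul_pow, ZMod.pow_card, ZMod.pow_card, one_pow] at h2
  have h3 := quadraticChar_eq_pow_of_char_ne_two' (F := ZMod l)
    (by rw [ZMod.ringChar_zmod_n]; omega) (u.trace ^ 2 - 4 * u.det)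
  rw [ZMod.card] at h3
  have h4 : ∀ w : M2 (ZMod l), w ^ l = (w ^ 2) ^ (l / 2) * w := fun w => by
    rw [← pow_mul, ← pow_succ]
    congr 1
    omega
  rw [h2, chi, h3, h4, h1, smul_pow, one_pow, smul_mul_assoc, one_mul]

theorem patg_one {u : SL(2, ZMod l)} : cls l u = 1 ↔ ∃ c : ZMod l, u.1 = c • 1 := by
  rw [cls, QuotientGroup.mk'_apply, QuotientGroup.eq_one_iff,
    Matrix.SpecialLinearGroup.mem_center_iff]
  refine ⟨fun ⟨c, _, h⟩ => ⟨c, by rw [← h, scalar_apply, smul_one_eq_diagonal]⟩, fun ⟨c, h⟩ =>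
    ⟨c, ?_, by rw [scalar_apply, ← smul_one_eq_diagonal, h]⟩⟩
  have h1 := u.2
  rwa [h, det_smul, det_one, mul_one] at h1

theorem patg_pow (hl : l % 2 = 1) (u : SL(2, ZMod l)) : cls l u ^ (l : ℤ) = cls l u ^ chi u.1 := by
  have h1 := patg_frob hl u.1
  have h2 := patg_two hl
  rw [zpow_natCast, ← map_pow]
  rcases quadraticChar_isQuadratic (ZMod l) (u.1.trace ^ 2 - 4 * u.1.det) with h | h | h <;>
    rw [chi, h] at h1 ⊢
  · rw [zpow_zero, patg_one]
    refine ⟨2⁻¹ * u.1.trace, ?_⟩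
    rw [mul_smul, eq_inv_smul_iff₀ h2, Matrix.SpecialLinearGroup.coe_pow, h1]
    simp
  · rw [zpow_one]
    refine congrArg _ (Subtype.ext (smul_right_injective _ h2 ?_))
    simpa using h1
  · rw [_root_.zpow_neg_one, ← map_inv]
    refine congrArg _ (Subtype.ext (smul_right_injective _ h2 ?_))
    change (2 : ZMod l) • (u ^ l).1 = (2 : ZMod l) • (u⁻¹).1
    rw [Matrix.SpecialLinearGroup.coe_pow, h1, Matrix.SpecialLinearGroup.coe_inv, adjugate_fin_two]
    ext i j
    fin_cases i <;> fin_cases j <;> simp [trace_fin_two] <;> ring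

/-- A matrix with given trace. -/
def mt (t : ZMod l) : SL(2, ZMod l) := ⟨!![0, -1; 1, t], by simp [det_fin_two]⟩

theorem patg_mt (t : ZMod l) : (mt t).1.trace = t := by simp [mt, trace_fin_two]

theorem patg_ex (hl : l % 2 = 1) : ∃ u : SL(2, ZMod l),
    cls l u ^ (l : ℤ) = cls l u ^ (0 : ℤ) ∧ cls l u ^ (2 : ℤ) ≠ cls l u ^ (0 : ℤ) := by
  refine ⟨mt 2, ?_, fun h => patg_two hl ?_⟩
  · rw [patg_pow hl, chi, patg_mt, (mt 2).2]
    norm_num
  · rw [zpow_zero, zpow_two, ← map_mul, patg_one] at h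
    obtain ⟨c, hc⟩ := h
    simpa [mt, Matrix.mul_apply, Fin.sum_univ_two] using congrFun (congrFun hc 1) 0

theorem patg_ns (h4 : l % 4 = 1) : ∃ t : ZMod l, t ≠ 0 ∧ quadraticChar (ZMod l) (t ^ 2 - 4) = -1 := by
  by_contra! h
  have h6 : ∀ t : ZMod l, IsSquare (t ^ 2 - 4) := fun t => by
    by_cases h0 : t = 0
    · obtain ⟨y, hy⟩ := ZMod.exists_sq_eq_neg_one_iff.2 (by omega : l % 4 ≠ 3)
      exact ⟨2 * y, by rw [h0]; linear_combination 4 * hy⟩
    · exact not_not.1 fun h1 => h t h0 (quadraticChar_neg_one_iff_not_isSquare.2 h1)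
  have h7 : ∀ k : ℕ, IsSquare (-4 * k : ZMod l) := fun k => by
    induction k with
    | zero => simp
    | succ k ih =>
      obtain ⟨y, hy⟩ := ih
      have := h6 y
      rwa [pow_two, ← hy, show (-4 * k - 4 : ZMod l) = -4 * (k + 1 : ℕ) by push_cast; ring] at this
  obtain ⟨c, hc⟩ := FiniteField.exists_nonsquare (F := ZMod l)
    (by rw [ZMod.ringChar_zmod_n]; omega)
  obtain ⟨k, hk⟩ := ZMod.natCast_zmod_surjective (c / -4)
  have h8 := h7 k
  rw [hk, mul_div_cancel₀ _ (neg_ne_zero.2 (by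
    rw [show (4 : ZMod l) = 2 * 2 by norm_num]
    exact mul_self_ne_zero.2 (patg_two (by omega))))] at h8
  exact hc h8

theorem patg_many {Q : Type} [Fintype Q] (h : 8 * Fintype.card Q + 1 < l) : ∃ τ : Q → ZMod l,
    (∀ q, τ q ≠ 0 ∧ quadraticChar (ZMod l) (τ q ^ 2 - 4) = 1) ∧
      Function.Injective fun q => (τ q ^ 2 - 2) ^ 2 := by
  obtain ⟨g, hg⟩ := IsCyclic.exists_ofOrder_eq_natCard (α := (ZMod l)ˣ)
  rw [Nat.card_eq_fintype_card, ZMod.card_units] at hg
  have h1 : ∀ a b : ℕ, a ≤ 8 * Fintype.card Q → b ≤ 8 * Fintype.card Q →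
      (g : ZMod l) ^ a = g ^ b → a = b := fun a b ha hb e =>
    pow_injOn_Iio_orderOf (x := g) (by rw [Set.mem_Iio]; omega) (by rw [Set.mem_Iio]; omega)
      (Units.ext (by simpa using e))
  obtain ⟨k, h2, h3⟩ : ∃ k : Q → ℕ, Function.Injective k ∧ ∀ q, 0 < k q ∧ k q ≤ Fintype.card Q :=
    ⟨fun q => Fintype.equivFin Q q + 1, fun q q' e => (Fintype.equivFin Q).injective
      (Fin.ext (Nat.succ_injective e)), fun q => ⟨Nat.succ_pos _, (Fintype.equivFin Q q).2⟩⟩
  have h4 : ∀ q, (g : ZMod l) ^ k q ≠ 0 := fun q => pow_ne_zero _ g.ne_zero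
  have h5 : ∀ q, ((g : ZMod l) ^ k q) ^ 4 ≠ 1 := fun q e => by
    have := h3 q
    have := h1 (k q * 4) 0 (by omega) (by omega) (by rwa [pow_mul, pow_zero])
    omega
  refine ⟨fun q => g ^ k q + ((g : ZMod l) ^ k q)⁻¹, fun q => ?_, fun q q' e => h2 ?_⟩
  · have a1 := h4 q
    have a2 := h5 q
    beta_reduce
    generalize (g : ZMod l) ^ k q = y at a1 a2
    refine ⟨fun e => a2 ?_, ?_⟩
    · field_simp at e
      linear_combination (y ^ 2 - 1) * e
    · rw [show (y + y⁻¹) ^ 2 - 4 = (y - y⁻¹) ^ 2 by field_simp; ring]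
      refine quadraticChar_sq_one' fun e => a2 ?_
      field_simp at e
      linear_combination (y ^ 2 + 1) * e
  · have a1 := h4 q
    have a2 := h4 q'
    have a3 := h3 q
    have a4 := h3 q'
    have a5 : (((g : ZMod l) ^ k q) ^ 4 - (g ^ k q') ^ 4) * ((g ^ k q) ^ 4 * (g ^ k q') ^ 4 - 1) = 0 := by
      beta_reduce at e
      generalize (g : ZMod l) ^ k q = y at a1 e
      generalize (g : ZMod l) ^ k q' = y' at a2 e
      field_simp at e
      linear_combination e
    rcases mul_eq_zero.1 a5 with a6 | a6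
    · have := h1 (k q * 4) (k q' * 4) (by omega) (by omega)
        (by rwa [pow_mul, pow_mul, ← sub_eq_zero])
      omega
    · have := h1 (k q * 4 + k q' * 4) 0 (by omega) (by omega)
        (by rwa [pow_add, pow_mul, pow_mul, pow_zero, ← sub_eq_zero])
      omega

theorem patg_eq {u w : SL(2, ZMod l)} : cls l u = cls l w ↔ ∃ c : ZMod l, u.1 = c • w.1 := by
  rw [← mul_inv_eq_one, ← map_inv, ← map_mul, patg_one]
  refine exists_congr fun c => ⟨fun h => ?_, fun h => ?_⟩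
  · rw [← inv_mul_cancel_right u w, mul_assoc]
    have := congrArg (· * w.1) h
    simpa [← Matrix.SpecialLinearGroup.coe_mul] using this
  · rw [Matrix.SpecialLinearGroup.coe_mul, h, smul_mul_assoc, ← Matrix.SpecialLinearGroup.coe_mul,
      mul_inv_cancel, Matrix.SpecialLinearGroup.coe_one]

theorem patg_sq {u w : SL(2, ZMod l)} (h : cls l u = cls l w) : u.1.trace ^ 2 = w.1.trace ^ 2 := by
  obtain ⟨c, hc⟩ := patg_eq.1 h
  have h1 := u.2
  rw [hc, det_smul, w.2, mul_one, Fintype.card_fin] at h1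
  rw [hc, trace_smul, smul_eq_mul, mul_pow, h1, one_mul]

/-- Conjugation. -/
def cjS (c : GL (Fin 2) (ZMod l)) : SL(2, ZMod l) →* SL(2, ZMod l) where
  toFun y := ⟨cj c y.1, by rw [cj, det_units_conj, y.2]⟩
  map_one' := Subtype.ext (by simp [cj])
  map_mul' x y := Subtype.ext (by
    change cj c (x.1 * y.1) = cj c x.1 * cj c y.1
    simp only [cj, mul_assoc, Units.inv_mul_cancel_left])

theorem patc {G : Type} [Group G] (hl : l % 2 = 1) {u w : G →* SL(2, ZMod l)}
    (hs : Function.Surjective ((cls l).comp u)) (hk : ((cls l).comp u).ker = ((cls l).comp w).ker)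
    (x : G) : (u x).1.trace ^ 2 = (w x).1.trace ^ 2 := by
  have tr : ∀ y z, cls l (u y) = cls l (u z) ↔ cls l (w y) = cls l (w z) := fun y z =>
    (MonoidHom.eq_iff ((cls l).comp u)).trans (hk ▸ (MonoidHom.eq_iff ((cls l).comp w)).symm)
  let A : SL(2, ZMod l) := ⟨1 + bas (ZMod l) 1, by simp [bas, det_fin_two]⟩
  let B : SL(2, ZMod l) := ⟨1 + -bas (ZMod l) 2, by simp [bas, det_fin_two]⟩
  have q1 : bas (ZMod l) 1 * bas (ZMod l) 1 = 0 := by
    ext a b; fin_cases a <;> fin_cases b <;> simp [bas]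
  have q2 : -bas (ZMod l) 2 * -bas (ZMod l) 2 = 0 := by
    ext a b; fin_cases a <;> fin_cases b <;> simp [bas]
  have q3 : bas (ZMod l) 1 * -bas (ZMod l) 2 ≠ 0 := fun t => by
    simpa [bas] using congrFun (congrFun t 0) 0
  have up : ∀ (C : SL(2, ZMod l)) (e : M2 (ZMod l)), e * e = 0 → C.1 = 1 + e → ∃ z s n,
      cls l (u z) = cls l C ∧ s ≠ 0 ∧ n * n = 0 ∧ (w z).1 = (s : ZMod l) • (1 + n) :=
    fun C e he eC => by
      obtain ⟨z, hz⟩ := hs (cls l C)
      have h1 : cls l (u (z ^ l)) = cls l (u 1) := by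
        rw [map_pow, map_pow, show cls l (u z) = _ from hz, ← map_pow, map_one]
        exact congrArg _ (Subtype.ext (by
          rw [Matrix.SpecialLinearGroup.coe_pow, eC, ggraph_pow e he]; rfl))
      rw [tr, map_one, map_one, patg_one] at h1
      obtain ⟨s, n, h2⟩ := unip_of_pow (x := Matrix.SpecialLinearGroup.toGL (w z)) (by
        rw [← map_pow, ← map_pow]; exact h1)
      exact ⟨z, s, n, hz, h2⟩
  obtain ⟨y, s, n, ey, hs', hn, en⟩ := up A _ q1 rfl
  obtain ⟨z, t, m, ez, ht, hm, em⟩ := up B _ q2 rfl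
  have hm0 : m ≠ 0 := by
    rintro rfl
    obtain ⟨c, hc⟩ := patg_one.1 (ez.symm.trans (((tr z 1).2 (by
      rw [map_one, map_one, patg_one]; exact ⟨t, by simpa using em⟩)).trans (by simp)))
    simpa [B, bas] using congrFun (congrFun hc 1) 0
  have hne : n ≠ m := by
    rintro rfl
    obtain ⟨c, hc⟩ := patg_eq.1 (ey.symm.trans (((tr y z).2 (patg_eq.2
      ⟨s / t, by rw [en, em, smul_smul, div_mul_cancel₀ _ ht]⟩)).trans ez))
    simpa [A, B, bas] using congrFun (congrFun hc 0) 1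
  obtain ⟨μ, hμ⟩ := patg_eq.1 ((tr (y * z * y) (z * y * z)).1 (by
    simp only [map_mul, ey, ez]
    simp only [← map_mul]
    refine congrArg _ (Subtype.ext ?_)
    ext a b; fin_cases a <;> fin_cases b <;> simp [A, B, bas, Matrix.mul_apply, Fin.sum_univ_two]))
  simp only [map_mul, Matrix.SpecialLinearGroup.coe_mul, en, em, smul_mul_smul_comm,
    smul_smul] at hμ
  have hb := ggraph_braid (patg_two hl) hn hm hm0 hne (μ := (s * t * s)⁻¹ * (μ * (t * s * t))) (by
    rw [← smul_smul, ← hμ, smul_smul, inv_mul_cancel₀ (by positivity), one_smul])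
  obtain ⟨c, c1, c2⟩ := units_conj hn (by rwa [neg_mul_neg]) hb
  have cj1 : ∀ {a b : SL(2, ZMod l)}, cls l a = cls l b → cls l (cjS c a) = cls l (cjS c b) :=
    fun h => patg_eq.2 ((patg_eq.1 h).imp fun d hd => by
      change cj c _ = d • cj c _
      rw [hd, cj, cj, Matrix.mul_smul, Matrix.smul_mul])
  let V := ((cls l).comp w).eqLocus (((cls l).comp (cjS c)).comp u)
  have h1 : ∀ v ∈ V, ∀ C, cls l (u v) = cls l C → Matrix.SpecialLinearGroup.toGL C ∈
      ((V.map ((cls l).comp u)).comap (cls l)).map Matrix.SpecialLinearGroup.toGL :=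
    fun v hv C e => ⟨C, ⟨v, hv, e⟩, rfl⟩
  obtain ⟨_, ⟨v, hv, e1⟩, e2⟩ := two_transv _ (h1 y (Eq.trans (patg_eq.2 ⟨s, by
      change (w y).1 = s • cj c (1 + _)
      rw [en, ← c1]; simp only [cj, mul_add, add_mul, mul_one, Units.mul_inv]⟩) (cj1 ey).symm) A ey)
    (h1 z (Eq.trans (patg_eq.2 ⟨t, by
      change (w z).1 = t • cj c (1 + _)
      rw [em, ← neg_neg m, ← c2]
      simp only [cj, mul_add, add_mul, mul_one, Units.mul_inv, mul_neg, neg_mul]⟩)
      (cj1 ez).symm) B ez) rfl rfl q1 q2 q3 (u := Matrix.SpecialLinearGroup.toGL (u x)) (u x).2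
  rw [Matrix.SpecialLinearGroup.toGL_injective e2] at e1
  rw [← patg_sq (((cj1 e1).symm.trans hv.symm).trans ((tr v x).1 e1))]
  exact congrArg (· ^ 2) (trace_units_conj c _).symm

end sl

end MG.W
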