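import Pool.Agent.Lib.MP_33b3f9_ag.MG.Mor
import Pool.Agent.Lib.MP_33b3f9_ag.M5.SSys

/-!
Polynomials over a number field.
-/

set_option autoImplicit false

noncomputable section

namespace MG.W

open Matrix Polynomial NumberField M4 M4.CM M5

/-- As `M4.CM.pow_sums`. -/
theorem pow_sumsE {E : Type} [Field E] (P : E[X]) (hm : P.Monic) : ∃ x : ℕ → E,
    ∀ (Ω : Type) [Field Ω] [IsAlgClosed Ω] (j : E →+* Ω) (A : M8 Ω), A.charpoly = P.map j →
      ∀ k, (A ^ k).trace = j (x k) := by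
  set b := AdjoinRoot.powerBasis' hm with hb
  set B := Algebra.leftMulMatrix b.basis b.gen with hB
  have h1 : B.charpoly = P := by
    rw [hB, charpoly_leftMulMatrix]
    refine (minpoly.unique' E b.gen hm ?_ fun q hq => ?_).symm
    · rw [hb, AdjoinRoot.powerBasis'_gen, AdjoinRoot.aeval_eq, AdjoinRoot.mk_self]
    · rw [hb, AdjoinRoot.powerBasis'_gen, AdjoinRoot.aeval_eq, Ne, AdjoinRoot.mk_eq_zero,
        or_iff_not_imp_right, not_not]
      exact fun h => eq_zero_of_dvd_of_degree_lt h hq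
  refine ⟨fun k => (B ^ k).trace, fun Ω _ _ j A hA k => ?_⟩
  obtain ⟨a, ha⟩ := M4.CM.exists_roots (P.map j) (hm.map _)
  have h2 : (B.map j).charpoly = ∏ i, (X - C (a i)) := by
    rw [charpoly_map, h1, ← ha]
  rw [M4.CM.trace_pow A a (hA.trans ha), ← M4.CM.trace_pow _ a h2, ← Matrix.map_pow]
  exact (AddMonoidHom.map_trace j (B ^ k)).symm

/-- As `M4.CM.exists_cubic`. -/
theorem cubicE {E : Type} [Field E] [CharZero E] (v₀ v₂ v₃ : E) : ∃ c : E[X], c.Monic ∧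
    ∀ (Ω : Type) [Field Ω] (j : E →+* Ω) (T : Fin 3 → Ω), ∏ i, T i = j v₀ →
      ∏ i, (T i - 2) = j v₂ → ∏ i, (T i - 3) = j v₃ → ∀ i, (c.map j).eval (T i) = 0 := by
  refine ⟨X ^ 3 + C (-5 - v₀ / 6 + v₂ / 2 - v₃ / 3) * X ^ 2 +
    C (6 + 5 * v₀ / 6 - 3 * v₂ / 2 + 2 * v₃ / 3) * X + C (-v₀), by monicity!,
    fun Ω _ j T h0 h2 h3 i => ?_⟩
  have : CharZero Ω := (RingHom.charZero_iff j.injective).1 inferInstance
  have h4 : ∏ j, (T i - T j) = 0 := Finset.prod_eq_zero (Finset.mem_univ i) (sub_self _)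
  rw [Fin.prod_univ_three] at h0 h2 h3 h4
  simp only [Polynomial.map_add, Polynomial.map_mul, Polynomial.map_pow, map_X, map_C, eval_add,
    eval_mul, eval_pow, eval_X, eval_C]
  simp only [map_add, map_sub, map_mul, map_neg, map_div₀, map_ofNat]
  rw [← h0, ← h2, ← h3, ← h4]
  ring

/-- As `M5.exists_L`. -/
theorem exists_L2 {E : Type} [Field E] [NumberField E] {c : E[X]} (hc : c ≠ 0)
    (L₀ : IntermediateField ℚ Qb) [NumberField L₀] :
    ∃ (L : Type) (_ : Field L) (_ : NumberField L) (l₂ : ℕ), ∀ (l : ℕ) [Fact l.Prime], l₂ < l →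
      NT.Spl L l → l ≡ 1 [MOD 32] ∧ Nonempty (L₀ →+* ℚ_[l]) ∧
        ∀ (j : E →+* CM.Om l) x, (c.map j).eval x = 0 → x ∈ NT.Qp l := by
  have hA : Algebra.IsAlgebraic ℚ Qb := by
    have h := AlgebraicClosure.isAlgebraic ℚ
    rwa [Subsingleton.elim (AlgebraicClosure.instAlgebra ℚ) DivisionRing.toRatAlgebra] at h
  let U : Set Qb := ⋃ s : E →+* Qb, {y | y ∈ (c.map s).roots}
  have : Finite U := Set.finite_iUnion fun s => (c.map s).roots.finite_toSet
  have : FiniteDimensional ℚ (IntermediateField.adjoin ℚ U) :=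
    IntermediateField.finiteDimensional_adjoin fun x _ => (hA.isAlgebraic x).isIntegral
  let F : IntermediateField ℚ Qb := L₀ ⊔ IntermediateField.adjoin ℚ U
  have : FiniteDimensional ℚ F := IntermediateField.finiteDimensional_sup _ _
  have : NumberField F := ⟨⟩
  obtain ⟨L, i1, i2, l₂, h⟩ := M5.exists_L F
  refine ⟨L, i1, i2, l₂, fun l _ hl hS => ?_⟩
  obtain ⟨h1, h2⟩ := h l hl hS
  obtain ⟨j₀, -⟩ := exists_j (Rat.castHom Qb) (Rat.castHom (CM.Om l))
  have h3 : ∀ y ∈ F, j₀ y ∈ NT.Qp l := fun y hy => h2 (j₀.comp (F.val : F →+* Qb)) ⟨y, hy⟩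
  refine ⟨h1, ⟨(algebraMap ℚ_[l] (CM.Om l)).rangeRestrictFieldEquiv.symm.toRingHom.comp
    ((j₀.comp (L₀.val : L₀ →+* Qb)).codRestrict _ fun y => ?_)⟩, fun j x hx => ?_⟩
  · exact h3 y ((le_sup_left : L₀ ≤ F) y.2)
  · obtain ⟨s, rfl⟩ := (comp_bij (F := E) j₀).2 j
    have h4 : x ∈ ((c.map s).map j₀).roots := by
      rw [Polynomial.map_map]
      exact (mem_roots (Polynomial.map_ne_zero hc)).2 hx
    rw [(IsAlgClosed.splits (c.map s)).roots_map_of_injective j₀.injective] at h4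
    obtain ⟨y, hy, rfl⟩ := Multiset.mem_map.1 h4
    exact h3 y ((le_sup_right : _ ≤ F)
      (IntermediateField.subset_adjoin ℚ U (Set.mem_iUnion.2 ⟨s, hy⟩)))

end MG.W
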