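import Pool.Agent.Lib.MP_33b3f9_ag.MG.W.Reg

/-!
The reduced discriminant of a regular Frobenius element.
-/

set_option autoImplicit false

noncomputable section

namespace MG.W

open Matrix Polynomial NumberField M4 M4.CM M5 Pool.Agent.M4.Mx Pool.Agent.M4.Det

theorem red_rad {G : ℚ[X]} (hG : G ≠ 0) : ∃ R : ℚ[X], R.Separable ∧ ∀ (Ω J : Type) [Field Ω]
    [CharZero Ω] [DecidableEq Ω] [Fintype J] (y : J → Ω),
      G.map (algebraMap ℚ Ω) = ∏ j, (X - C (y j)) →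
      R.map (algebraMap ℚ Ω) = ∏ x ∈ Finset.univ.image y, (X - C x) := by
  have h0 := normalize_associated (UniqueFactorizationMonoid.radical G)
  have h1 := h0.dvd.trans UniqueFactorizationMonoid.radical_dvd_self
  have h2 := PerfectField.separable_iff_squarefree.2
    (h0.squarefree_iff.2 UniqueFactorizationMonoid.squarefree_radical)
  obtain ⟨k, h3⟩ := UniqueFactorizationMonoid.exists_dvd_radical_self_pow hG
  replace h3 := h3.trans (pow_dvd_pow_of_dvd h0.symm.dvd k)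
  have h4 := monic_normalize (UniqueFactorizationMonoid.radical_ne_zero (a := G))
  generalize normalize (UniqueFactorizationMonoid.radical G) = R at h1 h2 h3 h4
  refine ⟨R, h2, fun Ω J _ _ _ _ y h => ?_⟩
  have h5 := Polynomial.map_dvd (algebraMap ℚ Ω) h1
  have h6 := Polynomial.map_dvd (algebraMap ℚ Ω) h3
  have h7 : G.map (algebraMap ℚ Ω) ≠ 0 := Polynomial.map_ne_zero hG
  have h8 : (R.map (algebraMap ℚ Ω)).roots = (Finset.univ.image y).val :=
    (Multiset.Nodup.ext (nodup_roots h2.map) (Finset.nodup _)).2 fun x => by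
      rw [mem_roots (h4.map _).ne_zero, Finset.mem_val, Finset.mem_image]
      refine ⟨fun hx => ?_, fun ⟨j, _, hj⟩ => ?_⟩
      · have h9 := hx.dvd h5
        rw [h, IsRoot, eval_prod, Finset.prod_eq_zero_iff] at h9
        exact h9.imp fun j hj => ⟨hj.1, (sub_eq_zero.1 (by simpa using hj.2)).symm⟩
      · have h9 : (G.map (algebraMap ℚ Ω)).IsRoot x := by
          rw [h, IsRoot, eval_prod]
          exact Finset.prod_eq_zero (Finset.mem_univ j) (by simp [hj])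
        have h10 := h9.dvd h6
        rw [Polynomial.map_pow, IsRoot, eval_pow] at h10
        exact pow_eq_zero_iff'.1 h10 |>.1
  have h9 : (R.map (algebraMap ℚ Ω)).Splits :=
    Splits.of_dvd (h ▸ Splits.prod fun j _ => Splits.X_sub_C _) h7 h5
  rw [h9.eq_prod_roots_of_monic (h4.map _), h8]
  rfl

theorem red_pure {G : ℚ[X]} (hG : G ≠ 0) : ∃ (k : ℕ) (q : ℚ) (d : ℤ), d ≠ 0 ∧
    ∀ (A Ω J : Type) [CommRing A] [DecidableEq A] [Field Ω] [CharZero Ω] [Fintype J]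
      (φ : A →+* Ω) (y : J → A), Function.Injective φ →
      G.map (algebraMap ℚ Ω) = ∏ j, (X - C (φ (y j))) → (Finset.univ.image y).card = k ∧
        (q : Ω) = ∏ x ∈ Finset.univ.image y, φ x ∧ ∀ j j', y j ≠ y j' → y j - y j' ∣ d := by
  classical
  obtain ⟨R, ⟨u, w, h1⟩, h2⟩ := red_rad hG
  obtain ⟨d, h3, h4⟩ := IsLocalization.integerNormalization_spec (nonZeroDivisors ℤ) w
  refine ⟨R.natDegree, (-1) ^ R.natDegree * R.eval 0, d, nonZeroDivisors.ne_zero h3,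
    fun A Ω J _ _ _ _ _ φ y hφ h => ?_⟩
  have h5 := h2 Ω J (fun j => φ (y j)) h
  rw [show (fun j => φ (y j)) = φ ∘ y from rfl, ← Finset.image_image,
    Finset.prod_image hφ.injOn] at h5
  have h6 : (Finset.univ.image y).card = R.natDegree := by
    rw [← natDegree_map (algebraMap ℚ Ω), h5, ← Lagrange.nodal_eq, Lagrange.natDegree_nodal]
  refine ⟨h6, ?_, fun j j' hj => ?_⟩
  · have b1 := congrArg (eval (algebraMap ℚ Ω 0)) h5
    rw [eval_map_apply, eq_ratCast, map_zero, eval_prod] at b1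
    simp only [eval_sub, eval_X, eval_C, zero_sub, Finset.prod_neg, h6] at b1
    rw [Rat.cast_mul, b1, Rat.cast_pow, Rat.cast_neg, Rat.cast_one, ← mul_assoc, ← mul_pow,
      neg_one_mul, neg_neg, one_pow, one_mul]
  · have m1 : ∀ j, y j ∈ Finset.univ.image y := fun j =>
      Finset.mem_image_of_mem y (Finset.mem_univ j)
    have b1 := congrArg (fun t => eval (φ (y j)) (t.map (algebraMap ℚ Ω))) h1
    simp only [Polynomial.map_add, Polynomial.map_mul, ← derivative_map, h5, ← Lagrange.nodal_eq,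
      eval_add, eval_mul, Polynomial.map_one, eval_one] at b1
    rw [Lagrange.eval_nodal_at_node (v := φ) (m1 j), mul_zero, zero_add,
      Lagrange.eval_nodal_derivative_eval_node_eq (v := φ) (m1 j), Lagrange.eval_nodal] at b1
    have b2 := congrArg (fun t => eval (φ (y j)) (t.map (algebraMap ℚ Ω))) h4
    simp only [Polynomial.map_map, zsmul_eq_mul, Polynomial.map_mul, Polynomial.map_intCast,
      eval_mul, eval_intCast] at b2
    have b3 : aeval (y j) (IsLocalization.integerNormalization (nonZeroDivisors ℤ) w) *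
        ∏ x ∈ (Finset.univ.image y).erase (y j), (y j - x) = d := hφ (by
      rw [map_mul, map_prod, map_intCast, ← mul_one (d : Ω), ← b1, ← mul_assoc, ← b2, aeval_def,
        hom_eval₂, eval_map, RingHom.ext_int (φ.comp _) ((algebraMap ℚ Ω).comp (algebraMap ℤ ℚ))]
      simp only [map_sub])
    exact b3 ▸ (Finset.dvd_prod_of_mem _ (Finset.mem_erase.2 ⟨hj.symm, m1 j'⟩)).mul_left _

/-- The invariant of a slot, over a ring. -/
def yz {R : Type} [CommRing R] (p : ℕ) (h : M2 R) : R :=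
  (p : R) ^ 2 * h.trace ^ 2 * (h.trace ^ 2 - 4 * h.det) * Ring.inverse h.det ^ 2

theorem map_yz {R Ω : Type} [CommRing R] [Field Ω] (φ : R →+* Ω) (p : ℕ) {h : M2 R}
    (hu : IsUnit h.det) : φ (yz p h) = yv p (h.map φ) := by
  have h1 := (hu.map φ).ne_zero
  have h2 : φ (Ring.inverse h.det) = (φ h.det)⁻¹ :=
    eq_inv_of_mul_eq_one_left (by rw [← map_mul, Ring.inverse_mul_cancel _ hu, map_one])
  rw [yv, tv, ← AddMonoidHom.map_trace φ h, ← RingHom.mapMatrix_apply, ← RingHom.map_det]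
  simp only [yz, map_mul, map_pow, map_sub, map_natCast, map_ofNat, h2]
  field_simp

variable [Dim] {e : ℕ} {a b : MZ} {m n N₀ : ℕ} {τ : Mat} {K : IntermediateField ℚ ℂ} {r : Rep K}
  {D : PD e a b m n} {L : Type} [Field L] [NumberField L] {l₁ : ℕ} {F : Frs e a b L l₁}

/-- The representation modulo `l`. -/
def rbm (r : Rep K) (l : ℕ) [Fact l.Prime] : (ℂ ≃ₐ[K] ℂ) →* Matrix ν ν (ZMod l) :=
  ((PadicInt.toZMod (p := l)).mapMatrix.toMonoidHom.comp (Units.coeHom _)).comp (r l)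

omit [NumberField L] in
theorem pat_red {l : GP L l₁} {σ : ℂ ≃ₐ[K] ℂ} {h : Fin e → Fin 3 → M2 ℤ_[l.1]}
    (e1 : (r l.1 σ : Matrix ν ν ℤ_[l.1]) = (F l).T h) (j : ℕ) :
    rbm r l.1 (σ ^ j) = (F.red l).T fun s i => (h s i).map PadicInt.toZMod ^ j := by
  have h1 : rbm r l.1 σ = (F.red l).T fun s i => (h s i).map PadicInt.toZMod :=
    (congrArg (·.map PadicInt.toZMod) e1).trans ((F l).map_T _ h)
  rw [map_pow, h1, Fm.T, ← map_pow]
  exact congrArg _ (funext fun s => T_pow _ _ j)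

omit [NumberField L] in
theorem pat_det (hS : Sys F r) {l : GP L l₁} {σ : ℂ ≃ₐ[K] ℂ} {h : Fin e → Fin 3 → M2 ℤ_[l.1]}
    (e1 : (r l.1 σ : Matrix ν ν ℤ_[l.1]) = (F l).T h) (s : Fin e) (i : Fin 3) :
    ((h s i).map PadicInt.toZMod).det ≠ 0 := by
  obtain ⟨k, e2⟩ := hS.im l σ⁻¹
  have h1 := pat_red e1 1
  have h2 := pat_red e2 1
  simp only [pow_one] at h1 h2
  have h3 : rbm r l.1 σ * rbm r l.1 σ⁻¹ = 1 := by rw [← map_mul, mul_inv_cancel, map_one]
  rw [h1, h2, Fm.T, Fm.T, ← map_mul, ← map_one (F.red l).z.em] at h3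
  have h4 := (isUnit_det_of_right_inverse (congrFun ((F.red l).z.em_inj h3) s)).ne_zero
  have h5 := pow_ne_zero 2 h4
  rw [det_T_sq] at h5
  exact Finset.prod_ne_zero_iff.1 (ne_zero_pow (by omega) h5) i (Finset.mem_univ i)

open Classical in
/-- `Δ` is the product of the `k` different invariants of the slots. -/
structure Rd (F : Frs e a b L l₁) (r : Rep K) (p : ℕ) (σ : ℂ ≃ₐ[K] ℂ) (k : ℕ) (Δ : ℤ) : Prop where
  ne : Δ ≠ 0
  bd : Δ.natAbs ≤ p ^ (12 * e)
  ex : ∃ l₀ : ℕ, ∀ l : GP L l₁, l.1 ≠ p → ∀ h, (r l.1 σ : Matrix ν ν ℤ_[l.1]) = (F l).T h →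
    (Finset.univ.image fun t : Fin e × Fin 3 => yz p (h t.1 t.2)).card = k ∧
    (Δ : ℤ_[l.1]) = ∏ y ∈ Finset.univ.image fun t : Fin e × Fin 3 => yz p (h t.1 t.2), y ∧
    (l₀ < l.1 → ∀ t t' : Fin e × Fin 3, PadicInt.toZMod (yz p (h t.1 t.2)) =
      PadicInt.toZMod (yz p (h t'.1 t'.2)) → yz p (h t.1 t.2) = yz p (h t'.1 t'.2))

open Classical in
theorem red_of (hS : Sys F r) (hc : COMM a b r) {p : ℕ} [Fact p.Prime] {v : ℂ ≃+* PadicAlgCl p}
    {σ : ℂ ≃ₐ[K] ℂ} (hσ : Frob τ D r N₀ v σ) {P : D.E[X]} (hW : Wei D r p σ P) {l : ℕ}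
    [Fact l.Prime] (hl : l ≠ p) (W : Lw e a b (r l)) (h0 : Dq (W.w σ) ≠ 0) :
    (∃ Δ, Reg D F r p σ P Δ) ∧ ∃ k Δ, Rd F r p σ k Δ := by
  refine ⟨reg_of hS hc hσ hW hl W h0, ?_⟩
  obtain ⟨G, key⟩ := reg_key (F := F) hc hσ hW hl W h0
  obtain ⟨l', hl'⟩ := reg_gp L l₁ p
  obtain ⟨h', e1⟩ := hS.im l' σ
  obtain ⟨θ⟩ := nonempty_equiv l'.1
  obtain ⟨k, q, d, a1, a2⟩ := red_pure (G := G) fun c => (monic_prod_X_sub_C _ _).ne_zero
    ((key l' hl'.ne' h' e1).1.symm.trans (by rw [c, Polynomial.map_zero]))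
  have a3 := fun (l : GP L l₁) hl h e1 => a2 _ _ _ (CM.toOm l.1)
    (fun t : Fin e × Fin 3 => yz p (h t.1 t.2)) toOm_inj ((key l hl h e1).1.trans
      (Finset.prod_congr rfl fun t _ => by rw [map_yz _ _ ((key l hl h e1).2 t.1 t.2).1]))
  obtain ⟨Δ, c1, c2, c3⟩ := reg_int (e := e) (θ.symm : CM.Om l'.1 →+* ℂ)
    (Fact.out : p.Prime).two_le _ (Finset.card_image_le.trans (by simp [mul_comm]))
    (fun y hy => by
      obtain ⟨t, -, rfl⟩ := Finset.mem_image.1 hy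
      rw [map_yz _ _ ((key l' hl'.ne' h' e1).2 t.1 t.2).1]
      exact ((key l' hl'.ne' h' e1).2 t.1 t.2).2 _) (a3 l' hl'.ne' h' e1).2.1
  refine ⟨k, Δ, c2, c3, d.natAbs, fun l hl h e1 => ⟨(a3 l hl h e1).1, toOm_inj ?_,
    fun h1 t t' h2 => by_contra fun h3 => ?_⟩⟩
  · rw [map_prod, ← (a3 l hl h e1).2.1, ← c1, map_intCast, Rat.cast_intCast]
  · have h4 := map_dvd PadicInt.toZMod ((a3 l hl h e1).2.2 t t' h3)
    rw [map_sub, h2, sub_self, map_intCast, zero_dvd_iff, ZMod.intCast_zmod_eq_zero_iff_dvd,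
      Int.natCast_dvd] at h4
    exact (Nat.le_of_dvd (Int.natAbs_pos.2 a1) h4).not_gt h1

end MG.W
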