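import Pool.Agent.Lib.MP_33b3f9_ag.MG.W.Weil
import Pool.Agent.Lib.MP_33b3f9_ag.MG.W.Pure
import Pool.Agent.Lib.MP_33b3f9_ag.M4.NTInert

/-!
The discriminant of a regular Frobenius element.
-/

set_option autoImplicit false

noncomputable section

namespace MG.W

open Matrix Polynomial NumberField M4 M4.CM M5 Pool.Agent.M4.Mx Pool.Agent.M4.Det

theorem reg_sp2 {E Ω Ω' : Type} [Field E] [Field Ω] [IsAlgClosed Ω] [Field Ω'] [IsAlgClosed Ω']
    {P : E[X]} {j : E →+* Ω} (h : Sp2 (P.map j)) (j' : E →+* Ω') : Sp2 (P.map j') := by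
  have key : ∀ (Λ : Type) [Field Λ] [IsAlgClosed Λ] (i : E →+* Λ),
      Sp2 (P.map i) ↔ Sp2 (P.map (algebraMap E (AlgebraicClosure E))) := by
    intro Λ _ _ i
    let _ := i.toAlgebra
    let φ : AlgebraicClosure E →ₐ[E] Λ := IsAlgClosed.lift
    have h1 : P.map i = (P.map (algebraMap E (AlgebraicClosure E))).map φ.toRingHom := by
      rw [Polynomial.map_map]
      exact congrArg (P.map ·) (RingHom.ext fun x => (φ.commutes x).symm)
    have h2 : ((fun z : Λ => z ^ 2) ∘ φ.toRingHom) = φ.toRingHom ∘ fun z => z ^ 2 :=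
      funext fun z => (map_pow φ z 2).symm
    rw [Sp2, Sp2, h1, (IsAlgClosed.splits _).roots_map, Multiset.map_map, h2, ← Multiset.map_map,
      Multiset.nodup_map_iff_of_injective φ.toRingHom.injective]
  exact (key Ω' j').2 ((key Ω j).1 h)

theorem reg_fac {Ω : Type} [Field Ω] [IsAlgClosed Ω] [CharZero Ω] (θ : Ω →+* ℂ) (f : Fr ω Ω)
    (h : Fin 3 → M2 Ω) {p : ℕ} (hp : p ≠ 0) (hd : ∏ i, (h i).det = p) (h2 : Sp2 (f.T h).charpoly)
    (hr : ∀ x, (f.T h).charpoly.eval x = 0 → IsIntegral ℤ x ∧ ‖θ x‖ ^ 2 = p) (i : Fin 3) :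
    IsIntegral ℤ ((p : Ω) ^ 2 * tv (h i) * (tv (h i) - 4)) ∧ ∃ x : ℝ, 0 < x ∧ x ≤ 4 * p ^ 2 ∧
      θ ((p : Ω) ^ 2 * tv (h i) * (tv (h i) - 4)) = -x := by
  obtain ⟨μ, h3, h4⟩ := CmCubeB_eig h
  have h5 := CmCubeB_one (CmCubeB_inj f h h3 h4 h2) i
  have h6 : ∀ (c a : Fin 2), IsIntegral ℤ (μ i a * ∏ t ∈ Finset.univ.erase i, μ t c) ∧
      ‖θ (μ i a * ∏ t ∈ Finset.univ.erase i, μ t c)‖ ^ 2 = p := fun c a => hr _ (by
    rw [charpoly_T f h μ h3 h4, eval_prod]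
    refine Finset.prod_eq_zero (Finset.mem_univ (Function.update (fun _ => c) i a)) ?_
    rw [eval_sub, eval_X, eval_C, ← Finset.mul_prod_erase _ _ (Finset.mem_univ i),
      Function.update_self, sub_eq_zero]
    exact congrArg _ (Finset.prod_congr rfl fun t ht => by
      rw [Function.update_of_ne (Finset.ne_of_mem_erase ht)]))
  rw [← Finset.mul_prod_erase _ _ (Finset.mem_univ i)] at hd
  simp only [← h4, Finset.prod_mul_distrib] at hd
  have a1 := h6 0 0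
  have a2 := h6 1 0
  have a3 := h6 0 1
  have a4 := h6 1 1
  rw [tv, ← h3, ← h4]
  generalize ∏ t ∈ Finset.univ.erase i, μ t 0 = c at hd a1 a3
  generalize ∏ t ∈ Finset.univ.erase i, μ t 1 = c' at hd a2 a4
  generalize μ i 0 = u at *
  generalize μ i 1 = w at *
  have h7 : u * w * (c * c') ≠ 0 := hd ▸ Nat.cast_ne_zero.2 hp
  have h8 : (p : Ω) ^ 2 * ((u + w) ^ 2 / (u * w)) * ((u + w) ^ 2 / (u * w) - 4) =
      (u * c * (u * c') - w * c * (w * c')) ^ 2 := by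
    have := left_ne_zero_of_mul (left_ne_zero_of_mul h7)
    have := right_ne_zero_of_mul (left_ne_zero_of_mul h7)
    rw [← hd]
    field_simp
    ring
  have h9 : Complex.normSq (θ (u * c * (u * c'))) = p ^ 2 := by
    rw [Complex.normSq_eq_norm_sq, map_mul, norm_mul, mul_pow, a1.2, a2.2, pow_two]
  have h10 : θ (w * c * (w * c')) = starRingEnd ℂ (θ (u * c * (u * c'))) := by
    refine mul_left_cancel₀ (a := θ (u * c * (u * c'))) (fun h0 => hp ?_) ?_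
    · rw [h0, map_zero] at h9
      exact_mod_cast (pow_eq_zero_iff two_ne_zero).1 h9.symm
    · rw [Complex.mul_conj, h9, ← map_mul,
        show u * c * (u * c') * (w * c * (w * c')) = (u * w * (c * c')) ^ 2 by ring, hd]
      simp
  rw [h8]
  refine ⟨((a1.1.mul a2.1).sub (a3.1.mul a4.1)).pow 2, 4 * (θ (u * c * (u * c'))).im ^ 2,
    mul_pos four_pos (sq_pos_iff.2 fun h0 => h5 ?_), ?_, ?_⟩
  · rw [Complex.conj_eq_iff_im.2 h0] at h10
    refine mul_right_cancel₀ (right_ne_zero_of_mul h7) ?_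
    linear_combination -θ.injective h10
  · rw [← h9, Complex.normSq_apply]
    nlinarith [mul_self_nonneg (θ (u * c * (u * c'))).re]
  · rw [map_pow, map_sub, h10, Complex.sub_conj, mul_pow, Complex.I_sq]
    push_cast
    ring

variable [Dim] {e : ℕ} {a b : MZ} {m n N₀ : ℕ} {τ : Mat} {K : IntermediateField ℚ ℂ} {r : Rep K}
  {D : PD e a b m n} {L : Type} [Field L] [NumberField L] {l₁ : ℕ} {F : Frs e a b L l₁}

theorem reg_norm {δ : D.E} (hδ : D.bar δ = δ) : ∃ q : ℚ, ∀ (R : Type) [Field R] [CharZero R]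
    [IsAlgClosed R] (z : MorD e a b R) (j : Fin e → D.E →+* R), (∀ s, j s D.z = z.ζ s 0) →
      ∏ s, j s δ = q := by
  let E₀ : Subfield D.E := (D.bar : D.E →+* D.E).eqLocusField (RingHom.id _)
  refine ⟨Algebra.norm ℚ (⟨δ, hδ⟩ : E₀), fun R _ _ _ z j hj => ?_⟩
  obtain ⟨J, h1, h2, -⟩ := D.emb z
  have h3 : ∀ (i : D.E →+* R) s c, i D.z = z.ζ s c → i = J (s, c) := fun i s c h => by
    obtain ⟨⟨s', c'⟩, rfl⟩ := J.surjective i
    refine congrArg _ (not_not.1 fun h4 => ?_)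
    have h5 := z.sep _ _ _ _ h4
    rw [← h1, h, sub_self] at h5
    exact not_isUnit_zero h5
  obtain rfl : j = fun s => J (s, 0) := funext fun s => h3 _ _ _ (hj s)
  rw [← prod_emb]
  refine Fintype.prod_bijective (fun s => (J (s, 0)).comp E₀.subtype) ⟨fun s s' h => ?_,
    fun ψ => ?_⟩ _ _ fun _ => rfl
  · have h4 : D.bar (D.bar D.z) = D.z := (J (s, 0)).injective (by
      rw [← h2]
      exact (h2 s 1 _).symm)
    have h5 := RingHom.congr_fun h ⟨D.z + D.bar D.z, by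
      change D.bar _ = _
      rw [map_add, h4, add_comm]
      rfl⟩
    have h6 := fun t => congrArg (J (t, 0)) D.mul
    simp only [map_mul, map_natCast, ← h2, h1] at h6
    simp only [RingHom.comp_apply, Subfield.coe_subtype, map_add, ← h2, h1] at h5
    have h7 : (z.ζ s' 0 - z.ζ s 0) * (z.ζ s' 0 - z.ζ s (Fin.rev 0)) = 0 := by
      linear_combination -z.ζ s' 0 * h5 + h6 s - h6 s'
    by_contra h8
    rcases mul_eq_zero.1 h7 with h9 | h9 <;>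
      exact (z.sep _ _ _ _ fun h10 => h8 (Prod.mk.inj h10).1.symm).ne_zero h9
  · let _ := ψ.toAlgebra
    have : Algebra.IsAlgebraic E₀ D.E := Algebra.IsAlgebraic.tower_top (K := ℚ) E₀
    let φ : D.E →ₐ[E₀] R := IsAlgClosed.lift
    obtain ⟨⟨s, c⟩, h4⟩ := J.surjective φ.toRingHom
    refine ⟨s, RingHom.ext fun x => Eq.trans ?_ (φ.commutes x)⟩
    refine Eq.trans ?_ (RingHom.congr_fun h4 x)
    fin_cases c
    · rfl
    · exact ((h2 s 0 x).trans (congrArg _ x.2)).symm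

omit [NumberField L] in
theorem reg_w (hc : COMM a b r) (l : GP L l₁) {σ : ℂ ≃ₐ[K] ℂ} {h : Fin e → Fin 3 → M2 ℤ_[l.1]}
    (e1 : (r l.1 σ : Matrix ν ν ℤ_[l.1]) = (F l).T h) (s : Fin e) :
    (lw hc ((F l).z.map (CM.toOm l.1)) s).w σ =
      (((F l).f s).map (CM.toOm l.1)).T fun i => (h s i).map (CM.toOm l.1) := by
  rw [← Fr.map_T, ← congrFun ((F l).z.pr_em fun s => ((F l).f s).T (h s)) s, Mor.map_pr]
  exact congrArg (fun A : Matrix ν ν ℤ_[l.1] =>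
    ((F l).z.map (CM.toOm l.1)).pr (A.map (CM.toOm l.1)) s) e1

omit [Dim] in
theorem reg_gp (L : Type) [Field L] [NumberField L] (l₁ k : ℕ) : ∃ l : GP L l₁, k < l.1 := by
  obtain ⟨l, h1, h2, h3, -⟩ := NT.exists_split L (l₁ + k + 1)
  exact ⟨⟨l, h2.out, by omega, h3⟩, by change k < l; omega⟩

omit [Dim] in
theorem reg_poly {J : Type} [Fintype J] (q : ℕ → ℚ) : ∃ G : ℚ[X], ∀ (Ω : Type) [Field Ω]
    [CharZero Ω] (y : J → Ω), (∀ c : ℕ, (q c : Ω) = ∏ j, ((c : Ω) - y j)) →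
      G.map (algebraMap ℚ Ω) = ∏ j, (X - C (y j)) := by
  have h1 : ∀ (Ω : Type) [Field Ω] [CharZero Ω] (A : Finset ℕ), Set.InjOn (Nat.cast : ℕ → Ω) A :=
    fun Ω _ _ A => Nat.cast_injective.injOn
  refine ⟨Lagrange.interpolate (Finset.range (Fintype.card J + 1)) Nat.cast q,
    fun Ω _ _ y h => eq_of_degrees_lt_of_eval_index_eq (Finset.range (Fintype.card J + 1))
      (h1 Ω _) (degree_map_le.trans_lt (Lagrange.degree_interpolate_lt _ (h1 ℚ _))) ?_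
      fun c hc => ?_⟩
  · rw [← Lagrange.nodal_eq, Lagrange.degree_nodal, Finset.card_range, Finset.card_univ]
    exact_mod_cast Nat.lt_succ_self _
  · rw [← map_natCast (algebraMap ℚ Ω), eval_map_apply,
      Lagrange.eval_interpolate_at_node _ (h1 ℚ _) hc, eq_ratCast, h, map_natCast,
      ← Lagrange.nodal_eq, Lagrange.eval_nodal]

omit [Dim] in
theorem reg_int {Ω J : Type} [Field Ω] [CharZero Ω] (θ : Ω →+* ℂ) {p : ℕ} (hp : 2 ≤ p)
    (A : Finset J) (hA : A.card ≤ 3 * e) {y : J → Ω} (hy : ∀ j ∈ A, IsIntegral ℤ (y j) ∧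
      ∃ x : ℝ, 0 < x ∧ x ≤ 4 * p ^ 2 ∧ θ (y j) = -x) {q : ℚ} (hq : (q : Ω) = ∏ j ∈ A, y j) :
    ∃ Δ : ℤ, (Δ : ℚ) = q ∧ Δ ≠ 0 ∧ Δ.natAbs ≤ p ^ (12 * e) := by
  obtain ⟨Δ, rfl⟩ : ∃ Δ : ℤ, algebraMap ℤ ℚ Δ = q := IsIntegrallyClosed.isIntegral_iff.1
    ((isIntegral_algebraMap_iff (algebraMap ℚ Ω).injective).1 (by
      rw [eq_ratCast, hq]
      exact .prod _ fun j hj => (hy j hj).1))
  have d2 : (2 : ℝ) ≤ p := by exact_mod_cast hp
  have d1 : (4 : ℝ) * p ^ 2 ≤ p ^ 4 := by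
    rw [show (p : ℝ) ^ 4 = p ^ 2 * p ^ 2 by ring]
    exact mul_le_mul_of_nonneg_right
      ((by norm_num : (4 : ℝ) = 2 ^ 2).trans_le (pow_le_pow_left₀ zero_le_two d2 2)) (sq_nonneg _)
  have d3 : ∀ j ∈ A, 0 < ‖θ (y j)‖ ∧ ‖θ (y j)‖ ≤ (p : ℝ) ^ 4 := fun j hj => by
    obtain ⟨x, h1, h2, h3⟩ := (hy j hj).2
    rw [h3, norm_neg, Complex.norm_real, Real.norm_of_nonneg h1.le]
    exact ⟨h1, h2.trans d1⟩
  have d4 : (Δ.natAbs : ℝ) = ∏ j ∈ A, ‖θ (y j)‖ := by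
    rw [eq_intCast, Rat.cast_intCast] at hq
    rw [← norm_prod, ← map_prod, ← hq, map_intCast, Complex.norm_intCast, Nat.cast_natAbs,
      Int.cast_abs]
  refine ⟨Δ, rfl, fun h0 => ?_, ?_⟩
  · rw [h0] at d4
    exact (Finset.prod_pos fun j hj => (d3 j hj).1).ne (by simpa using d4)
  · have d5 := Finset.prod_le_prod (fun j hj => (d3 j hj).1.le) fun j hj => (d3 j hj).2
    rw [Finset.prod_const, ← pow_mul, ← d4] at d5
    exact_mod_cast d5.trans (pow_le_pow_right₀ (by linarith) (by omega))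

/-- The invariant of a slot. -/
def yv {Ω : Type} [Field Ω] (p : ℕ) (h : M2 Ω) : Ω := (p : Ω) ^ 2 * tv h * (tv h - 4)

theorem reg_real {p : ℕ} [Fact p.Prime] {σ : ℂ ≃ₐ[K] ℂ} {P : D.E[X]} (hW : Wei D r p σ P) {l : ℕ}
    [Fact l.Prime] (hl : l ≠ p) (W : Lw e a b (r l)) (h0 : Dq (W.w σ) ≠ 0) :
    P.map (D.bar : D.E →+* D.E) = P ∧ ∃ j : D.E →+* CM.Om l, Sp2 (P.map j) := by
  obtain ⟨J, a1, a2, -⟩ := D.emb W.z
  have a3 := hW.char l hl W _ 0 (a1 _ _)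
  have a4 := hW.char l hl W _ (Fin.rev 0) (a1 _ _)
  rw [show J (W.s, Fin.rev 0) = (J (W.s, 0)).comp D.bar from RingHom.ext (a2 _ _)] at a4
  exact ⟨Polynomial.map_injective _ (J (W.s, 0)).injective (by
    rw [Polynomial.map_map, ← a4, a3]), _, a3 ▸ (Dq_ne_iff _).1 h0⟩

omit [NumberField L] in
theorem reg_key (hc : COMM a b r) {p : ℕ} [Fact p.Prime] {v : ℂ ≃+* PadicAlgCl p}
    {σ : ℂ ≃ₐ[K] ℂ} (hσ : Frob τ D r N₀ v σ) {P : D.E[X]} (hW : Wei D r p σ P) {l : ℕ}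
    [Fact l.Prime] (hl : l ≠ p) (W : Lw e a b (r l)) (h0 : Dq (W.w σ) ≠ 0) :
    ∃ G : ℚ[X], ∀ l : GP L l₁, l.1 ≠ p → ∀ h, (r l.1 σ : Matrix ν ν ℤ_[l.1]) = (F l).T h →
      G.map (algebraMap ℚ (CM.Om l.1)) =
        ∏ t : Fin e × Fin 3, (X - C (yv p ((h t.1 t.2).map (CM.toOm l.1)))) ∧
      ∀ s i, IsUnit (h s i).det ∧ ∀ θ : CM.Om l.1 →+* ℂ,
        IsIntegral ℤ (yv p ((h s i).map (CM.toOm l.1))) ∧ ∃ x : ℝ, 0 < x ∧ x ≤ 4 * p ^ 2 ∧
          θ (yv p ((h s i).map (CM.toOm l.1))) = -x := by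
  have hp := (Fact.out : p.Prime)
  obtain ⟨J, a1, a2, -⟩ := D.emb W.z
  have a3 := hW.char l hl W _ 0 (a1 _ _)
  have a4 := hW.char l hl W _ (Fin.rev 0) (a1 _ _)
  rw [show J (W.s, Fin.rev 0) = (J (W.s, 0)).comp D.bar from RingHom.ext (a2 _ _)] at a4
  have a5 := a3 ▸ (Dq_ne_iff _).1 h0
  obtain ⟨x, hx⟩ := pow_sumsE P hW.base.monic
  have a6 : ∀ k, D.bar (x k) = x k := fun k =>
    (J (W.s, 0)).injective ((hx _ _ _ a4 k).symm.trans (hx _ _ _ a3 k))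
  obtain ⟨e3, h3⟩ : ∃ y, y = x 1 ^ 2 / p := ⟨_, rfl⟩
  obtain ⟨e1, h1⟩ : ∃ y, y = (30 + e3 - 3 * (x 2 / p) + 2 * (x 3 / (p * x 1))) / 6 := ⟨_, rfl⟩
  obtain ⟨e2, h2⟩ : ∃ y, y = (-8 + 4 * e1 + e3 - x 2 / p) / 2 := ⟨_, rfl⟩
  have a7 : D.bar e3 = e3 := by simp [h3, a6]
  have a8 : D.bar e1 = e1 := by simp [h1, a6, a7, map_ofNat]
  have a9 : D.bar e2 = e2 := by simp [h2, a6, a7, a8, map_ofNat]
  choose q hq using fun c : ℕ => reg_norm (D := D) (δ := c ^ 3 -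
    p ^ 2 * (e1 ^ 2 - 2 * e2 - 4 * e1) * c ^ 2 +
    p ^ 4 * (e2 ^ 2 - 2 * e1 * e3 - 4 * (e1 * e2 - 3 * e3) + 16 * e2) * c -
    p ^ 6 * e3 * (e3 - 4 * e2 + 16 * e1 - 64)) (by simp [a7, a8, a9, map_ofNat])
  obtain ⟨G, hG⟩ := reg_poly (J := Fin e × Fin 3) q
  refine ⟨G, fun l hl h e0 => ?_⟩
  choose j hj using fun s => (lw hc ((F l).z.map (CM.toOm l.1)) s).exj D 0
  have b1 := fun s => reg_w hc l e0 s ▸ hW.char l.1 hl _ _ _ (hj s)
  have b2 := fun s => b1 s ▸ reg_sp2 a5 (j s)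
  have b3 : (p : CM.Om l.1) ≠ 0 := Nat.cast_ne_zero.2 hp.ne_zero
  have b4 := congrArg (fun A => A.map (algebraMap ℚ_[l.1] (CM.Om l.1))) (hσ.mult l.1 hl)
  simp only [Matrix.map_mul, Matrix.map_J, Matrix.transpose_map] at b4
  rw [Matrix.map_smul' _ _ _ (map_mul _), map_natCast, Matrix.map_J] at b4
  have b5 := fun s => cube_det _ _ b3
    (reg_w hc l e0 s ▸ (lw hc ((F l).z.map (CM.toOm l.1)) s).sim b4) (b2 s)
  have b6 := fun s i => Finset.prod_ne_zero_iff.1 (b5 s ▸ b3) i (Finset.mem_univ i)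
  refine ⟨hG _ _ fun c => ?_, fun s i => ⟨?_, fun θ => reg_fac θ _ _ hp.ne_zero (b5 s) (b2 s)
    (fun y hy => ?_) i⟩⟩
  · rw [← hq c _ _ j hj, Fintype.prod_prod_type]
    refine Finset.prod_congr rfl fun s _ => ?_
    obtain ⟨v1, v2, v3⟩ := cube_vals _ _ (b6 s)
    have b7 := hx _ _ _ (b1 s)
    have b8 := b7 1
    rw [pow_one] at b8
    have b9 : j s (x 1) ≠ 0 := by
      rw [← b8, trace_T]
      exact Finset.prod_ne_zero_iff.2 fun i _ => cube_trace _ _ (b2 s) i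
    rw [b5] at v1 v2 v3
    rw [b7] at v2 v3
    rw [b8] at v1 v3
    have c3 := congrArg (j s) h3
    have c1 := congrArg (j s) h1
    have c2 := congrArg (j s) h2
    simp only [map_mul, map_pow, map_div₀, map_sub, map_add, map_natCast, map_ofNat, map_neg]
      at c1 c2 c3 ⊢
    rw [← v1, mul_div_cancel_left₀ _ b3] at c3
    rw [← v2, ← v3, mul_div_cancel_left₀ _ b3, mul_div_cancel_left₀ _ (mul_ne_zero b3 b9)] at c1
    rw [← v2, mul_div_cancel_left₀ _ b3] at c2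
    simp only [Fin.prod_univ_three, yv] at c1 c2 c3 ⊢
    generalize tv ((h s 0).map (CM.toOm l.1)) = t0, tv ((h s 1).map (CM.toOm l.1)) = t1,
      tv ((h s 2).map (CM.toOm l.1)) = t2 at c1 c2 c3 ⊢
    have c4 : j s e1 = t0 + t1 + t2 := by rw [c1, c3]; ring
    have c5 : j s e2 = t0 * t1 + t0 * t2 + t1 * t2 := by rw [c2, c3, c4]; ring
    rw [c3, c4, c5]
    ring
  · have c1 : ∏ i, (h s i).det = p := toOm_inj (by
      simpa only [map_prod, map_natCast, RingHom.map_det, RingHom.mapMatrix_apply] using b5 s)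
    refine isUnit_of_dvd_unit (c1 ▸ Finset.dvd_prod_of_mem _ (Finset.mem_univ i)) ?_
    exact PadicInt.isUnit_iff.2 (PadicInt.norm_natCast_eq_one_iff.2
      ((Nat.coprime_primes l.2.1 hp).2 hl))
  · rw [b1] at hy
    refine ⟨.of_aeval_monic_of_isIntegral_coeff (hW.base.monic.map (j s)) (by
      rw [hW.base.monic.natDegree_map, hW.deg]; omega) (hy ▸ isIntegral_zero) fun k => ?_,
      hW.base.weil (θ.comp (j s)) _ ?_⟩
    · rw [coeff_map]
      exact (hW.base.int k).map (j s).toIntAlgHom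
    · rw [← hom_eval₂, eval₂_eq_eval_map, hy, map_zero]

theorem reg_of (hS : Sys F r) (hc : COMM a b r) {p : ℕ} [Fact p.Prime] {v : ℂ ≃+* PadicAlgCl p}
    {σ : ℂ ≃ₐ[K] ℂ} (hσ : Frob τ D r N₀ v σ) {P : D.E[X]} (hW : Wei D r p σ P) {l : ℕ}
    [Fact l.Prime] (hl : l ≠ p) (W : Lw e a b (r l)) (h0 : Dq (W.w σ) ≠ 0) :
    ∃ Δ, Reg D F r p σ P Δ := by
  obtain ⟨G, key⟩ := reg_key (F := F) hc hσ hW hl W h0
  obtain ⟨a1, j₀, a2⟩ := reg_real hW hl W h0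
  have a3 : ∀ l : GP L l₁, l.1 ≠ p → ∀ h, (r l.1 σ : Matrix ν ν ℤ_[l.1]) = (F l).T h →
      (((-1) ^ Fintype.card (Fin e × Fin 3) * G.eval 0 : ℚ) : CM.Om l.1) =
        ∏ t : Fin e × Fin 3, yv p ((h t.1 t.2).map (CM.toOm l.1)) := fun l hl h e1 => by
    have b1 := congrArg (eval (algebraMap ℚ (CM.Om l.1) 0)) (key l hl h e1).1
    rw [eval_map_apply, eq_ratCast, map_zero, eval_prod] at b1
    simp only [eval_sub, eval_X, eval_C, zero_sub, Finset.prod_neg, Finset.card_univ] at b1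
    rw [Rat.cast_mul, b1, Rat.cast_pow, Rat.cast_neg, Rat.cast_one, ← mul_assoc, ← mul_pow,
      neg_one_mul, neg_neg, one_pow, one_mul]
  obtain ⟨l', hl'⟩ := reg_gp L l₁ p
  obtain ⟨h, e1⟩ := hS.im l' σ
  obtain ⟨θ⟩ := nonempty_equiv l'.1
  obtain ⟨Δ, c1, c2, c3⟩ := reg_int (e := e) (θ.symm : CM.Om l'.1 →+* ℂ)
    (Fact.out : p.Prime).two_le Finset.univ (by simp [mul_comm])
    (fun t _ => ((key l' hl'.ne' h e1).2 t.1 t.2).2 _) (a3 l' hl'.ne' h e1)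
  refine ⟨Δ, hW.base, hW.deg, a1, reg_sp2 a2, fun l hl j s c hj => ?_, fun l hl h e1 => ?_, c2, c3⟩
  · refine Polynomial.map_injective _ (algebraMap ℚ_[l.1] (CM.Om l.1)).injective ?_
    rw [← charpoly_map, Mor.map_pr, Polynomial.map_map]
    exact hW.char l.1 hl (lw hc ((F.q l).z.map (algebraMap _ _)) s) _ c
      (congrArg (algebraMap ℚ_[l.1] (CM.Om l.1)) hj)
  · have d1 := a3 l hl h e1
    rw [← c1, Rat.cast_intCast, Fintype.prod_prod_type] at d1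
    refine toOm_inj ?_
    simp only [map_mul, map_intCast, d1, map_prod, ← Finset.prod_mul_distrib, map_pow, map_sub,
      map_natCast, map_ofNat, RingHom.map_det, AddMonoidHom.map_trace, RingHom.mapMatrix_apply]
    refine Finset.prod_congr rfl fun s _ => Finset.prod_congr rfl fun i _ => ?_
    have := (((key l hl h e1).2 s i).1.map (CM.toOm l.1)).ne_zero
    rw [RingHom.map_det, RingHom.mapMatrix_apply] at this
    rw [yv, tv]
    field_simp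

end MG.W
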