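import Pool.Agent.Lib.MP_33b3f9_ag.MG.W.BFrob
import Pool.Agent.Lib.MP_33b3f9_ag.M5.SGlob
import Pool.Agent.Lib.MP_33b3f9_ag.M4.NTInert

/-!
The system of frames.
-/

set_option autoImplicit false

noncomputable section

namespace MG.W

open Matrix Polynomial NumberField M4 M4.CM M5 Pool.Agent.M4.Mx Pool.Agent.Lib.MP_33b3f9_ag
open Pool.Agent.M4.Det

theorem u_mem {Ω : Type} [Field Ω] [CharZero Ω] {f f' : Fr ω Ω} {g : Submodule Ω (M8 Ω)}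
    (h1 : f'.sl ≤ g) (h2 : g ≤ f.m) (s : Fin 3) {y : M2 Ω} (hy : y.trace = 0) : f.u s y ∈ g := by
  obtain ⟨π, c, hc⟩ := cmp f f' (h1.trans h2)
  obtain ⟨i, rfl⟩ := π.surjective s
  have e' : (cj (c i)⁻¹ y).trace = 0 := by
    rw [cj, trace_mul_cycle, Units.inv_mul, Matrix.one_mul, hy]
  rw [← fcmp_inv (c i) y, ← hc]
  rw [trace_fin_two] at e'
  exact h1 (MxSl_tr f' i _ (eq_neg_of_add_eq_zero_right e'))

theorem u_adj {Ω : Type} [Field Ω] [CharZero Ω] {f : Fr ω Ω} {s : Fin 3}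
    (h : ∀ y : M2 Ω, y.trace = 0 → Sp (J (Fin 4) Ω) (tl (f.u s y))) (x : M2 Ω) :
    (f.u s x)ᵀ * J (Fin 4) Ω = J (Fin 4) Ω * f.u s (adjugate x) := by
  have h0 : (x - (x.trace / 2) • (1 : M2 Ω)).trace = 0 := by
    rw [trace_sub, trace_smul, trace_one, Fintype.card_fin, smul_eq_mul]
    push_cast
    ring
  have h1 := h _ h0
  have e : ∀ X : M8 Ω, tl X = X - (8 : Ω)⁻¹ • X.trace • 1 := fun _ => rfl
  have e2 : adjugate x = x.trace • (1 : M2 Ω) - x := by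
    ext i j
    fin_cases i <;> fin_cases j <;> simp [adjugate_fin_two, trace_fin_two]
  rw [e, trace_u', h0, mul_zero, zero_smul, smul_zero, sub_zero, Sp, map_sub, map_smul, map_one,
    transpose_sub, transpose_smul, transpose_one] at h1
  rw [e2, map_sub, map_smul, map_one, ← sub_eq_zero, ← h1]
  simp only [sub_mul, mul_sub, smul_mul_assoc, mul_smul_comm, one_mul, mul_one]
  match_scalars <;> ring

variable [Dim] {a b : MZ} {m n N₀ : ℕ} {τ : Mat} {K : IntermediateField ℚ ℂ} {r : Rep K} {d : ℕ}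
  {D : PD d a b m n} {l₀ : ℕ} [Fact l₀.Prime] {W₀ : Lw d a b (r l₀)} {f₀ : Fr ω (CM.Om l₀)}

theorem sf_loc {p : ℕ} [Fact p.Prime] {e : ℂ ≃+* PadicAlgCl p} {σ : ℂ ≃ₐ[K] ℂ} {P : D.E[X]}
    (hσ : Frob τ D r N₀ e σ) (hW : Wei D r p σ P) :
    ∃ c : D.E[X], c.Monic ∧ ∀ (l : ℕ) [Fact l.Prime], l ≠ p → ∀ W : Lw d a b (r l),
      M5.Reg (W.w σ) → ∀ (f : Fr ω (CM.Om l)) (h : Fin 3 → M2 (CM.Om l)), W.w σ = f.T h →
        (∀ i, h i ≠ 0) ∧ (Function.Injective fun i => tv (h i)) ∧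
          ∃ j : D.E →+* CM.Om l, ∀ i, (c.map j).eval (tv (h i)) = 0 := by
  obtain ⟨x, hx⟩ := pow_sumsE P hW.base.monic
  obtain ⟨c, hc1, hc3⟩ := cubicE (x 1 ^ 2 / p) (x 2 / p) (x 3 / (p * x 1))
  have hp := (Fact.out : p.Prime)
  refine ⟨c, hc1, fun l _ hl W hr f h e1 => ?_⟩
  obtain ⟨j, hj⟩ := W.exj D 0
  have e8 : (p : CM.Om l) ≠ 0 := Nat.cast_ne_zero.2 hp.ne_zero
  have e2 : Sp2 (f.T h).charpoly := by
    have := hr 1 one_ne_zero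
    rw [pow_one, e1] at this
    exact (Dq_ne_iff _).1 this
  have e3 := cube_det f h e8 (e1 ▸ mult_w hσ W hl) e2
  have e4 := fun i => Finset.prod_ne_zero_iff.1 (e3 ▸ e8) i (Finset.mem_univ i)
  have e5 := hx _ j _ (e1 ▸ hW.char l hl W j 0 hj)
  have e6 := e5 1
  obtain ⟨v1, v2, v3⟩ := cube_vals f h e4
  rw [pow_one] at e6
  rw [e3] at v1 v2 v3
  rw [e5] at v2 v3
  rw [e6] at v1 v3
  have e7 : j (x 1) ≠ 0 := by
    rw [← e6, trace_T]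
    exact Finset.prod_ne_zero_iff.2 fun i _ => cube_trace _ _ e2 i
  refine ⟨fun i h0 => e4 i (by rw [h0, det_zero]), (cube_inj f h e4 e2).1, j,
    hc3 _ j _ ?_ ?_ ?_⟩ <;> simp only [map_div₀, map_pow, map_mul, map_natCast]
  · exact eq_div_of_mul_eq e8 (by rw [mul_comm, v1])
  · exact eq_div_of_mul_eq e8 (by rw [mul_comm, v2])
  · exact eq_div_of_mul_eq (mul_ne_zero e8 e7) (by rw [mul_comm, v3])

theorem blk (H : Hyp τ D r N₀) (B : Base W₀ f₀) {l : ℕ} [Fact l.Prime] (hl : l ≠ 2)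
    {W : Lw d a b (r l)} {z : MorD d a b ℤ_[l]} {u : (ℂ ≃ₐ[K] ℂ) →* GL ω ℤ_[l]} (hI : W.Int z u)
    (hs : Sz u) {σ : ℂ ≃ₐ[K] ℂ} (h : ∀ (f : Fr ω (CM.Om l)) h, W.w σ = f.T h → (∀ i, h i ≠ 0) ∧
      (Function.Injective fun i => tv (h i)) ∧ ∀ i, tv (h i) ∈ NT.Qp l) :
    ∃ fz : Fr ω ℤ_[l], (∀ σ, ∃ hz, (u σ : M8 ℤ_[l]) = fz.T hz) ∧
      ∀ i x, (fz.u i x)ᵀ * J (Fin 4) ℤ_[l] = J (Fin 4) ℤ_[l] * fz.u i (adjugate x) := by
  obtain ⟨f, h2, h3⟩ := conn H B W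
  simp only [hI.w_eq] at h3 h
  have key : ∀ f' : Fr ω (CM.Om l), (∀ σ, ∃ x, M5.rO u σ = f'.T x) → M5.lie u ⊤ ≤ f'.m :=
    fun f' hf' X hX => f'.tng_m (fun t ht => by
      obtain ⟨σ, -, rfl⟩ := ht
      obtain ⟨x, hx⟩ := hf' σ
      change Rk (f'.Q * M5.rO u σ * f'.P)
      rw [hx, f'.QTP]
      exact rk_tp x) (M5.lie_tng u ⊤ hX)
  obtain ⟨f', hf'⟩ := exists_cb hl hs ⟨h2.1.trans (hI.g_le ⊤), key f h3⟩ h3
  obtain ⟨y, -, e1⟩ := hf'.ex σ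
  obtain ⟨g0, g1, g2⟩ := h f' y e1
  obtain ⟨fz, hz⟩ := split hl hs hf' fun θ i => by
    obtain ⟨π, hπ⟩ := hf'.gal θ
    have e3 := (gal_T hπ (e1 ▸ bspl_fix θ _) g0 i).1
    rw [(mem_Qp_iff _).1 (g2 i) θ] at e3
    have h4 := hπ i
    rwa [← g1 e3] at h4
  refine ⟨fz, hz, fun i x => bspl_inj ?_⟩
  have h5 := (hI.g_le ⊤).trans (key (fz.map (CM.toOm l)) fun σ => (hz σ).elim fun y e =>
    ⟨_, by rw [← Fr.map_T, ← e]; rfl⟩)
  rw [Matrix.map_mul, Matrix.map_mul, transpose_map, map_J, bgal_map, bgal_map,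
    ← RingHom.mapMatrix_apply _ (adjugate x), RingHom.map_adjugate]
  exact u_adj (fun y hy => W.g_sp (H.gsp l) (u_mem h2.1 h5 i hy)) _

theorem exists_sys (H : Hyp τ D r N₀) (B : Base W₀ f₀) :
    ∃ (L : Type) (_ : Field L) (_ : NumberField L) (l₁ : ℕ) (F : Frs d a b L l₁), Sys F r ∧
      ∃ (l : GP L l₁) (s : Fin d) (σ : ℂ ≃ₐ[K] ℂ),
        Dq ((F l).z.pr (r l.1 (σ ^ 2) : Matrix ν ν ℤ_[l.1]) s) ≠ 0 := by
  obtain ⟨u₀, -, hu⟩ := dens H B ⊤ 1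
  obtain ⟨p, hp, e, σ, -, P, -, hσ, hW, -, hr⟩ := frob_reg H W₀ (B.neat _) hu one_ne_zero 0
  obtain ⟨c, c1, c3⟩ := sf_loc hσ hW
  obtain ⟨L₀, _, n₀, h0⟩ := D.pel.mor_padic
  obtain ⟨L, _, _, l₂, h2⟩ := exists_L2 c1.ne_zero L₀
  obtain ⟨l₃, h3⟩ := H.sf 180
  have key : ∀ l : GP L (p + n₀ + l₂ + l₃ + 5), ∃ (F : Fm d a b ℤ_[l.1])
      (u : Fin d → (ℂ ≃ₐ[K] ℂ) →* GL ω ℤ_[l.1]), ∀ s,
        (lw H.com (F.z.map (CM.toOm l.1)) s).Int F.z (u s) ∧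
          ∀ σ, ∃ hz, (u s σ : M8 ℤ_[l.1]) = (F.f s).T hz := fun l => by
    have hl := l.2.2.1
    obtain ⟨-, h4, h5⟩ := h2 l.1 (by omega) l.2.2.2
    obtain ⟨z⟩ := h0 l.1 (by omega) h4
    choose u hu using lw_int H.com z
    choose fz h6 h7 using fun s => blk H B (by omega) (hu s)
      ((h3 l.1 (by omega) _ _ _ (hu s)).sz (by norm_num)) (σ := σ) fun f h e1 => by
        obtain ⟨g0, g1, j, g2⟩ := c3 l.1 (by omega) _ (hr l.1 (by omega) _) f h e1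
        exact ⟨g0, g1, fun i => h5 j _ (g2 i)⟩
    exact ⟨⟨z, fz, h7⟩, u, fun s => ⟨hu s, h6 s⟩⟩
  choose F u hI hT using key
  choose h hh using hT
  have im : ∀ l σ, (r l.1 σ : Matrix ν ν ℤ_[l.1]) = (F l).T fun s => h l s σ := fun l σ =>
    ((F l).z.em_pr (H.com l.1 σ).1 (H.com l.1 σ).2).symm.trans
      (congrArg _ (funext fun s => ((hI l s).eq σ).symm.trans (hh l s σ)))
  refine ⟨L, _, ‹_›, _, F, ⟨fun l => (h2 l.1 (by have := l.2.2.1; omega) l.2.2.2).1,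
    fun l σ => ⟨_, im l σ⟩, fun l q y hy => ?_⟩, ?_⟩
  · have hl := l.2.2.1
    let ρ : (ℂ ≃ₐ[K] ℂ) →* M8 (ZMod l.1) :=
      ((PadicInt.toZMod (p := l.1)).mapMatrix.toMonoidHom.comp (Units.coeHom _)).comp (u l q.1)
    have ex : ∀ σ, ρ σ = (((F l).f q.1).map PadicInt.toZMod).T
        fun i => (h l q.1 σ i).map PadicInt.toZMod := fun σ => by
      rw [← Fr.map_T, ← hh]
      rfl
    obtain ⟨σ', e1⟩ := ts_big (by omega) ρ _ (fun σ => ⟨_, ex σ⟩)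
      (h3 l.1 (by omega) _ _ _ (hI l q.1)) q.2 hy
    obtain ⟨c, -, hc⟩ := T_unique _ (e1.symm.trans (ex σ')) (fun i h0 => by
      have h1 := congrArg det h0
      by_cases hi : i = q.2
      · rw [hi, Function.update_self, hy, det_zero] at h1
        exact one_ne_zero h1
      · rw [Function.update_of_ne hi, Pi.one_apply, det_one, det_zero] at h1
        exact one_ne_zero h1) q.2
    rw [Function.update_self] at hc
    exact ⟨σ', _, im l σ', c, hc⟩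
  · obtain ⟨l, hl, hp', hS, -⟩ := NT.exists_split L (p + n₀ + l₂ + l₃ + 5 + 1)
    let l' : GP L (p + n₀ + l₂ + l₃ + 5) := ⟨l, hp'.out, hl, hS⟩
    refine ⟨l', W₀.s, σ, fun h0 => hr l (by omega) (lw H.com ((F l').z.map (CM.toOm l)) W₀.s) 2
      two_ne_zero ?_⟩
    rw [← map_pow, (hI l' W₀.s).w_eq]
    change Dq ((u l' W₀.s (σ ^ 2) : M8 ℤ_[l]).map (CM.toOm l)) = 0
    rw [Dq_map, (hI l' W₀.s).eq]
    exact (congrArg _ h0).trans (map_zero _)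

end MG.W
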