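import Pool.Agent.Lib.MP_33b3f9_ag.MG.W.ANear
import Pool.Agent.Lib.MP_33b3f9_ag.MG.W.Open
import Pool.Agent.Lib.MP_33b3f9_ag.MG.W.Ext
import Pool.Agent.Lib.MP_33b3f9_ag.M4.B2.WeilA

/-!
Characteristic polynomials of Frobenius elements on the blocks.
-/

set_option autoImplicit false

noncomputable section

namespace MG.W

open Matrix Polynomial NumberField M4 M4.CM M5 Pool.Agent.M4.Mx Pool.Agent.M4.Det

variable [Dim] {e : ℕ} {a b : MZ} {m n N₀ : ℕ} {τ : Mat} {K : IntermediateField ℚ ℂ} {r : Rep K}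
  {D : PD e a b m n}

section weil

variable {p : ℕ} {σ : ℂ ≃ₐ[K] ℂ} {P : D.E[X]} {l : ℕ} [Fact l.Prime]

theorem Lw.exj (D : PD e a b m n) (W : Lw e a b (r l)) (c : Fin 2) :
    ∃ j : D.E →+* CM.Om l, j D.z = W.z.ζ W.s c :=
  (D.emb W.z).elim fun j h => ⟨j (W.s, c), h.1 _ _⟩

theorem weil_zero (h : Weil D r p σ P) (hl : l ≠ p) (W : Lw e a b (r l)) {j : D.E →+* CM.Om l}
    {c : Fin 2} (hj : j D.z = W.z.ζ W.s c) : aeval (W.w σ) (P.map j) = 0 := by
  obtain ⟨J, h1, -, h3⟩ := D.emb W.z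
  obtain ⟨⟨s, d⟩, rfl⟩ := J.surjective j
  obtain ⟨rfl, rfl⟩ : s = W.s ∧ d = c := Prod.mk.inj (not_not.1 fun h4 => by
    have h5 := W.z.sep _ _ _ _ h4
    rw [← h1, hj, sub_self] at h5
    exact not_isUnit_zero h5)
  let ψ : D.E →+* Fin e → Fin 2 → M8 (CM.Om l) :=
    RingHom.pi fun s => RingHom.pi fun c => (algebraMap _ _).comp (J (s, c))
  have h4 := congrArg (algebraMap ℚ_[l] (CM.Om l)).mapMatrix (h.zero l hl)
  have h5 : (algebraMap ℚ_[l] (CM.Om l)).mapMatrix.comp (D.φl l) = W.z.em2.toRingHom.comp ψ :=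
    RingHom.ext fun x => by
      refine Eq.trans ?_ ((h3 x).trans (congrArg _ (funext fun s => funext fun c =>
        (Algebra.algebraMap_eq_smul_one _).symm)))
      ext i k : 1
      exact map_ratCast (algebraMap ℚ_[l] (CM.Om l)) (D.φ x i k)
  have h6 : (algebraMap ℚ_[l] (CM.Om l)).mapMatrix (rq r l σ) =
      W.z.em2.toRingHom fun s _ => W.v σ s := (W.eq σ).symm
  rw [PD.ev, hom_eval₂, h5, h6, ← hom_eval₂, map_zero, ← map_zero W.z.em2] at h4
  have h7 := congrArg ((Pi.evalRingHom _ d).comp (Pi.evalRingHom _ W.s)) (W.z.em2_inj h4)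
  rw [hom_eval₂, map_zero] at h7
  rw [aeval_def, eval₂_map]
  exact h7

omit [Dim] in
theorem weil_ev {R : Type} [CommRing R] (x : Fin e → Fin 2 → M8 R) (q : R[X]) (s : Fin e)
    (d : Fin 2) : aeval x q s d = aeval (x s d) q :=
  (aeval_algHom_apply ((Pi.evalAlgHom R (fun _ : Fin 2 => M8 R) d).comp
    (Pi.evalAlgHom R (fun _ : Fin e => Fin 2 → M8 R) s)) x q).symm

theorem weil_dvd (h : Weil D r p σ P) (hl : l ≠ p) (W : Lw e a b (r l)) {j : D.E →+* CM.Om l}
    {c : Fin 2} (hj : j D.z = W.z.ζ W.s c) {q : (CM.Om l)[X]} (hq : aeval (W.w σ) q = 0) :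
    P.map j ∣ q := by
  have hm := h.monic.map j
  rw [← modByMonic_eq_zero_iff_dvd hm]
  have h2 := aeval_modByMonic_eq_self_of_root (p := q) (weil_zero h hl W hj)
  have h1 := degree_modByMonic_lt q hm
  rw [hq] at h2
  generalize q %ₘ P.map j = u at h1 h2
  by_contra h0
  replace h1 := natDegree_lt_natDegree h0 h1
  rw [h.monic.natDegree_map] at h1
  set Λ : (CM.Om l)[X] := ∏ x ∈ Finset.univ.erase (W.s, c), (X - C (W.z.ζ x.1 x.2)) with hΛ
  have h3 : Λ.Monic := monic_prod_of_monic _ _ fun _ _ => monic_X_sub_C _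
  have h4 : Λ.natDegree < 2 * e := by
    have := W.s.pos
    rw [hΛ, natDegree_prod_of_monic _ _ fun _ _ => monic_X_sub_C _]
    simp only [natDegree_X_sub_C, Finset.sum_const, Finset.card_erase_of_mem (Finset.mem_univ _),
      Finset.card_univ, Fintype.card_prod, Fintype.card_fin, smul_eq_mul]
    omega
  have h5 : aeval (zM (CM.Om l) a) Λ * aeval (rO (r l) σ) u = 0 := by
    rw [← W.eq, W.z.a_eq2, Mor.em_eq, aeval_algHom_apply, aeval_algHom_apply, ← map_mul,
      ← map_zero W.z.em2]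
    refine congrArg _ (funext fun s => funext fun d => ?_)
    rw [Pi.mul_apply, Pi.mul_apply, weil_ev, weil_ev]
    change aeval (W.z.ζ s d • (1 : M8 (CM.Om l))) Λ * aeval (W.v σ s) u = 0
    by_cases h6 : (s, d) = (W.s, c)
    · obtain ⟨rfl, -⟩ := Prod.mk.inj h6
      exact mul_eq_zero_of_right _ h2
    · rw [← Algebra.algebraMap_eq_smul_one, aeval_algebraMap_apply, coe_aeval_eq_eval, hΛ,
        eval_prod, Finset.prod_eq_zero (Finset.mem_erase.2 ⟨h6, Finset.mem_univ _⟩) (by simp),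
        map_zero, zero_mul]
  have h6 : LinearIndependent ℚ_[l] fun (i : Fin (2 * e) × Fin P.natDegree) (x : ν × ν) =>
      (zM ℚ_[l] a ^ (i.1 : ℕ) * rq r l σ ^ (i.2 : ℕ)) x.1 x.2 :=
    Fintype.linearIndependent_iff.2 fun g hg => Fintype.linearIndependent_iff.1 (h.li l hl) g (by
      ext x y : 1
      have h6 := congrFun hg (x, y)
      rw [Finset.sum_apply] at h6
      rw [Matrix.sum_apply]
      exact h6)
  rw [aeval_eq_sum_range' h4, aeval_eq_sum_range' h1, Finset.sum_range, Finset.sum_range,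
    Finset.sum_mul_sum, ← Fintype.sum_prod_type'] at h5
  have h7 := Fintype.linearIndependent_iff.1
    ((linearIndependent_algebraMap_comp_iff (S := CM.Om l)).2 h6)
    (fun i => Λ.coeff i.1 * u.coeff i.2) (funext fun x => by
      refine Eq.trans ?_ (congrFun (congrFun h5 x.1) x.2)
      rw [Finset.sum_apply, Matrix.sum_apply]
      refine Finset.sum_congr rfl fun i _ => ?_
      rw [smul_mul_smul_comm, ← zM_map (algebraMap ℚ_[l] (CM.Om l)),
        show rO (r l) σ = (rq r l σ).map (algebraMap ℚ_[l] (CM.Om l)) from rfl, ← Matrix.map_pow,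
        ← Matrix.map_pow, ← Matrix.map_mul]
      rfl) (⟨_, h4⟩, ⟨_, h1⟩)
  rw [h3.coeff_natDegree, one_mul] at h7
  exact h0 (leadingCoeff_eq_zero.1 h7)

theorem weil_wei (h : Weil D r p σ P) (hd : P.natDegree = 8) : Wei D r p σ P :=
  ⟨h, hd, fun l _ hl W j c hj => eq_of_monic_of_dvd_of_natDegree_le (h.monic.map _)
    (charpoly_monic _) (weil_dvd h hl W hj (aeval_self_charpoly _))
    (by rw [h.monic.natDegree_map, hd, charpoly_natDegree_eq_dim]; rfl)⟩

end weil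

theorem weil_of_Dq {p : ℕ} [Fact p.Prime] {v : ℂ ≃+* PadicAlgCl p} {σ : ℂ ≃ₐ[K] ℂ}
    (h : Frob τ D r N₀ v σ) {l : ℕ} [Fact l.Prime] (hl : l ≠ p) (W : Lw e a b (r l))
    (h0 : Dq (W.w σ) ≠ 0) : ∃ P, Wei D r p σ P := by
  have h1 := (Dq_ne_iff _).1 h0
  obtain ⟨P, hP⟩ := h.weil
  obtain ⟨j, hj⟩ := W.exj D 0
  have h2 := M4.B2.weilA_sep_eq (Sp2.separable (RingHom.id _) (charpoly_monic _).ne_zero
    (by rwa [Polynomial.map_id])) (hP.monic.map j) (weil_zero hP hl W hj)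
    (weil_dvd hP hl W hj (aeval_self_charpoly _))
  refine ⟨P, weil_wei hP ?_⟩
  rw [← hP.monic.natDegree_map j, ← h2, charpoly_natDegree_eq_dim]
  rfl

end MG.W
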